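import Pool.Agent.H44.RC.IOC
import Pool.Agent.H91.Fatou.Branch
import Pool.Agent.H47.RJ.LCS

/-!
# Module CCO: components of preimages

`CC f n D y = connectedComponentIn (f^[n] ⁻¹' D) y`. PROOFS. `lcs`: the sphere is locally connected: every neighbourhood of `x = io τ w` contains the open connected set `cb τ w r` for small `r` (`io_ex`, `io_emb`, `cb_open`, `cb_conn`; `locallyConnectedSpace_iff_subsets_isOpen_isConnected` or a similar criterion). `cc_open`: `IsOpen.connectedComponentIn`.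
`cc_max`: `IsPreconnected.subset_connectedComponentIn`. `cc_eq`: `connectedComponentIn_eq`. `cc_mono`: `cc_max` and `cc_eq`. `cc_map`: if `f^[n] y ∈ D`: the image of the preconnected set is preconnected, contains `f^[i] y`, and is mapped into `D` by `f^[n - i]`; if not: `CC = ∅` (`connectedComponentIn_eq_empty`). `cc_cl`: `V = CC f n D y`,
`x ∈ closure V`, `f^[n] x ∈ D`: `insert x V` is preconnected (`IsPreconnected.subset_closure`), contains `y` (if `V = ∅` the closure is empty) and is mapped into `D`, so it is in `V`.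
`cc_onto`: `f^[n] '' V` is open (`open_iterate`, H91/Fatou/Branch; `cc_open`), nonempty (`f^[n] y`), contained in `D`, and closed in `D`: `closure V` is compact, so `f^[n] '' closure V` is closed and contains `closure (f^[n] '' V)`; a point of `D` of the latter is `f^[n] x`, `x ∈ closure V`, so `x ∈ V` by `cc_cl`. `D` is preconnected, so the image is `D`.
`cc_cpt`: `V ∩ f^[n] ⁻¹' C = closure V ∩ f^[n] ⁻¹' C` (`cc_cl`) is closed in a compact space.
-/

set_option autoImplicit false

open Filter Topology Polynomial Metric Set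

namespace Pool.Agent.H44.RC

open Pool.Agent.H44.Fatou Pool.Agent.H32.BT Pool.Agent.H35.EX Pool.Agent.H44.RR
open Pool.Agent.H56.HR

theorem lcs : LocallyConnectedSpace (OnePoint ℂ) := Pool.Agent.H47.RJ.lcs

variable {f : OnePoint ℂ → OnePoint ℂ}

theorem cc_open (hf : Continuous f) (n : ℕ) {D : Set (OnePoint ℂ)} (hD : IsOpen D) (y : OnePoint ℂ) :
    IsOpen (CC f n D y) := by
  have := lcs
  exact (hD.preimage (hf.iterate n)).connectedComponentIn

theorem cc_pre (n : ℕ) (D : Set (OnePoint ℂ)) (y : OnePoint ℂ) : IsPreconnected (CC f n D y) :=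
  isPreconnected_connectedComponentIn

theorem cc_mem {n : ℕ} {D : Set (OnePoint ℂ)} {y : OnePoint ℂ} (h : f^[n] y ∈ D) : y ∈ CC f n D y :=
  mem_connectedComponentIn h

theorem cc_sub {n : ℕ} {D : Set (OnePoint ℂ)} {y x : OnePoint ℂ} (h : x ∈ CC f n D y) : f^[n] x ∈ D := by
  have h1 : x ∈ f^[n] ⁻¹' D := connectedComponentIn_subset _ _ h
  exact h1

theorem cc_max {n : ℕ} {D A : Set (OnePoint ℂ)} {y : OnePoint ℂ} (hA : IsPreconnected A) (hy : y ∈ A)
    (hs : ∀ a ∈ A, f^[n] a ∈ D) : A ⊆ CC f n D y :=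
  hA.subset_connectedComponentIn hy hs

theorem cc_eq {n : ℕ} {D : Set (OnePoint ℂ)} {y y' : OnePoint ℂ} (h : y' ∈ CC f n D y) :
    CC f n D y' = CC f n D y :=
  (connectedComponentIn_eq h).symm

theorem cc_mono {n : ℕ} {B D : Set (OnePoint ℂ)} (hBD : B ⊆ D) {y y' : OnePoint ℂ}
    (h : y' ∈ CC f n D y) : CC f n B y' ⊆ CC f n D y := by
  by_cases hB : f^[n] y' ∈ B
  · rw [← cc_eq h]
    exact cc_max (cc_pre n B y') (cc_mem hB) fun a ha => hBD (cc_sub ha)
  · unfold CC
    rw [connectedComponentIn_eq_empty (F := f^[n] ⁻¹' B) hB]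
    exact empty_subset _

theorem cc_map (hf : Continuous f) {n i : ℕ} (hi : i ≤ n) {D : Set (OnePoint ℂ)} {y x : OnePoint ℂ}
    (h : x ∈ CC f n D y) : f^[i] x ∈ CC f (n - i) D (f^[i] y) := by
  have hy : f^[n] y ∈ D := by
    by_contra hy
    unfold CC at h
    rw [connectedComponentIn_eq_empty (F := f^[n] ⁻¹' D) hy] at h
    exact h
  have h1 : IsPreconnected (f^[i] '' CC f n D y) :=
    (cc_pre n D y).image _ (hf.iterate i).continuousOn
  refine cc_max h1 (mem_image_of_mem _ (cc_mem hy)) ?_ (mem_image_of_mem _ h)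
  rintro _ ⟨a, ha, rfl⟩
  rw [← Function.iterate_add_apply, Nat.sub_add_cancel hi]
  exact cc_sub ha

theorem cc_cl (_hf : Continuous f) {n : ℕ} {D : Set (OnePoint ℂ)} {y x : OnePoint ℂ}
    (h : x ∈ closure (CC f n D y)) (hx : f^[n] x ∈ D) : x ∈ CC f n D y := by
  have hy : f^[n] y ∈ D := by
    by_contra hy
    unfold CC at h
    rw [connectedComponentIn_eq_empty (F := f^[n] ⁻¹' D) hy, closure_empty] at h
    exact h
  have h1 : IsPreconnected (insert x (CC f n D y)) :=
    (cc_pre n D y).subset_closure (subset_insert _ _)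
      (insert_subset h subset_closure)
  refine cc_max h1 (mem_insert_of_mem _ (cc_mem hy)) ?_ (mem_insert _ _)
  rintro a (rfl | ha)
  · exact hx
  · exact cc_sub ha

theorem cc_onto (hf : Continuous f) (ho : IsOpenMap f) {n : ℕ} {D : Set (OnePoint ℂ)} (hD : IsOpen D)
    (hDc : IsPreconnected D) {y : OnePoint ℂ} (hy : f^[n] y ∈ D) : f^[n] '' CC f n D y = D := by
  have hcn : Continuous f^[n] := hf.iterate n
  have h1 : IsOpen (f^[n] '' CC f n D y) :=
    Pool.Agent.H91.Fatou.open_iterate ho n _ (cc_open hf n hD y)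
  have h2 : f^[n] '' CC f n D y ⊆ D := by
    rintro _ ⟨a, ha, rfl⟩
    exact cc_sub ha
  have h3 : D ∩ closure (f^[n] '' CC f n D y) ⊆ f^[n] '' CC f n D y := by
    rintro q ⟨hq, hqc⟩
    have h4 : IsClosed (f^[n] '' closure (CC f n D y)) :=
      (isClosed_closure.isCompact.image hcn).isClosed
    have h5 : closure (f^[n] '' CC f n D y) ⊆ f^[n] '' closure (CC f n D y) :=
      closure_minimal (image_mono subset_closure) h4
    obtain ⟨x, hx, rfl⟩ := h5 hqc
    exact ⟨x, cc_cl hf hx hq, rfl⟩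
  apply Subset.antisymm h2
  have h6 : D ⊆ f^[n] '' CC f n D y ∪ (closure (f^[n] '' CC f n D y))ᶜ := by
    intro q hq
    by_cases hqc : q ∈ closure (f^[n] '' CC f n D y)
    · exact Or.inl (h3 ⟨hq, hqc⟩)
    · exact Or.inr hqc
  by_contra hcon
  rw [not_subset] at hcon
  obtain ⟨q, hq, hq'⟩ := hcon
  have h7 := hDc _ _ h1 isClosed_closure.isOpen_compl h6
    ⟨_, hy, mem_image_of_mem _ (cc_mem hy)⟩
    ⟨q, hq, fun hqc => hq' (h3 ⟨hq, hqc⟩)⟩
  obtain ⟨z, -, hz1, hz2⟩ := h7
  exact hz2 (subset_closure hz1)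

theorem cc_cpt (hf : Continuous f) {n : ℕ} {D C : Set (OnePoint ℂ)} (hC : IsCompact C) (hCD : C ⊆ D)
    (y : OnePoint ℂ) : IsCompact (CC f n D y ∩ f^[n] ⁻¹' C) := by
  have h1 : CC f n D y ∩ f^[n] ⁻¹' C = closure (CC f n D y) ∩ f^[n] ⁻¹' C := by
    apply Subset.antisymm (inter_subset_inter_left _ subset_closure)
    rintro x ⟨hx, hxC⟩
    exact ⟨cc_cl hf hx (hCD hxC), hxC⟩
  rw [h1]
  exact (isClosed_closure.inter (hC.isClosed.preimage (hf.iterate n))).isCompact

end Pool.Agent.H44.RC
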