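import Pool.Agent.H44.RC.CCO

/-!
# Module CCP: two points of an open connected set are in a compact connected subset

PROOF. For `p ∈ U` let `G = {q ∈ U | ∃ K ⊆ U, IsCompact K ∧ IsPreconnected K ∧ p ∈ K ∧ q ∈ K}`. For every `x ∈ U`, `x = io τ w` (`io_ex`), there is `r > 0` with `B = io τ '' closedBall w r ⊆ U` (`io_emb`: the preimage of `U` is open), a compact connected neighbourhood of `x` (the image of the closed ball is a neighbourhood: it contains `cb τ w r`). If one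
point of `B` is in `G` (set `K`), then every point of `B` is: `K ∪ B` (`IsPreconnected.union`). So `G` is open and `U \ G` is open; `p ∈ G` (`K = {p}`); `U` is preconnected, so `G = U`.
-/

set_option autoImplicit false

open Filter Topology Polynomial Metric Set

namespace Pool.Agent.H44.RC

open Pool.Agent.H44.Fatou Pool.Agent.H32.BT Pool.Agent.H35.EX Pool.Agent.H44.RR
open Pool.Agent.H56.HR

theorem joined_cpt {U : Set (OnePoint ℂ)} (hU : IsOpen U) (hc : IsPreconnected U) {p q : OnePoint ℂ}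
    (hp : p ∈ U) (hq : q ∈ U) :
    ∃ K ⊆ U, IsCompact K ∧ IsPreconnected K ∧ p ∈ K ∧ q ∈ K := by
  have hB : ∀ x ∈ U, ∃ B ∈ 𝓝 x, B ⊆ U ∧ IsCompact B ∧ IsPreconnected B := by
    intro x hx
    obtain ⟨τ, w, -, rfl⟩ := io_ex x
    have h1 : io τ ⁻¹' U ∈ 𝓝 w := (io_cont τ).continuousAt.preimage_mem_nhds (hU.mem_nhds hx)
    obtain ⟨r, hr, h2⟩ := Metric.nhds_basis_closedBall.mem_iff.1 h1
    refine ⟨io τ '' closedBall w r, (io_emb τ).isOpenMap.image_mem_nhds (closedBall_mem_nhds w hr),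
      image_subset_iff.2 h2, cbar_cpt τ w r,
      (convex_closedBall w r).isPreconnected.image _ (io_cont τ).continuousOn⟩
  set G : Set (OnePoint ℂ) := {q | q ∈ U ∧ ∃ K ⊆ U, IsCompact K ∧ IsPreconnected K ∧ p ∈ K ∧ q ∈ K}
    with hG
  have key : ∀ {B : Set (OnePoint ℂ)} {x y : OnePoint ℂ}, B ⊆ U → IsCompact B → IsPreconnected B →
      y ∈ B → y ∈ G → x ∈ B → x ∈ G := by
    rintro B x y h1 h2 h3 hy ⟨-, K, k1, k2, k3, k4, k5⟩ hx
    exact ⟨h1 hx, K ∪ B, union_subset k1 h1, k2.union h2, k3.union y k5 hy h3, Or.inl k4,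
      Or.inr hx⟩
  have h1 : IsOpen G := by
    rw [isOpen_iff_mem_nhds]
    intro x hx
    obtain ⟨B, b1, b2, b3, b4⟩ := hB x hx.1
    exact mem_of_superset b1 fun y hy => key b2 b3 b4 (mem_of_mem_nhds b1) hx hy
  have h2 : closure G ∩ U ⊆ G := by
    rintro x ⟨hx1, hx2⟩
    obtain ⟨B, b1, b2, b3, b4⟩ := hB x hx2
    obtain ⟨y, hy1, hy2⟩ := mem_closure_iff_nhds.1 hx1 B b1
    exact key b2 b3 b4 hy1 hy2 (mem_of_mem_nhds b1)
  have h3 : U ⊆ G := hc.subset_of_closure_inter_subset h1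
    ⟨p, hp, hp, {p}, singleton_subset_iff.2 hp, isCompact_singleton, isPreconnected_singleton,
      rfl, rfl⟩ h2
  obtain ⟨-, K, k1, k2, k3, k4, k5⟩ := h3 hq
  exact ⟨K, k1, k2, k3, k4, k5⟩

end Pool.Agent.H44.RC
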