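import Pool.Agent.H44.RC.HUL

/-!
# Module HUM: hulls and open maps

PROOF. `ch_unif`: `δ` with `chord x y < δ → chord (f x) (f y) < 1 / 16`; `ε = min (δ / 2) (1 / 4)`. `K = ∅`: `hull_empty`. Let `y0 ∈ K`, `x ∈ Hull K`; `chord y0 z ≤ ε` for all `z ∈ Hull K` (`hull_ball`), so `chord (f y0) (f z) < 1 / 16`. Suppose `f x ∉ Hull (f '' K)`: there is `e` with `1 / 2 ≤ chord y e` for `y ∈ f '' K` and
`f x ∈ W' = connectedComponentIn (f '' K)ᶜ e`. `W'` is open (`lcs`; `f '' K` is compact, closed) and preconnected. Let `W = CC f 1 W' x`; `f '' W = W'` (`cc_onto`). `W` is preconnected, contains `x`, and does not meet `K` (`f '' W = W'` does not meet `f '' K`), so `W ⊆ connectedComponentIn Kᶜ x ⊆ Hull K` (`hull_comp`).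
`e ∈ W'` (the component is not empty, so `e ∈ (f '' K)ᶜ`, `mem_connectedComponentIn`): `e = f z`, `z ∈ W ⊆ Hull K`, `chord (f y0) e < 1 / 16`, but `1 / 2 ≤ chord (f y0) e`: contradiction.
-/

set_option autoImplicit false

open Filter Topology Polynomial Metric Set

namespace Pool.Agent.H44.RC

open Pool.Agent.H44.Fatou Pool.Agent.H32.BT Pool.Agent.H35.EX Pool.Agent.H44.RR
open Pool.Agent.H56.HR

theorem hull_map {f : OnePoint ℂ → OnePoint ℂ} (hf : Continuous f) (ho : IsOpenMap f) :
    ∃ ε : ℝ, 0 < ε ∧ ∀ K : Set (OnePoint ℂ), IsCompact K → Sm ε K → f '' Hull K ⊆ Hull (f '' K) := by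
  obtain ⟨δ, hδ, hu⟩ := ch_unif hf (ε := 1 / 16) (by norm_num)
  refine ⟨min (δ / 2) (1 / 4), by positivity, ?_⟩
  rintro K hK hSm _ ⟨x, hx, rfl⟩
  rcases K.eq_empty_or_nonempty with hne | hne
  · rw [hne, hull_empty] at hx
    exact absurd hx (notMem_empty x)
  · obtain ⟨y0, hy0⟩ := hne
    have hb := hull_ball (min_le_right (δ / 2) (1 / 4)) (hSm y0 hy0)
    intro e he hxe
    have := lcs
    have hWo : IsOpen (connectedComponentIn (f '' K)ᶜ e) :=
      (hK.image hf).isClosed.isOpen_compl.connectedComponentIn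
    have hWp : IsPreconnected (connectedComponentIn (f '' K)ᶜ e) :=
      isPreconnected_connectedComponentIn
    have heW : e ∈ connectedComponentIn (f '' K)ᶜ e :=
      mem_connectedComponentIn (connectedComponentIn_nonempty_iff.1 ⟨_, hxe⟩)
    have hon := cc_onto hf ho (n := 1) hWo hWp (y := x) hxe
    have hsub : CC f 1 (connectedComponentIn (f '' K)ᶜ e) x ⊆ Hull K := by
      refine Subset.trans ?_ (hull_comp hx)
      refine (cc_pre 1 _ x).subset_connectedComponentIn (cc_mem hxe) ?_
      intro z hz hzK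
      have h1 : f^[1] z ∈ connectedComponentIn (f '' K)ᶜ e := cc_sub hz
      exact connectedComponentIn_subset _ _ h1 (mem_image_of_mem f hzK)
    rw [← hon] at heW
    obtain ⟨z, hz, hze⟩ := heW
    have h1 := hb z (hsub hz)
    have h2 : chord y0 z < δ := by
      have h3 := min_le_left (δ / 2) (1 / 4)
      linarith
    have h3 := hu y0 z h2
    have h4 := he (f y0) (mem_image_of_mem f hy0)
    have h5 : f z = e := hze
    rw [h5] at h3
    linarith

end Pool.Agent.H44.RC
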