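import Pool.Agent.H44.RC.ROOT

/-!
# Module INJS: injectivity on small connected sets

PROOFS. `near_inj`: otherwise there are `y_n ≠ y'_n`, `f y_n = f y'_n`, `chord y_n y'_n → 0`, and no critical point within `ρ` of `y_n`. `ch_seq`: a subsequence `y_n → x`, then `y'_n → x` (`ch_tri`, `ch_tend`). `x` is not critical (`chord x y_n → 0`), so `f` is injective on a neighbourhood of `x`: contradiction for large `n`.
`inj_small`: the critical points are finitely many (`crit_finite`, H32/BT/Crit); let `ρ1 ≤ ρ` be at most all the `ρ` of `root` for the critical points `c`; `η` from `near_inj (ρ1 / 2)`; `ε = min (η / 2) (ρ1 / 4)`. If `f` is not injective on `K`: `y ≠ y'` in `K`, `f y = f y'`, `chord y y' ≤ ε < η`; `c` critical with `chord c y < ρ1 / 2`; so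
`chord c z < ρ1` for all `z ∈ K`, and `root` gives `f c ∈ Hull (f '' K)`.
-/

set_option autoImplicit false

open Filter Topology Polynomial Metric Set

namespace Pool.Agent.H44.RC

open Pool.Agent.H44.Fatou Pool.Agent.H32.BT Pool.Agent.H35.EX Pool.Agent.H44.RR
open Pool.Agent.H56.HR

theorem near_inj {f : OnePoint ℂ → OnePoint ℂ} {ρ : ℝ} (hρ : 0 < ρ) :
    ∃ η : ℝ, 0 < η ∧ ∀ y y', y ≠ y' → f y = f y' → chord y y' < η →
      ∃ c, IsCrit f c ∧ chord c y < ρ := by
  have h1 : ∀ x : OnePoint ℂ, ∃ U ∈ 𝓝 x, InjOn f U ∨ (IsCrit f x ∧ ∀ y ∈ U, chord x y < ρ) := by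
    intro x
    by_cases hx : IsCrit f x
    · refine ⟨{y | chord x y < ρ}, (ch_ball x ρ).mem_nhds ?_, Or.inr ⟨hx, fun y hy => hy⟩⟩
      show chord x x < ρ
      rw [chord_zero]
      exact hρ
    · unfold IsCrit at hx
      rw [not_not] at hx
      obtain ⟨U, hU, hi⟩ := hx
      exact ⟨U, hU, Or.inl hi⟩
  choose U hU hU2 using h1
  obtain ⟨δ, hδ, hL⟩ := ch_leb hU
  refine ⟨δ, hδ, fun y y' hne hf hyy => ?_⟩
  obtain ⟨x, hx⟩ := hL y
  have hy : y ∈ U x := hx (by
    show chord y y < δ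
    rw [chord_zero]
    exact hδ)
  have hy' : y' ∈ U x := hx hyy
  rcases hU2 x with h | h
  · exact absurd (h hy hy' hf) hne
  · exact ⟨x, h.1, h.2 y hy⟩

theorem inj_small {P Q : Polynomial ℂ} (hcop : IsCoprime P Q)
    (hd : 1 ≤ max P.natDegree Q.natDegree) {ρ : ℝ} (hρ : 0 < ρ) :
    ∃ ε : ℝ, 0 < ε ∧ ∀ K : Set (OnePoint ℂ), IsCompact K → IsPreconnected K → Sm ε K →
      ¬ InjOn (rat P Q) K → ∃ c, IsCrit (rat P Q) c ∧ (∀ y ∈ K, chord c y < ρ) ∧
        rat P Q c ∈ Hull (rat P Q '' K) := by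
  choose r hr hroot using root hcop hd
  have hfin := crit_finite hcop hd
  have h1 : ∀ S : Set (OnePoint ℂ), S.Finite → ∃ t : ℝ, 0 < t ∧ ∀ c ∈ S, t ≤ r c := by
    intro S hS
    refine hS.induction_on _ ⟨1, one_pos, fun c hc => absurd hc (notMem_empty c)⟩ ?_
    rintro a S' - - ⟨t, ht, h⟩
    refine ⟨min t (r a), lt_min ht (hr a), fun c hc => ?_⟩
    rcases mem_insert_iff.1 hc with rfl | hc
    · exact min_le_right _ _
    · exact (min_le_left _ _).trans (h c hc)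
  obtain ⟨t, ht, hrt⟩ := h1 _ hfin
  obtain ⟨ρ1, hρ1⟩ : ∃ ρ1, ρ1 = min ρ t := ⟨_, rfl⟩
  have hρ10 : 0 < ρ1 := by
    rw [hρ1]
    exact lt_min hρ ht
  have hρ1ρ : ρ1 ≤ ρ := by
    rw [hρ1]
    exact min_le_left _ _
  have hρ1t : ρ1 ≤ t := by
    rw [hρ1]
    exact min_le_right _ _
  obtain ⟨η, hη, hnear⟩ := near_inj (f := rat P Q) (half_pos hρ10)
  refine ⟨min (η / 2) (ρ1 / 4), by positivity, fun K hK hKc hKs hinj => ?_⟩
  have h2 : ∃ y ∈ K, ∃ y' ∈ K, rat P Q y = rat P Q y' ∧ y ≠ y' := by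
    by_contra hcon
    push Not at hcon
    exact hinj fun y hy y' hy' h => hcon y hy y' hy' h
  obtain ⟨y, hy, y', hy', hyy, hne⟩ := h2
  have h3 : chord y y' < η := by
    have := (hKs y hy y' hy').trans (min_le_left _ _)
    linarith
  obtain ⟨c, hc, hcy⟩ := hnear y y' hne hyy h3
  have h4 : ∀ z ∈ K, chord c z < ρ1 := by
    intro z hz
    have h5 := ch_tri c y z
    have h6 := (hKs y hy z hz).trans (min_le_right _ _)
    linarith
  refine ⟨c, hc, fun z hz => (h4 z hz).trans_le hρ1ρ, ?_⟩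
  by_contra hH
  exact hinj (hroot c K hK hKc (fun z hz => (h4 z hz).trans_le (hρ1t.trans (hrt c hc))) hH)

end Pool.Agent.H44.RC
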