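import Pool.Agent.H44.RC.HUC
import Pool.Agent.H44.RC.HUM
import Pool.Agent.H44.RC.INJS
import Pool.Agent.H44.RC.CCP

/-!
# Module FULL: small components of preimages of discs contain the hulls of their compact connected subsets

`AllSm f m D y ε`: all components `V_i = CC f (m - i) D (f^[i] y)`, `i ≤ m`, have diameter at most `ε`. PROOFS. `full`: `ε` from `hull_map`, `ε ≤ 1 / 4`. Induction on `m - i`. `i = m`: `V_m = connectedComponentIn D _ ⊆ D` and `V_m = D` (`cb_conn`): `hull_disc`. `i < m`: `f '' K` is compact, preconnected, nonempty and contained in `V_(i+1)`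
(`cc_map` with one iterate: `f^[1]`, `m - i - 1 = m - (i + 1)`, `f (f^[i] y) = f^[i + 1] y`), so `f '' Hull K ⊆ Hull (f '' K) ⊆ V_(i+1)` (`hull_map`, `Sm ε K`). So `f^[m - i]` maps `Hull K` into `D` (`cc_sub`, `m - i = (m - (i + 1)) + 1`). `Hull K` is preconnected (`hull_conn`) and contains a point `k0` of `K ⊆ V_i`: `cc_max` for `k0` and `cc_eq`.
`noninj`: `ε` small for `full` and `inj_small` with `ρ / 2`, `ε ≤ ρ / 4`. `p ≠ q` in `V_i`, `f p = f q`; `K ⊆ V_i` compact connected, `p, q ∈ K` (`joined_cpt`, `cc_open`, `cc_pre`). `inj_small`: `c` critical with `chord c y < ρ / 2` on `K`, `f c ∈ Hull (f '' K)`, and `Hull (f '' K) ⊆ V_(i+1)` by `full`. For `z ∈ V_i`: `chord c z ≤ chord c p + ε < ρ`.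
-/

set_option autoImplicit false

open Filter Topology Polynomial Metric Set

namespace Pool.Agent.H44.RC

open Pool.Agent.H44.Fatou Pool.Agent.H32.BT Pool.Agent.H35.EX Pool.Agent.H44.RR
open Pool.Agent.H56.HR

/-- all the components along the orbit are small -/
def AllSm (f : OnePoint ℂ → OnePoint ℂ) (m : ℕ) (D : Set (OnePoint ℂ)) (y : OnePoint ℂ) (ε : ℝ) :
    Prop :=
  ∀ i ≤ m, Sm ε (CC f (m - i) D (f^[i] y))

theorem full {f : OnePoint ℂ → OnePoint ℂ} (hf : Continuous f) (ho : IsOpenMap f) :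
    ∃ ε : ℝ, 0 < ε ∧ ∀ (τ : Bool) (w : ℂ) (r : ℝ), 0 < r → r ≤ 1 / 4 → ∀ (m : ℕ) (y : OnePoint ℂ),
      AllSm f m (cb τ w r) y ε → ∀ i ≤ m, ∀ K ⊆ CC f (m - i) (cb τ w r) (f^[i] y), IsCompact K →
        IsPreconnected K → K.Nonempty → Hull K ⊆ CC f (m - i) (cb τ w r) (f^[i] y) := by
  obtain ⟨ε, hε, hmap⟩ := hull_map hf ho
  refine ⟨ε, hε, fun τ w r hr hr1 m y hall => ?_⟩
  have key : ∀ k : ℕ, ∀ i ≤ m, m - i = k → ∀ K ⊆ CC f (m - i) (cb τ w r) (f^[i] y), IsCompact K →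
      IsPreconnected K → K.Nonempty → Hull K ⊆ CC f (m - i) (cb τ w r) (f^[i] y) := by
    intro k
    induction k with
    | zero =>
      intro i _ hk K hK hKc _ hne
      rw [hk] at hK ⊢
      obtain ⟨k0, hk0⟩ := hne
      have h1 : K ⊆ cb τ w r := fun x hx => cc_sub (hK hx)
      have h2 : Hull K ⊆ cb τ w r := hull_disc hr hr1 hKc h1
      have h3 : cb τ w r ⊆ CC f 0 (cb τ w r) k0 :=
        cc_max (cb_conn τ w r) (h1 hk0) fun a ha => ha
      rw [cc_eq (hK hk0)] at h3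
      exact h2.trans h3
    | succ k ih =>
      intro i hi hk K hK hKc hKp hne
      obtain ⟨k0, hk0⟩ := hne
      have hi1 : i + 1 ≤ m := by omega
      have hmi : m - i - 1 = m - (i + 1) := by omega
      have hSm : Sm ε K := fun a ha b hb => hall i hi a (hK ha) b (hK hb)
      have h1 : f '' K ⊆ CC f (m - (i + 1)) (cb τ w r) (f^[i + 1] y) := by
        rintro _ ⟨a, ha, rfl⟩
        have h2 := cc_map hf (i := 1) (by omega : 1 ≤ m - i) (hK ha)
        rw [hmi] at h2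
        rw [Function.iterate_succ_apply' f i y]
        exact h2
      have h2 := ih (i + 1) hi1 (by omega) (f '' K) h1 (hKc.image hf)
        (hKp.image f hf.continuousOn) ⟨f k0, mem_image_of_mem f hk0⟩
      have h3 : ∀ a ∈ Hull K, f^[m - i] a ∈ cb τ w r := by
        intro a ha
        have h4 : f a ∈ CC f (m - (i + 1)) (cb τ w r) (f^[i + 1] y) :=
          h2 (hmap K hKc hSm (mem_image_of_mem f ha))
        have h5 := cc_sub h4
        rw [← Function.iterate_succ_apply] at h5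
        rwa [show (m - (i + 1)).succ = m - i by omega] at h5
      have h4 : IsPreconnected (Hull K) := hull_conn hKc.isClosed hKp ⟨k0, hk0⟩
      have h5 := cc_max (f := f) h4 (hull_sub K hk0) h3
      rwa [cc_eq (hK hk0)] at h5
  intro i hi
  exact key (m - i) i hi rfl

theorem noninj {P Q : Polynomial ℂ} (hcop : IsCoprime P Q)
    (hd : 1 ≤ max P.natDegree Q.natDegree) {ρ : ℝ} (hρ : 0 < ρ) :
    ∃ ε : ℝ, 0 < ε ∧ ∀ (τ : Bool) (w : ℂ) (r : ℝ), 0 < r → r ≤ 1 / 4 → ∀ (m : ℕ) (y : OnePoint ℂ),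
      AllSm (rat P Q) m (cb τ w r) y ε → ∀ i < m,
        ¬ InjOn (rat P Q) (CC (rat P Q) (m - i) (cb τ w r) ((rat P Q)^[i] y)) →
        ∃ c, IsCrit (rat P Q) c ∧
          (∀ z ∈ CC (rat P Q) (m - i) (cb τ w r) ((rat P Q)^[i] y), chord c z < ρ) ∧
          rat P Q c ∈ CC (rat P Q) (m - (i + 1)) (cb τ w r) ((rat P Q)^[i + 1] y) := by
  have hf : Continuous (rat P Q) := rat_continuous hcop
  have ho : IsOpenMap (rat P Q) := rat_open hcop hd
  obtain ⟨ε1, hε1, h1⟩ := full hf ho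
  obtain ⟨ε2, hε2, h2⟩ := inj_small hcop hd (half_pos hρ)
  refine ⟨min (min ε1 ε2) (ρ / 4), by positivity, fun τ w r hr hr1 m y hall i hi hinj => ?_⟩
  have hle1 : min (min ε1 ε2) (ρ / 4) ≤ ε1 := (min_le_left _ _).trans (min_le_left _ _)
  have hle2 : min (min ε1 ε2) (ρ / 4) ≤ ε2 := (min_le_left _ _).trans (min_le_right _ _)
  have hle3 : min (min ε1 ε2) (ρ / 4) ≤ ρ / 4 := min_le_right _ _
  have hmi : m - i - 1 = m - (i + 1) := by omega
  unfold InjOn at hinj
  push Not at hinj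
  obtain ⟨p, hp, q, hq, hpq, hne⟩ := hinj
  obtain ⟨K, hKV, hKc, hKp, hpK, hqK⟩ :=
    joined_cpt (cc_open hf (m - i) (cb_open τ w r) _) (cc_pre _ _ _) hp hq
  have hSm : Sm ε2 K := fun a ha b hb => (hall i hi.le a (hKV ha) b (hKV hb)).trans hle2
  obtain ⟨c, hc, hcK, hcH⟩ := h2 K hKc hKp hSm fun h => hne (h hpK hqK hpq)
  refine ⟨c, hc, fun z hz => ?_, ?_⟩
  · have h3 := hall i hi.le p hp z hz
    have h4 := hcK p hpK
    linarith [ch_tri c p z]
  · have h3 : rat P Q '' K ⊆ CC (rat P Q) (m - (i + 1)) (cb τ w r) ((rat P Q)^[i + 1] y) := by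
      rintro _ ⟨a, ha, rfl⟩
      have h4 := cc_map hf (i := 1) (by omega : 1 ≤ m - i) (hKV ha)
      rw [hmi] at h4
      rw [Function.iterate_succ_apply' (rat P Q) i y]
      exact h4
    exact h1 τ w r hr hr1 m y (fun j hj a ha b hb => (hall j hj a ha b hb).trans hle1) (i + 1) hi
      (rat P Q '' K) h3 (hKc.image hf) (hKp.image _ hf.continuousOn) ⟨_, mem_image_of_mem _ hpK⟩ hcH

end Pool.Agent.H44.RC
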