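import Pool.Agent.H44.RC.TWR
import Pool.Agent.H44.RC.FULL

/-!
# Module TOW: condition (R) gives few preimages and many univalent branches

PROOF. `crit_rho`: for a critical point `c` with `c ∉ Om f c`: a neighbourhood `U` of `c` with `f^[n] c ∈ U` for finitely many `n`, and `f^[n] c ≠ c` for `n ≥ 1` (a periodic point is in its `Om`), so `ρ_c ≤ chord c (f^[n + 1] c)` for all `n` (`ch_nhds`, `chord_pos`); minimum over the finitely many critical points (`crit_finite`).
`crit_eta`: `RL f L`: for `c` critical, `c ∈ Om f c`: `η_c`; minimum `H0`.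
`tower`: `ρ` from `crit_rho`, `ε` from `noninj (ρ / 2)`, `ε0 = min ε (ρ / 2)`. Let `D = cb τ w r`. `hc` of module TWR: if `c ∈ Om f c` then `f^[n + 1] c ∉ D` (otherwise `x ∈ L` with `chord (f^[n + 1] c) x < H0 ≤ η_c`); if not: `crit_rho`. `Tw f m D y ρ`: `noninj` gives it with `ρ / 2 ≤ ρ`. `tw_fib` with the fibre bound `hfib`. `tw_set`: `S`. `tw_bij` for `B = cb τ z t ⊆ D`
(`image_mono`; `cb_open`, `cb_conn`, `B ∩ S = ∅`); `Tw f m B y' (ρ / 2)` from `noninj` for the disc `B` (`t ≤ r ≤ 1 / 4` from `ball z t ⊆ ball w r`, in the plane: take `t ≤ 1 / 4` as an assumption), `AllSm f m B y' ε0`: `CC f (m - i) B (f^[i] y') ⊆ CC f (m - i) D (f^[i] y)` (`cc_mono`, `cc_map`).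
`rat_fib`: the fibre of `rat P Q` over `w` has at most `d` points: see `rat_fiber_finite` (H32/BT/Crit): the finite points of the fibre are roots of a nonzero polynomial of degree `≤ d`, and of degree `< d` if `∞` is in the fibre (`coeff_dg`, `rat_infty`).
-/

set_option autoImplicit false

open Filter Topology Polynomial Metric Set

namespace Pool.Agent.H44.RC

open Pool.Agent.H44.Fatou Pool.Agent.H32.BT Pool.Agent.H35.EX Pool.Agent.H44.RR
open Pool.Agent.H56.HR

private theorem min_seq {g : ℕ → ℝ} (hg : ∀ n, 0 < g n) {r : ℝ} (hr : 0 < r) (N : ℕ)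
    (h : ∀ n, N ≤ n → r ≤ g n) : ∃ ρ : ℝ, 0 < ρ ∧ ∀ n, ρ ≤ g n := by
  have key : ∀ M : ℕ, ∃ ρ : ℝ, 0 < ρ ∧ ∀ n < M, ρ ≤ g n := by
    intro M
    induction M with
    | zero => exact ⟨1, one_pos, fun n hn => absurd hn (Nat.not_lt_zero n)⟩
    | succ M ih =>
      obtain ⟨ρ, h1, h2⟩ := ih
      refine ⟨min ρ (g M), lt_min h1 (hg M), fun n hn => ?_⟩
      rcases Nat.lt_succ_iff_lt_or_eq.1 hn with h3 | h3
      · exact (min_le_left _ _).trans (h2 n h3)
      · rw [h3]
        exact min_le_right _ _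
  obtain ⟨ρ, h1, h2⟩ := key N
  refine ⟨min ρ r, lt_min h1 hr, fun n => ?_⟩
  rcases Nat.lt_or_ge n N with h3 | h3
  · exact (min_le_left _ _).trans (h2 n h3)
  · exact (min_le_right _ _).trans (h n h3)

private theorem min_fin {S : Set (OnePoint ℂ)} (hS : S.Finite) {p : OnePoint ℂ → ℝ → Prop}
    (hp : ∀ c a b, a ≤ b → p c b → p c a) (h : ∀ c ∈ S, ∃ ρ : ℝ, 0 < ρ ∧ p c ρ) :
    ∃ ρ : ℝ, 0 < ρ ∧ ∀ c ∈ S, p c ρ := by
  induction S, hS using Set.Finite.induction_on with
  | empty => exact ⟨1, one_pos, fun c hc => absurd hc (notMem_empty c)⟩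
  | @insert a s _ _ ih =>
    obtain ⟨ρ, h1, h2⟩ := ih fun c hc => h c (mem_insert_of_mem _ hc)
    obtain ⟨ρ', h3, h4⟩ := h a (mem_insert _ _)
    refine ⟨min ρ ρ', lt_min h1 h3, ?_⟩
    rintro c (rfl | hc)
    · exact hp _ _ _ (min_le_right _ _) h4
    · exact hp _ _ _ (min_le_left _ _) (h2 c hc)

theorem crit_rho {P Q : Polynomial ℂ} (hcop : IsCoprime P Q)
    (hd : 1 ≤ max P.natDegree Q.natDegree) :
    ∃ ρ : ℝ, 0 < ρ ∧ ∀ c, IsCrit (rat P Q) c → c ∉ Om (rat P Q) c → ∀ n : ℕ,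
      ρ ≤ chord c ((rat P Q)^[n + 1] c) := by
  obtain ⟨ρ, h1, h2⟩ := min_fin (crit_finite hcop hd)
    (p := fun c ρ => c ∉ Om (rat P Q) c → ∀ n : ℕ, ρ ≤ chord c ((rat P Q)^[n + 1] c))
    (fun c a b hab h h0 n => hab.trans (h h0 n)) (by
      intro c _
      by_cases h0 : c ∈ Om (rat P Q) c
      · exact ⟨1, one_pos, fun h => absurd h0 h⟩
      have h3 : ∃ U ∈ 𝓝 c, ¬ ∃ᶠ n : ℕ in atTop, (rat P Q)^[n] c ∈ U := by
        by_contra hcon
        push Not at hcon
        exact h0 hcon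
      obtain ⟨U, hU, h4⟩ := h3
      rw [not_frequently, eventually_atTop] at h4
      obtain ⟨N, hN⟩ := h4
      obtain ⟨r, hr, hrU⟩ := ch_nhds hU
      have hpos : ∀ n : ℕ, 0 < chord c ((rat P Q)^[n + 1] c) := by
        intro n
        refine chord_pos fun h5 => h0 fun V hV => ?_
        rw [frequently_atTop]
        intro M
        refine ⟨M * (n + 1), Nat.le_mul_of_pos_right M (Nat.succ_pos n), ?_⟩
        have h6 : (rat P Q)^[M * (n + 1)] c = c := by
          rw [mul_comm, Function.iterate_mul]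
          exact Function.iterate_fixed h5.symm M
        rw [h6]
        exact mem_of_mem_nhds hV
      obtain ⟨ρ, h5, h6⟩ := min_seq hpos hr N (fun n hn => by
        by_contra h7
        rw [not_le] at h7
        exact hN (n + 1) (by omega) (hrU h7))
      exact ⟨ρ, h5, fun _ => h6⟩)
  exact ⟨ρ, h1, fun c hc => h2 c hc⟩

theorem crit_eta {P Q : Polynomial ℂ} (hcop : IsCoprime P Q)
    (hd : 1 ≤ max P.natDegree Q.natDegree) {L : Set (OnePoint ℂ)} (hR : RL (rat P Q) L) :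
    ∃ H : ℝ, 0 < H ∧ ∀ c, IsCrit (rat P Q) c → c ∈ Om (rat P Q) c → ∀ n : ℕ, ∀ x ∈ L,
      H ≤ chord ((rat P Q)^[n + 1] c) x := by
  obtain ⟨ρ, h1, h2⟩ := min_fin (crit_finite hcop hd)
    (p := fun c ρ => c ∈ Om (rat P Q) c → ∀ n : ℕ, ∀ x ∈ L, ρ ≤ chord ((rat P Q)^[n + 1] c) x)
    (fun c a b hab h h0 n x hx => hab.trans (h h0 n x hx)) (by
      intro c hc
      by_cases h0 : c ∈ Om (rat P Q) c
      · obtain ⟨η, h3, h4⟩ := hR c hc h0
        exact ⟨η, h3, fun _ => h4⟩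
      · exact ⟨1, one_pos, fun h => absurd h h0⟩)
  exact ⟨ρ, h1, fun c hc => h2 c hc⟩

private theorem root_enc {R : Polynomial ℂ} (hR : R ≠ 0) :
    {x : ℂ | R.IsRoot x}.encard ≤ (R.natDegree : ℕ) := by
  classical
  have h1 : {x : ℂ | R.IsRoot x} = (R.roots.toFinset : Set ℂ) := by
    ext x
    simp only [Set.mem_ofPred_eq, Finset.mem_coe, Multiset.mem_toFinset, mem_roots hR]
  rw [h1, Set.encard_coe_eq_coe_finsetCard]
  exact_mod_cast (Multiset.toFinset_card_le _).trans (card_roots' R)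

theorem rat_fib {P Q : Polynomial ℂ} (hcop : IsCoprime P Q)
    (hd : 1 ≤ max P.natDegree Q.natDegree) (w : OnePoint ℂ) :
    (rat P Q ⁻¹' {w}).encard ≤ (max P.natDegree Q.natDegree : ℕ) := by
  have key : ∃ R : Polynomial ℂ, R ≠ 0 ∧ R.natDegree ≤ max P.natDegree Q.natDegree ∧
      (∀ z : ℂ, rat P Q z = w → R.IsRoot z) ∧
      (rat P Q OnePoint.infty = w → R.coeff (max P.natDegree Q.natDegree) = 0) := by
    induction w using OnePoint.rec with
    | infty =>
      refine ⟨Q, den_ne_zero hcop hd, le_max_right _ _, fun z hz => ?_, fun h => ?_⟩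
      · by_contra hq
        have hq' : Q.eval z ≠ 0 := hq
        rw [rat_coe] at hz
        unfold pt at hz
        rw [if_neg hq'] at hz
        exact OnePoint.coe_ne_infty _ hz
      · by_contra hq
        rw [rat_infty] at h
        unfold pt dg at h
        rw [if_neg hq] at h
        exact OnePoint.coe_ne_infty _ h
    | coe w =>
      refine ⟨P - C w * Q, ne_const hcop hd w, ?_, fun z hz => ?_, fun h => ?_⟩
      · exact (natDegree_sub_le _ _).trans
          (max_le_max le_rfl (natDegree_C_mul_le w Q))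
      · rw [rat_coe] at hz
        unfold pt at hz
        split_ifs at hz with hq
        · exact absurd hz (OnePoint.infty_ne_coe _)
        rw [OnePoint.coe_eq_coe, div_eq_iff hq] at hz
        show eval z (P - C w * Q) = 0
        rw [eval_sub, eval_mul, eval_C, hz, sub_self]
      · rw [rat_infty] at h
        unfold pt dg at h
        split_ifs at h with hq
        · exact absurd h (OnePoint.infty_ne_coe _)
        rw [OnePoint.coe_eq_coe, div_eq_iff hq] at h
        rw [coeff_sub, coeff_C_mul, h, sub_self]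
  obtain ⟨R, hR, hdeg, hRz, hRi⟩ := key
  have himg : (((↑) : ℂ → OnePoint ℂ) '' {x | R.IsRoot x}).encard ≤ (R.natDegree : ℕ) :=
    (Set.encard_image_le _ _).trans (root_enc hR)
  by_cases hi : rat P Q OnePoint.infty = w
  · have h1 : rat P Q ⁻¹' {w} ⊆
        insert OnePoint.infty (((↑) : ℂ → OnePoint ℂ) '' {x | R.IsRoot x}) := by
      intro y hy
      induction y using OnePoint.rec with
      | infty => exact mem_insert _ _
      | coe x => exact mem_insert_of_mem _ ⟨x, hRz x hy, rfl⟩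
    have h2 : R.natDegree + 1 ≤ max P.natDegree Q.natDegree := by
      rcases Nat.lt_or_ge R.natDegree (max P.natDegree Q.natDegree) with h3 | h3
      · exact h3
      · have h4 : R.natDegree = max P.natDegree Q.natDegree := le_antisymm hdeg h3
        have h5 := hRi hi
        rw [← h4] at h5
        exact absurd (leadingCoeff_eq_zero.1 h5) hR
    refine (Set.encard_le_encard h1).trans ((Set.encard_insert_le _ _).trans ?_)
    refine (add_le_add_left himg 1).trans ?_
    exact_mod_cast h2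
  · have h1 : rat P Q ⁻¹' {w} ⊆ ((↑) : ℂ → OnePoint ℂ) '' {x | R.IsRoot x} := by
      intro y hy
      induction y using OnePoint.rec with
      | infty => exact absurd hy hi
      | coe x => exact ⟨x, hRz x hy, rfl⟩
    refine (Set.encard_le_encard h1).trans (himg.trans ?_)
    exact_mod_cast hdeg

theorem tower {P Q : Polynomial ℂ} (hcop : IsCoprime P Q)
    (hd : 1 ≤ max P.natDegree Q.natDegree) {L : Set (OnePoint ℂ)} (hR : RL (rat P Q) L) :
    ∃ (s k : ℕ) (ε0 H0 : ℝ), 0 < ε0 ∧ 0 < H0 ∧ ∀ (τ : Bool) (w : ℂ) (r : ℝ), 0 < r → r ≤ 1 / 4 →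
      (∀ z ∈ cb τ w r, ∃ x ∈ L, chord z x < H0) → ∀ (m : ℕ) (y : OnePoint ℂ),
      AllSm (rat P Q) m (cb τ w r) y ε0 →
      (∀ u, (CC (rat P Q) m (cb τ w r) y ∩ (rat P Q)^[m] ⁻¹' {u}).encard ≤ k) ∧
      ∃ S : Finset (OnePoint ℂ), S.card ≤ s ∧ ∀ (z : ℂ) (t : ℝ), 0 < t → t ≤ 1 / 4 →
        ball z t ⊆ ball w r → (∀ ζ ∈ ball z t, io τ ζ ∉ S) →
        ∀ y' ∈ CC (rat P Q) m (cb τ w r) y, (rat P Q)^[m] y' ∈ cb τ z t →
          BijOn (rat P Q)^[m] (CC (rat P Q) m (cb τ z t) y') (cb τ z t) := by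
  have hf : Continuous (rat P Q) := rat_continuous hcop
  have ho : IsOpenMap (rat P Q) := rat_open hcop hd
  have hfin := crit_finite hcop hd
  obtain ⟨ρ, hρ, hρc⟩ := crit_rho hcop hd
  obtain ⟨H0, hH0, hH⟩ := crit_eta hcop hd hR
  obtain ⟨ε, hε, hnon⟩ := noninj hcop hd (half_pos hρ)
  refine ⟨{c | IsCrit (rat P Q) c}.ncard,
    (max P.natDegree Q.natDegree) ^ {c | IsCrit (rat P Q) c}.ncard, min ε (ρ / 2), H0,
    lt_min hε (half_pos hρ), hH0, ?_⟩
  intro τ w r hr hr1 hL m y hsm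
  have hc : ∀ c, IsCrit (rat P Q) c → (∀ n : ℕ, (rat P Q)^[n + 1] c ∉ cb τ w r) ∨
      ∀ n : ℕ, ρ ≤ chord c ((rat P Q)^[n + 1] c) := by
    intro c hc
    by_cases h0 : c ∈ Om (rat P Q) c
    · left
      intro n hn
      obtain ⟨x, hx, h1⟩ := hL _ hn
      exact absurd h1 (not_lt.2 (hH c hc h0 n x hx))
    · exact Or.inr (hρc c hc h0)
  have hsmε : AllSm (rat P Q) m (cb τ w r) y ε := fun i hi a ha b hb =>
    (hsm i hi a ha b hb).trans (min_le_left _ _)
  have hsmρ : AllSm (rat P Q) m (cb τ w r) y (ρ / 2) := fun i hi a ha b hb =>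
    (hsm i hi a ha b hb).trans (min_le_right _ _)
  have hTw : Tw (rat P Q) m (cb τ w r) y ρ := by
    intro i hi hni
    obtain ⟨c, h1, h2, h3⟩ := hnon τ w r hr hr1 m y hsmε i hi hni
    exact ⟨c, h1, fun z hz => (h2 z hz).trans (half_lt_self hρ), h3⟩
  refine ⟨fun u => ?_, ?_⟩
  · have h1 := tw_fib hf hc hfin hd (rat_fib hcop hd) hTw u
    push_cast
    exact_mod_cast h1
  · obtain ⟨S, hS1, hS2⟩ := tw_set (m := m) (y := y) hf hc hfin
    refine ⟨S, hS1, ?_⟩
    intro z t ht ht1 hzt hzS y' hy' hyB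
    have hBD : cb τ z t ⊆ cb τ w r := image_mono hzt
    refine tw_bij hf ho hS2 hsmρ (cb_open τ z t) (cb_conn τ z t) hBD ?_ hy' hyB ?_
    · rintro _ ⟨ζ, hζ, rfl⟩
      exact hzS ζ hζ
    · intro i hi hni
      refine hnon τ z t ht ht1 m y' (fun l hl a ha b hb => ?_) i hi hni
      have h1 : CC (rat P Q) (m - l) (cb τ z t) ((rat P Q)^[l] y') ⊆
          CC (rat P Q) (m - l) (cb τ w r) ((rat P Q)^[l] y) := cc_mono hBD (cc_map hf hl hy')
      exact hsmε l hl a (h1 ha) b (h1 hb)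

end Pool.Agent.H44.RC
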