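import Pool.Agent.H44.RC.BDC
import Pool.Agent.H44.RC.TOW

/-!
# Module CVS: the covering step

`Fam L H δ0 τ w r`: the discs of the family. `PN f L H δ0 ε n`: all components of `f^(-j)(D)`, `j ≤ n`, are small. PROOFS. `fam_half`: `‖a - w‖ < r`: `chord (io τ a) x + r ≤ ‖a - w‖ + chord (io τ w) x + r` (`ch_tri`, `chord_io_le`). `allsm_up`: `i ≥ 1`: `n + 1 - i ≤ n`: `PN` (`Sm` is monotone in `ε`). `i = 0`: `V = CC f (n + 1) D y` is preconnected,
`f '' V ⊆ CC f n D (f y)` (`cc_map` with `i = 1`), which is `Sm ε'`; `hpre`. `cover`: the number of points: let `N` be the net of `ball w r` (`net_op` with `η = 1 / 8`, passed as hypotheses `hN`). For `a ∈ N` and `u ∈ V` with `f^[m] u = io τ a` (at most `k` points by `hfib`) let `T a u` be the set of `hcv` for the disc `cb τ a (r / 2)` and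
`u`; `T` = the union, at most `n1 * (k * n0)` points. Let `x ∈ V`, `f^[m] x = io τ ζ`, `ζ ∈ ball w r`, `a ∈ N` with `‖ζ - a‖ < r / 8`. `C = ball w r ∩ ball a (r / 2)` is convex and open, contains `ζ` and `a`. `V2 = CC f m (io τ '' C) x`; `f^[m] '' V2 = io τ '' C` (`cc_onto`), so there is `u ∈ V2` with `f^[m] u = io τ a`; `V2 ⊆ V` and
`V2 ⊆ CC f m (cb τ a (r / 2)) x` (`cc_mono`), so `u ∈ V` and `x ∈ CC f m (cb τ a (r / 2)) u` (`cc_eq`); `f^[m] x ∈ io τ '' closedBall a (r / 4)`: a point `p ∈ T a u` with `chord p x ≤ ε3`.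
-/

set_option autoImplicit false

open Filter Topology Polynomial Metric Set

namespace Pool.Agent.H44.RC

open Pool.Agent.H44.Fatou Pool.Agent.H32.BT Pool.Agent.H35.EX Pool.Agent.H44.RR
open Pool.Agent.H56.HR

/-- the discs of the family -/
def Fam (L : Set (OnePoint ℂ)) (H δ0 : ℝ) (τ : Bool) (w : ℂ) (r : ℝ) : Prop :=
  0 < r ∧ r ≤ δ0 ∧ ‖w‖ + 2 * r ≤ 2 ∧ ∃ x ∈ L, chord (io τ w) x + 2 * r ≤ H

/-- the components of the preimages of order at most `n` are small -/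
def PN (f : OnePoint ℂ → OnePoint ℂ) (L : Set (OnePoint ℂ)) (H δ0 ε : ℝ) (n : ℕ) : Prop :=
  ∀ (τ : Bool) (w : ℂ) (r : ℝ), Fam L H δ0 τ w r → ∀ j ≤ n, ∀ y, Sm ε (CC f j (cb τ w r) y)

theorem fam_half {L : Set (OnePoint ℂ)} {H δ0 : ℝ} {τ : Bool} {w : ℂ} {r : ℝ}
    (h : Fam L H δ0 τ w r) {a : ℂ} (ha : ‖a - w‖ < r) : Fam L H δ0 τ a (r / 2) := by
  obtain ⟨h1, h2, h3, x, hx, h4⟩ := h
  refine ⟨by linarith, by linarith, ?_, x, hx, ?_⟩
  · have := norm_sub_norm_le a w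
    linarith
  · have h5 := ch_tri (io τ a) (io τ w) x
    have h6 := chord_io_le τ a w
    linarith

theorem allsm_up {f : OnePoint ℂ → OnePoint ℂ} (hf : Continuous f) {L : Set (OnePoint ℂ)}
    {H δ0 ε' ε0 : ℝ} (hle : ε' ≤ ε0)
    (hpre : ∀ A : Set (OnePoint ℂ), IsPreconnected A → Sm ε' (f '' A) → Sm ε0 A) {n : ℕ}
    (hP : PN f L H δ0 ε' n) {τ : Bool} {w : ℂ} {r : ℝ} (h : Fam L H δ0 τ w r) (y : OnePoint ℂ) :
    AllSm f (n + 1) (cb τ w r) y ε0 := by
  intro i hi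
  rcases Nat.eq_zero_or_pos i with h0 | h0
  · subst h0
    refine hpre _ (cc_pre _ _ _) ?_
    have h1 := hP τ w r h n le_rfl (f y)
    rintro _ ⟨a, ha, rfl⟩ _ ⟨b, hb, rfl⟩
    have h2 := cc_map hf (i := 1) (by omega) ha
    have h3 := cc_map hf (i := 1) (by omega) hb
    exact h1 _ h2 _ h3
  · intro a ha b hb
    exact (hP τ w r h (n + 1 - i) (by omega) _ a ha b hb).trans hle

theorem cover {f : OnePoint ℂ → OnePoint ℂ} (hf : Continuous f) (ho : IsOpenMap f) {m : ℕ}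
    {τ : Bool} {w : ℂ} {r : ℝ} (hr : 0 < r) {N : Finset ℂ} (hN : ∀ a ∈ N, ‖a - w‖ < r)
    (hN' : ∀ z ∈ ball w r, ∃ a ∈ N, ‖z - a‖ < 1 / 8 * r) {y : OnePoint ℂ} {k n0 : ℕ}
    (hfib : ∀ u, (CC f m (cb τ w r) y ∩ f^[m] ⁻¹' {u}).encard ≤ k) {ε3 : ℝ}
    (hcv : ∀ a : ℂ, ‖a - w‖ < r → ∀ u, ∃ T : Finset (OnePoint ℂ), T.card ≤ n0 ∧
      ∀ x ∈ CC f m (cb τ a (r / 2)) u, f^[m] x ∈ io τ '' closedBall a (r / 4) →
        ∃ p ∈ T, chord p x ≤ ε3) :
    ∃ T : Finset (OnePoint ℂ), T.card ≤ N.card * (k * n0) ∧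
      ∀ x ∈ CC f m (cb τ w r) y, ∃ p ∈ T, chord p x ≤ ε3 := by
  classical
  choose! T hT using hcv
  have hfin : ∀ u, (CC f m (cb τ w r) y ∩ f^[m] ⁻¹' {u}).Finite := fun u =>
    finite_of_encard_le_coe (hfib u)
  have hcard : ∀ u, (hfin u).toFinset.card ≤ k := by
    intro u
    have h1 := hfib u
    rw [(hfin u).encard_eq_coe_toFinset_card] at h1
    exact_mod_cast h1
  refine ⟨N.biUnion fun a => (hfin (io τ a)).toFinset.biUnion fun u => T a u, ?_, ?_⟩
  · refine Finset.card_biUnion_le_card_mul _ _ _ fun a ha => ?_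
    refine (Finset.card_biUnion_le_card_mul _ _ n0 fun u _ => (hT a (hN a ha) u).1).trans ?_
    exact Nat.mul_le_mul_right _ (hcard _)
  · intro x hx
    obtain ⟨ζ, hζ, hζx⟩ := cc_sub hx
    obtain ⟨a, ha, hζa⟩ := hN' ζ hζ
    obtain ⟨C, hC⟩ : ∃ C : Set ℂ, C = ball w r ∩ ball a (r / 2) := ⟨_, rfl⟩
    have hCo : IsOpen C := by rw [hC]; exact isOpen_ball.inter isOpen_ball
    have hCc : IsPreconnected C := by
      rw [hC]
      exact ((convex_ball w r).inter (convex_ball a (r / 2))).isPreconnected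
    have hDo : IsOpen (io τ '' C) := (io_emb τ).isOpenMap _ hCo
    have hDc : IsPreconnected (io τ '' C) := hCc.image _ (io_cont τ).continuousOn
    have hζC : ζ ∈ C := by
      rw [hC]
      refine ⟨hζ, ?_⟩
      rw [mem_ball, dist_eq_norm]
      linarith
    have haC : a ∈ C := by
      rw [hC]
      refine ⟨?_, mem_ball_self (by positivity)⟩
      rw [mem_ball, dist_eq_norm]
      exact hN a ha
    have hxD : f^[m] x ∈ io τ '' C := by
      rw [← hζx]
      exact mem_image_of_mem _ hζC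
    have h1 := cc_onto hf ho hDo hDc hxD
    have h2 : io τ a ∈ f^[m] '' CC f m (io τ '' C) x := by
      rw [h1]
      exact mem_image_of_mem _ haC
    obtain ⟨u, hu, hua⟩ := h2
    have hCw : io τ '' C ⊆ cb τ w r := by
      rw [hC]
      exact image_mono inter_subset_left
    have hCa : io τ '' C ⊆ cb τ a (r / 2) := by
      rw [hC]
      exact image_mono inter_subset_right
    have huV : u ∈ CC f m (cb τ w r) y := cc_mono hCw hx hu
    have huA : u ∈ CC f m (cb τ a (r / 2)) x := cc_mono hCa (cc_mem (hCa hxD)) hu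
    have hxA : x ∈ CC f m (cb τ a (r / 2)) u := by
      rw [cc_eq huA]
      exact cc_mem (hCa hxD)
    have hxc : f^[m] x ∈ io τ '' closedBall a (r / 4) := by
      rw [← hζx]
      refine mem_image_of_mem _ ?_
      rw [mem_closedBall, dist_eq_norm]
      linarith
    obtain ⟨p, hp, hpx⟩ := (hT a (hN a ha) u).2 x hxA hxc
    refine ⟨p, ?_, hpx⟩
    rw [Finset.mem_biUnion]
    refine ⟨a, ha, ?_⟩
    rw [Finset.mem_biUnion]
    refine ⟨u, ?_, hp⟩
    rw [Finite.mem_toFinset]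
    exact ⟨huV, hua⟩

end Pool.Agent.H44.RC
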