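import Pool.Agent.H44.RC.CVS

/-!
# Module MANE: Mañé's theorem

PROOFS. `step`: `s, k, ε0, H0` from `tower`; `ε0' = min ε0 (1 / 16)`; `ε1` from `pre_small ε0'` (fibres: `rat_fib` or `rat_fiber_finite`); `ε' = min ε1 (min ε0' (min ε 1))`; `n0` from `bdc s k`; `n1` from `net_op (1 / 8)`; `M = n1 * (k * n0) + 1`; `ε3 = ε' / (2 M)` (`≤ 1`); `ε2` from `bdc`; `H1` from `small_br ε2`; `H = min H0 (min H1 (1 / 4))`;
`δ0 = min (ε' / 2) (1 / 8)`. `PN 0`: `CC f 0 D y ⊆ D` (`cc_sub`), `cb_sm`, `2 r ≤ ε'`. `PN n → PN (n + 1)`: for `j ≤ n` nothing to do; `j = n + 1 = m`, `D = cb τ w r` in the family with `x0 ∈ L`, `chord (io τ w) x0 + 2 r ≤ H`. (So `2 r ≤ H`, `r ≤ 1 / 8`; `chord ≥ 0`: `chord_nn`.) `allsm_up` for `D` and for all `D_a = cb τ a (r / 2)`, `‖a - w‖ < r`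
(`fam_half`). `tower` for `D` gives `hfib` (points of `D` are within `r + chord (io τ w) x0 < H ≤ H0` of `x0`). `hcv` of `cover`: `tower` for `D_a` and `u` gives the hypotheses of `bdc` with `R = r / 4` (`2 * (r / 4) = r / 2`; rewrite); `Sm (1 / 16)` from `allsm_up` (`i = 0`); `SmB f m τ a (r / 2) ε2` from `small_br`: `ball z t ⊆ ball a (r / 2)` gives
`‖z - a‖ + t ≤ r / 2` (or weaker: `‖z - a‖ < r / 2`, `t ≤ r / 2 ≤ H` by the diameters of the balls), `chord (io τ z) x0 ≤ ‖z - a‖ + ‖a - w‖ + chord (io τ w) x0 ≤ H`. `cover` with `N` from `net_op`: `T.card ≤ n1 * (k * n0)`; `chain_small`: `Sm (2 ε3 T.card) V` and `2 ε3 M = ε'`.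
`mane`: `step` and induction: `PN f L H δ0 ε' n` for all `n`. `r = min δ0 (min (H / 2) (1 / 2))`, `δ = r / 8`. For `w ∈ L`: `w = io τ w'`, `‖w'‖ ≤ 1` (`io_ex`), `Fam L H δ0 τ w' r` (`x = w`, `chord_zero`). `f^[n] '' A ⊆ cb τ w' r` (`cb_ball`), so for `a ∈ A`: `A ⊆ CC f n (cb τ w' r) a` (`cc_max`), which is `Sm ε'`.
-/

set_option autoImplicit false

open Filter Topology Polynomial Metric Set

namespace Pool.Agent.H44.RC

open Pool.Agent.H44.Fatou Pool.Agent.H32.BT Pool.Agent.H35.EX Pool.Agent.H44.RR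
open Pool.Agent.H56.HR

private theorem sm_mono {ε ε' : ℝ} (h : ε ≤ ε') {A : Set (OnePoint ℂ)} (hA : Sm ε A) : Sm ε' A :=
  fun x hx y hy => (hA x hx y hy).trans h

/-- the radius of a disc in a disc -/
private theorem rad_le {z a : ℂ} {t R : ℝ} (ht : 0 < t) (h : ball z t ⊆ ball a R) : t ≤ R := by
  by_contra hlt
  push Not at hlt
  have hR : 0 < R := by
    have h1 := h (mem_ball_self ht)
    rw [mem_ball] at h1
    exact dist_nonneg.trans_lt h1
  have hn : ‖(((R + t) / 2 : ℝ) : ℂ)‖ = (R + t) / 2 := by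
    rw [Complex.norm_real, Real.norm_eq_abs, abs_of_pos (by linarith)]
  have h1 : z + (((R + t) / 2 : ℝ) : ℂ) ∈ ball a R := by
    apply h
    rw [mem_ball, dist_eq_norm, add_sub_cancel_left, hn]
    linarith
  have h2 : z - (((R + t) / 2 : ℝ) : ℂ) ∈ ball a R := by
    apply h
    rw [mem_ball, dist_eq_norm, sub_sub_cancel_left, norm_neg, hn]
    linarith
  rw [mem_ball, dist_eq_norm] at h1 h2
  have h3 : ‖(z + (((R + t) / 2 : ℝ) : ℂ) - a) - (z - (((R + t) / 2 : ℝ) : ℂ) - a)‖ ≤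
      ‖z + (((R + t) / 2 : ℝ) : ℂ) - a‖ + ‖z - (((R + t) / 2 : ℝ) : ℂ) - a‖ := norm_sub_le _ _
  have h4 : (z + (((R + t) / 2 : ℝ) : ℂ) - a) - (z - (((R + t) / 2 : ℝ) : ℂ) - a) =
      2 * (((R + t) / 2 : ℝ) : ℂ) := by ring
  rw [h4, norm_mul, hn, Complex.norm_ofNat] at h3
  linarith

theorem step {P Q : Polynomial ℂ} (hcop : IsCoprime P Q) (hd : 1 ≤ max P.natDegree Q.natDegree)
    {L : Set (OnePoint ℂ)} (hR : RL (rat P Q) L) (hL : L ⊆ JS (rat P Q)) (hJ6 : J6 (rat P Q))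
    (hF : FJ (rat P Q)) {ε : ℝ} (hε : 0 < ε) :
    ∃ ε' H δ0 : ℝ, 0 < ε' ∧ ε' ≤ ε ∧ 0 < H ∧ 0 < δ0 ∧ PN (rat P Q) L H δ0 ε' 0 ∧
      ∀ n, PN (rat P Q) L H δ0 ε' n → PN (rat P Q) L H δ0 ε' (n + 1) := by
  have hf : Continuous (rat P Q) := rat_continuous hcop
  have ho : IsOpenMap (rat P Q) := rat_open hcop hd
  obtain ⟨s, k, ε0, H0, hε0, hH0, htow⟩ := tower hcop hd hR
  obtain ⟨ε1, hε1, hpre⟩ := pre_small hf (rat_fiber_finite hcop hd)
    (show 0 < min ε0 (1 / 16) from lt_min hε0 (by norm_num))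
  obtain ⟨n0, hn0⟩ := bdc s k
  obtain ⟨n1, hn1⟩ := net_op (show (0 : ℝ) < 1 / 8 by norm_num)
  obtain ⟨ε', hε'⟩ : ∃ ε' : ℝ, ε' = min ε1 (min (min ε0 (1 / 16)) (min ε 1)) := ⟨_, rfl⟩
  have hε'0 : 0 < ε' := by
    rw [hε']
    exact lt_min hε1 (lt_min (lt_min hε0 (by norm_num)) (lt_min hε one_pos))
  have hε'1 : ε' ≤ ε1 := by rw [hε']; exact min_le_left _ _
  have hε'2 : ε' ≤ min ε0 (1 / 16) := by
    rw [hε']
    exact (min_le_right _ _).trans (min_le_left _ _)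
  have hε'3 : ε' ≤ ε := by
    rw [hε']
    exact (min_le_right _ _).trans ((min_le_right _ _).trans (min_le_left _ _))
  have hε'4 : ε' ≤ 1 := by
    rw [hε']
    exact (min_le_right _ _).trans ((min_le_right _ _).trans (min_le_right _ _))
  obtain ⟨M, hM⟩ : ∃ M : ℕ, M = n1 * (k * n0) + 1 := ⟨_, rfl⟩
  have hM1 : (1 : ℝ) ≤ M := by
    rw [hM]
    push_cast
    have : (0 : ℝ) ≤ (n1 : ℝ) * (k * n0) := by positivity
    linarith
  obtain ⟨ε3, hε3⟩ : ∃ ε3 : ℝ, ε3 = ε' / (2 * M) := ⟨_, rfl⟩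
  have hε30 : 0 < ε3 := by rw [hε3]; positivity
  have hε31 : ε3 ≤ 1 := by
    rw [hε3, div_le_one (by positivity)]
    linarith
  obtain ⟨ε2, hε2, hbdc⟩ := hn0 ε3 hε30 hε31
  obtain ⟨H1, hH1, hsmb⟩ := small_br hJ6 hF hL hε2
  obtain ⟨H, hH⟩ : ∃ H : ℝ, H = min H0 (min H1 (1 / 4)) := ⟨_, rfl⟩
  have hHpos : 0 < H := by rw [hH]; exact lt_min hH0 (lt_min hH1 (by norm_num))
  have hHH0 : H ≤ H0 := by rw [hH]; exact min_le_left _ _
  have hHH1 : H ≤ H1 := by rw [hH]; exact (min_le_right _ _).trans (min_le_left _ _)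
  obtain ⟨δ0, hδ0⟩ : ∃ δ0 : ℝ, δ0 = min (ε' / 2) (1 / 8) := ⟨_, rfl⟩
  have hδ0p : 0 < δ0 := by rw [hδ0]; exact lt_min (by linarith) (by norm_num)
  have hδ01 : δ0 ≤ ε' / 2 := by rw [hδ0]; exact min_le_left _ _
  have hδ02 : δ0 ≤ 1 / 8 := by rw [hδ0]; exact min_le_right _ _
  refine ⟨ε', H, δ0, hε'0, hε'3, hHpos, hδ0p, ?_, ?_⟩
  · intro τ w r hFam j hj y
    obtain ⟨hr0, hr1, -, -⟩ := hFam
    have hj0 : j = 0 := by omega
    subst hj0
    intro x hx z hz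
    have h1 := cb_sm τ w r _ (cc_sub hx) _ (cc_sub hz)
    simp only [Function.iterate_zero, id_eq] at h1
    linarith
  · intro n hP τ w r hFam j hj y
    rcases Nat.lt_or_ge n j with hjn | hjn
    swap
    · exact hP τ w r hFam j hjn y
    have hj1 : j = n + 1 := by omega
    subst hj1
    have hpre' : ∀ A : Set (OnePoint ℂ), IsPreconnected A → Sm ε' (rat P Q '' A) →
        Sm (min ε0 (1 / 16)) A := fun A hA hs => hpre A hA (sm_mono hε'1 hs)
    have hall : ∀ {τ : Bool} {w : ℂ} {r : ℝ}, Fam L H δ0 τ w r → ∀ y,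
        AllSm (rat P Q) (n + 1) (cb τ w r) y (min ε0 (1 / 16)) :=
      fun h y => allsm_up hf hε'2 hpre' hP h y
    have hnear : ∀ {τ : Bool} {w : ℂ} {r : ℝ}, Fam L H δ0 τ w r →
        ∀ z ∈ cb τ w r, ∃ x ∈ L, chord z x < H0 := by
      rintro τ w r ⟨hr0, -, -, x, hxL, hx⟩ z ⟨ζ, hζ, rfl⟩
      refine ⟨x, hxL, ?_⟩
      have h1 := ch_tri (io τ ζ) (io τ w) x
      have h2 := chord_io_le τ ζ w
      rw [mem_ball, dist_eq_norm] at hζ
      linarith
    have htw : ∀ {τ : Bool} {w : ℂ} {r : ℝ}, Fam L H δ0 τ w r → ∀ y,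
        (∀ u, (CC (rat P Q) (n + 1) (cb τ w r) y ∩ (rat P Q)^[n + 1] ⁻¹' {u}).encard ≤ k) ∧
        ∃ S : Finset (OnePoint ℂ), S.card ≤ s ∧ ∀ (z : ℂ) (t : ℝ), 0 < t → t ≤ 1 / 4 →
          ball z t ⊆ ball w r → (∀ ζ ∈ ball z t, io τ ζ ∉ S) →
          ∀ y' ∈ CC (rat P Q) (n + 1) (cb τ w r) y, (rat P Q)^[n + 1] y' ∈ cb τ z t →
            BijOn (rat P Q)^[n + 1] (CC (rat P Q) (n + 1) (cb τ z t) y') (cb τ z t) := by
      intro τ w r hFam y
      refine htow τ w r hFam.1 ?_ (hnear hFam) (n + 1) y ?_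
      · have := hFam.2.1
        linarith
      · intro i hi
        exact sm_mono (min_le_left _ _) (hall hFam y i hi)
    obtain ⟨N, hNc, hN, hN'⟩ := hn1 w r hFam.1
    have hcv : ∀ a : ℂ, ‖a - w‖ < r → ∀ u, ∃ T : Finset (OnePoint ℂ), T.card ≤ n0 ∧
        ∀ x ∈ CC (rat P Q) (n + 1) (cb τ a (r / 2)) u,
          (rat P Q)^[n + 1] x ∈ io τ '' closedBall a (r / 4) → ∃ p ∈ T, chord p x ≤ ε3 := by
      intro a ha u
      have hFa := fam_half hFam ha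
      obtain ⟨h1, S, hS, h2⟩ := htw hFa u
      have er : r / 2 = 2 * (r / 4) := by ring
      have hr0 := hFam.1
      have hr1 := hFam.2.1
      rw [er] at h1 h2 ⊢
      refine hbdc hcop hd τ a (r / 4) (by linarith) (by linarith) (n + 1) u ?_ h1 S hS h2 ?_
      · have h3 := hall hFa u 0 (Nat.zero_le _)
        rw [er] at h3
        exact sm_mono (min_le_right _ _) h3
      · intro τ' z t g ht hball hgd hgi hg ζ hζ
        obtain ⟨-, -, -, x, hxL, hx⟩ := hFam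
        have hz := hball (mem_ball_self ht)
        rw [mem_ball, dist_eq_norm] at hz
        have ht2 := rad_le ht hball
        have hcn := chord_nn (io τ w) x
        have h4 := ch_tri (io τ z) (io τ w) x
        have h5 := chord_io_le τ z w
        have h6 : ‖z - w‖ ≤ ‖z - a‖ + ‖a - w‖ := norm_sub_le_norm_sub_add_norm_sub _ _ _
        refine hsmb (n + 1) τ τ' z t g ht (by linarith) ⟨x, hxL, by linarith⟩ hgd hgi hg ζ hζ
    obtain ⟨T, hTc, hT⟩ := cover hf ho hFam.1 hN hN' (htw hFam y).1 hcv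
    have hch := chain_small (cc_pre (n + 1) (cb τ w r) y) hε30.le hT
    refine sm_mono ?_ hch
    have hTM : (T.card : ℝ) ≤ M := by
      have h1 : T.card ≤ M := by
        rw [hM]
        refine hTc.trans ((Nat.mul_le_mul_right _ hNc).trans (Nat.le_succ _))
      exact_mod_cast h1
    have h2 : 2 * ε3 * M = ε' := by
      rw [hε3]
      field_simp
    have h3 : 2 * ε3 * T.card ≤ 2 * ε3 * M := mul_le_mul_of_nonneg_left hTM (by linarith)
    linarith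

theorem mane {P Q : Polynomial ℂ} (hcop : IsCoprime P Q) (hd : 1 ≤ max P.natDegree Q.natDegree)
    {L : Set (OnePoint ℂ)} (hR : RL (rat P Q) L) (hL : L ⊆ JS (rat P Q)) (hJ6 : J6 (rat P Q))
    (hF : FJ (rat P Q)) :
    ∀ ε : ℝ, 0 < ε → ∃ δ : ℝ, 0 < δ ∧ ∀ w ∈ L, ∀ (n : ℕ) (A : Set (OnePoint ℂ)),
      IsPreconnected A → (∀ a ∈ A, chord w ((rat P Q)^[n] a) < δ) → Sm ε A := by
  intro ε hε
  obtain ⟨ε', H, δ0, hε'0, hε', hH, hδ0, hP0, hstep⟩ := step hcop hd hR hL hJ6 hF hε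
  have hP : ∀ n, PN (rat P Q) L H δ0 ε' n := by
    intro n
    induction n with
    | zero => exact hP0
    | succ n ih => exact hstep n ih
  obtain ⟨r, hr⟩ : ∃ r : ℝ, r = min δ0 (min (H / 2) (1 / 2)) := ⟨_, rfl⟩
  have hr0 : 0 < r := by rw [hr]; exact lt_min hδ0 (lt_min (by linarith) (by norm_num))
  have hr1 : r ≤ δ0 := by rw [hr]; exact min_le_left _ _
  have hr2 : r ≤ H / 2 := by rw [hr]; exact (min_le_right _ _).trans (min_le_left _ _)
  have hr3 : r ≤ 1 / 2 := by rw [hr]; exact (min_le_right _ _).trans (min_le_right _ _)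
  refine ⟨r / 8, by linarith, ?_⟩
  intro w hw n A hA hAd x hx y hy
  obtain ⟨τ, w', hw', rfl⟩ := io_ex w
  have hFam : Fam L H δ0 τ w' r := by
    refine ⟨hr0, hr1, by linarith, io τ w', hw, ?_⟩
    rw [chord_zero]
    linarith
  have h1 : A ⊆ CC (rat P Q) n (cb τ w' r) x := by
    refine cc_max hA hx fun a ha => ?_
    exact cb_ball (by linarith) hr0 (by linarith) (hAd a ha)
  exact (hP n τ w' r hFam n le_rfl x x (h1 hx) y (h1 hy)).trans hε'

end Pool.Agent.H44.RC
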