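import Pool.Agent.H56.HR.SDF

/-!
# THEOREM RC: definitions

`JS f`: the Julia set. `NW f`: every component of the Fatou set is preperiodic (Sullivan's theorem). `Om f x`: the limit set of the orbit.
`FJ f`: the orbits of the points of a compact subset of the Fatou set stay away from the Julia set.
`Hull K`: for small compact sets `K`: the complement of the component of the complement of `K` which contains the points far from `K`.
`CC f n D y`: the component of `f^(-n)(D)` which contains `y`. `cb τ w r`: a disc in the chart `z` (`τ = true`) or `1 / z` (`τ = false`).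
-/

set_option autoImplicit false

open Filter Topology Polynomial Metric Set

namespace Pool.Agent.H44.RC

open Pool.Agent.H44.Fatou Pool.Agent.H32.BT Pool.Agent.H79.Eul Pool.Agent.H79.Par
open Pool.Agent.H35.EX Pool.Agent.H44.RR Pool.Agent.H56.HR

/-- the Julia set -/
def JS (f : OnePoint ℂ → OnePoint ℂ) : Set (OnePoint ℂ) := (FS f)ᶜ

/-- every component of the Fatou set is preperiodic (no wandering domains) -/
def NW (f : OnePoint ℂ → OnePoint ℂ) : Prop :=
  ∀ x ∈ FS f, ∃ m n : ℕ, m < n ∧ f^[n] x ∈ connectedComponentIn (FS f) (f^[m] x)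

/-- the limit set of the orbit of `x` -/
def Om (f : OnePoint ℂ → OnePoint ℂ) (x : OnePoint ℂ) : Set (OnePoint ℂ) :=
  {y | ∀ U ∈ 𝓝 y, ∃ᶠ n : ℕ in atTop, f^[n] x ∈ U}

/-- the orbits of the points of a compact subset of the Fatou set stay away from the Julia set -/
def FJ (f : OnePoint ℂ → OnePoint ℂ) : Prop :=
  ∀ Y ⊆ FS f, IsCompact Y → ∃ η : ℝ, 0 < η ∧ ∀ y ∈ Y, ∀ n : ℕ, ∀ x ∈ JS f, η ≤ chord (f^[n] y) x

/-- the hull of a small compact set -/
def Hull (K : Set (OnePoint ℂ)) : Set (OnePoint ℂ) :=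
  {x | ∀ e, (∀ y ∈ K, 1 / 2 ≤ chord y e) → x ∉ connectedComponentIn Kᶜ e}

/-- the component of `f^(-n)(D)` which contains `y` -/
def CC (f : OnePoint ℂ → OnePoint ℂ) (n : ℕ) (D : Set (OnePoint ℂ)) (y : OnePoint ℂ) :
    Set (OnePoint ℂ) :=
  connectedComponentIn (f^[n] ⁻¹' D) y

/-- the charts `z` and `1 / z` (their inverses) -/
noncomputable def io (τ : Bool) (z : ℂ) : OnePoint ℂ := if τ then (z : OnePoint ℂ) else recip z

/-- discs in the charts -/
def cb (τ : Bool) (w : ℂ) (r : ℝ) : Set (OnePoint ℂ) := io τ '' ball w r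

/-- the diameter is at most `ε` -/
def Sm (ε : ℝ) (A : Set (OnePoint ℂ)) : Prop := ∀ x ∈ A, ∀ y ∈ A, chord x y ≤ ε

/-- condition (R): the recurrent critical points stay away from `L` -/
def RL (f : OnePoint ℂ → OnePoint ℂ) (L : Set (OnePoint ℂ)) : Prop :=
  ∀ c, IsCrit f c → c ∈ Om f c → ∃ η : ℝ, 0 < η ∧ ∀ n : ℕ, ∀ x ∈ L, η ≤ chord (f^[n + 1] c) x

end Pool.Agent.H44.RC
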