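import Pool.Agent.H44.RC.IOC

/-!
# Module NET: nets, chains, preimages of small connected sets

PROOFS. `net_cl`, `net_op`: a finite net of `closedBall 0 (3 / 2)` (`ball 0 1`) with centers in the set (`finite_approx_of_totallyBounded`, or `Metric.totallyBounded_iff` and `exists_finite`-lemmas), scaled: `w + R * a`. `chain_small`: fix `x, y ∈ A`; `g a = chord x a` is continuous, `g '' A` is preconnected and contains `0` and `ℓ = chord x y`, so it
contains `Icc 0 ℓ`. `Icc 0 ℓ ⊆ ⋃ p ∈ P, Icc (chord x p - ε) (chord x p + ε)` (`ch_tri`); compare the measures: `ℓ ≤ 2 ε P.card`. `pre_small`: for every `q` the fibre `f ⁻¹' {q}` is finite; choose disjoint open sets (chordal balls of radius `≤ ε / 2`) about its points; the complement of their union is compact, its image is closed and does not contain `q`: so there is a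
neighbourhood `U q` of `q` such that `f ⁻¹' (U q)` is contained in the union. `ch_leb`: `δ`; `ε' = δ / 2`: if `A` is nonempty and `Sm ε' (f '' A)` then `f '' A ⊆ {z | chord (f a) z < δ} ⊆ U q` for some `q`, so `A` is contained in a finite union of disjoint open sets of diameter at most `ε`; `A` is preconnected, so it is in one of them.
-/

set_option autoImplicit false

open Filter Topology Polynomial Metric Set

namespace Pool.Agent.H44.RC

open Pool.Agent.H44.Fatou Pool.Agent.H32.BT Pool.Agent.H35.EX Pool.Agent.H44.RR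
open Pool.Agent.H56.HR

theorem net_cl {η : ℝ} (hη : 0 < η) : ∃ n0 : ℕ, ∀ (w : ℂ) (R : ℝ), 0 < R → ∃ N : Finset ℂ,
    N.card ≤ n0 ∧ (∀ a ∈ N, ‖a - w‖ ≤ 3 / 2 * R) ∧
      ∀ z ∈ closedBall w (3 / 2 * R), ∃ a ∈ N, ‖z - a‖ ≤ η * R := by
  classical
  obtain ⟨t, ht, hfin, hcov⟩ := Metric.finite_approx_of_totallyBounded
    (isCompact_closedBall (0 : ℂ) (3 / 2)).totallyBounded η hη
  refine ⟨hfin.toFinset.card, fun w R hR => ⟨hfin.toFinset.image fun a => w + (R : ℂ) * a,
    Finset.card_image_le, ?_, ?_⟩⟩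
  · intro a ha
    obtain ⟨b, hb, rfl⟩ := Finset.mem_image.1 ha
    have hb1 : ‖b‖ ≤ 3 / 2 := by
      have := ht ((Set.Finite.mem_toFinset _).1 hb)
      simpa using this
    rw [add_sub_cancel_left, norm_mul, Complex.norm_real, Real.norm_of_nonneg hR.le, mul_comm]
    exact mul_le_mul_of_nonneg_right hb1 hR.le
  · intro z hz
    have hRc : (R : ℂ) ≠ 0 := by
      exact_mod_cast hR.ne'
    have hz1 : ‖(z - w) / R‖ ≤ 3 / 2 := by
      rw [norm_div, Complex.norm_real, Real.norm_of_nonneg hR.le, div_le_iff₀ hR]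
      rw [mem_closedBall, dist_eq_norm] at hz
      exact hz
    have hz2 : (z - w) / R ∈ closedBall (0 : ℂ) (3 / 2) := by
      simpa using hz1
    obtain ⟨b, hb, hzb⟩ := mem_iUnion₂.1 (hcov hz2)
    refine ⟨w + (R : ℂ) * b, Finset.mem_image.2 ⟨b, (Set.Finite.mem_toFinset _).2 hb, rfl⟩, ?_⟩
    rw [mem_ball, dist_eq_norm] at hzb
    have h1 : z - (w + (R : ℂ) * b) = ((z - w) / R - b) * R := by
      field_simp
      ring
    rw [h1, norm_mul, Complex.norm_real, Real.norm_of_nonneg hR.le]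
    exact mul_le_mul_of_nonneg_right hzb.le hR.le

theorem net_op {η : ℝ} (hη : 0 < η) : ∃ n0 : ℕ, ∀ (w : ℂ) (R : ℝ), 0 < R → ∃ N : Finset ℂ,
    N.card ≤ n0 ∧ (∀ a ∈ N, ‖a - w‖ < R) ∧ ∀ z ∈ ball w R, ∃ a ∈ N, ‖z - a‖ < η * R := by
  classical
  obtain ⟨t, ht, hfin, hcov⟩ := Metric.finite_approx_of_totallyBounded
    ((isCompact_closedBall (0 : ℂ) 1).totallyBounded.subset ball_subset_closedBall) η hη
  refine ⟨hfin.toFinset.card, fun w R hR => ⟨hfin.toFinset.image fun a => w + (R : ℂ) * a,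
    Finset.card_image_le, ?_, ?_⟩⟩
  · intro a ha
    obtain ⟨b, hb, rfl⟩ := Finset.mem_image.1 ha
    have hb1 : ‖b‖ < 1 := by
      have := ht ((Set.Finite.mem_toFinset _).1 hb)
      simpa using this
    rw [add_sub_cancel_left, norm_mul, Complex.norm_real, Real.norm_of_nonneg hR.le]
    nlinarith [norm_nonneg b]
  · intro z hz
    have hRc : (R : ℂ) ≠ 0 := by
      exact_mod_cast hR.ne'
    have hz1 : ‖(z - w) / R‖ < 1 := by
      rw [norm_div, Complex.norm_real, Real.norm_of_nonneg hR.le, div_lt_iff₀ hR, one_mul]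
      rw [mem_ball, dist_eq_norm] at hz
      exact hz
    have hz2 : (z - w) / R ∈ ball (0 : ℂ) 1 := by
      simpa using hz1
    obtain ⟨b, hb, hzb⟩ := mem_iUnion₂.1 (hcov hz2)
    refine ⟨w + (R : ℂ) * b, Finset.mem_image.2 ⟨b, (Set.Finite.mem_toFinset _).2 hb, rfl⟩, ?_⟩
    rw [mem_ball, dist_eq_norm] at hzb
    have h1 : z - (w + (R : ℂ) * b) = ((z - w) / R - b) * R := by
      field_simp
      ring
    rw [h1, norm_mul, Complex.norm_real, Real.norm_of_nonneg hR.le]
    exact mul_lt_mul_of_pos_right hzb hR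

theorem chain_small {A : Set (OnePoint ℂ)} (hA : IsPreconnected A) {P : Finset (OnePoint ℂ)} {ε : ℝ}
    (hε : 0 ≤ ε) (hcov : ∀ a ∈ A, ∃ p ∈ P, chord p a ≤ ε) : Sm (2 * ε * P.card) A := by
  intro x hx y hy
  have hg : Continuous fun a => chord x a := ch_contl x
  have h1 : IsPreconnected ((fun a => chord x a) '' A) := hA.image _ hg.continuousOn
  have h2 : Icc (chord x x) (chord x y) ⊆ (fun a => chord x a) '' A :=
    h1.Icc_subset (mem_image_of_mem _ hx) (mem_image_of_mem _ hy)
  rw [chord_zero] at h2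
  have h3 : Icc (0 : ℝ) (chord x y) ⊆ ⋃ p ∈ P, Icc (chord x p - ε) (chord x p + ε) := by
    intro t ht
    obtain ⟨a, ha, rfl⟩ := h2 ht
    obtain ⟨p, hp, hpa⟩ := hcov a ha
    refine mem_iUnion₂.2 ⟨p, hp, ?_, ?_⟩
    · show chord x p - ε ≤ chord x a
      have := ch_tri x a p
      rw [ch_comm a p] at this
      linarith
    · show chord x a ≤ chord x p + ε
      linarith [ch_tri x p a]
  have h4 : ENNReal.ofReal (chord x y) ≤ ENNReal.ofReal (2 * ε * P.card) := by
    calc ENNReal.ofReal (chord x y) = MeasureTheory.volume (Icc (0 : ℝ) (chord x y)) := by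
          rw [Real.volume_Icc, sub_zero]
      _ ≤ MeasureTheory.volume (⋃ p ∈ P, Icc (chord x p - ε) (chord x p + ε)) :=
          MeasureTheory.measure_mono h3
      _ ≤ ∑ p ∈ P, MeasureTheory.volume (Icc (chord x p - ε) (chord x p + ε)) :=
          MeasureTheory.measure_biUnion_finset_le _ _
      _ = ∑ _p ∈ P, ENNReal.ofReal (2 * ε) := by
          refine Finset.sum_congr rfl fun p _ => ?_
          rw [Real.volume_Icc]
          congr 1
          ring
      _ = ENNReal.ofReal (2 * ε * P.card) := by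
          rw [Finset.sum_const, nsmul_eq_mul, mul_comm,
            ENNReal.ofReal_mul (p := 2 * ε) (q := (P.card : ℝ)) (by positivity),
            ENNReal.ofReal_natCast]
  exact (ENNReal.ofReal_le_ofReal_iff (by positivity)).1 h4

private theorem chord_pos' {x y : OnePoint ℂ} (h : x ≠ y) : 0 < chord x y := by
  rcases (chord_nn x y).lt_or_eq with h1 | h1
  · exact h1
  · exfalso
    apply h
    have : T2Space (OnePoint ℂ) := inferInstance
    refine tendsto_nhds_unique (f := fun _ : ℕ => y) (l := atTop) ?_ tendsto_const_nhds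
    refine ch_tend.2 ?_
    rw [← h1]
    exact tendsto_const_nhds

private theorem pre_aux {f : OnePoint ℂ → OnePoint ℂ} (hf : Continuous f)
    (hfin : ∀ w, (f ⁻¹' {w}).Finite) {ε : ℝ} (hε : 0 < ε) (q : OnePoint ℂ) :
    ∃ U ∈ 𝓝 q, ∀ A : Set (OnePoint ℂ), IsPreconnected A → f '' A ⊆ U → Sm ε A := by
  classical
  obtain ⟨F, hF⟩ : ∃ F : Finset (OnePoint ℂ), ∀ p, p ∈ F ↔ f p = q :=
    ⟨(hfin q).toFinset, fun p => by
      rw [Set.Finite.mem_toFinset]
      exact Iff.rfl⟩
  -- the separation radius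
  obtain ⟨r, hr, hrε, hsep⟩ : ∃ r : ℝ, 0 < r ∧ r ≤ ε / 2 ∧
      ∀ p ∈ F, ∀ p' ∈ F, p ≠ p' → 2 * r ≤ chord p p' := by
    by_cases hne : (F.offDiag).Nonempty
    · obtain ⟨pp, hpp, hmin⟩ := Finset.exists_min_image F.offDiag (fun s => chord s.1 s.2) hne
      have h1 : 0 < chord pp.1 pp.2 := chord_pos' (Finset.mem_offDiag.1 hpp).2.2
      refine ⟨min (ε / 2) (chord pp.1 pp.2 / 2), lt_min (by positivity) (by positivity),
        min_le_left _ _, fun p hp p' hp' hpp' => ?_⟩
      have h2 := hmin (p, p') (Finset.mem_offDiag.2 ⟨hp, hp', hpp'⟩)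
      have h3 := min_le_right (ε / 2) (chord pp.1 pp.2 / 2)
      simp only at h2
      linarith
    · refine ⟨ε / 2, by positivity, le_refl _, fun p hp p' hp' hpp' => ?_⟩
      exact absurd ⟨(p, p'), Finset.mem_offDiag.2 ⟨hp, hp', hpp'⟩⟩ hne
  -- the union of the balls
  obtain ⟨V, hV⟩ : ∃ V : Set (OnePoint ℂ), V = ⋃ p ∈ F, {y | chord p y < r} := ⟨_, rfl⟩
  have hVo : IsOpen V := by
    rw [hV]
    exact isOpen_biUnion fun p _ => ch_ball p r
  have hC : IsCompact (f '' Vᶜ) := (hVo.isClosed_compl.isCompact).image hf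
  have hqC : q ∉ f '' Vᶜ := by
    rintro ⟨p, hp, hpq⟩
    apply hp
    rw [hV]
    refine mem_iUnion₂.2 ⟨p, (hF p).2 hpq, ?_⟩
    show chord p p < r
    rw [chord_zero]
    exact hr
  refine ⟨(f '' Vᶜ)ᶜ, hC.isClosed.isOpen_compl.mem_nhds hqC, fun A hA hAU => ?_⟩
  have hAV : A ⊆ V := by
    intro a ha
    by_contra hcon
    exact hAU (mem_image_of_mem f ha) (mem_image_of_mem f hcon)
  intro x hx y hy
  obtain ⟨p, hp, hxp⟩ := mem_iUnion₂.1 (hV ▸ hAV hx)
  have hxp' : chord p x < r := hxp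
  -- A is in the ball about p
  have hsub : A ⊆ {z | chord p z < r} := by
    obtain ⟨W, hW⟩ : ∃ W : Set (OnePoint ℂ), W = ⋃ p' ∈ F.erase p, {y | chord p' y < r} := ⟨_, rfl⟩
    have hWo : IsOpen W := by
      rw [hW]
      exact isOpen_biUnion fun p _ => ch_ball p r
    have hcov : A ⊆ {z | chord p z < r} ∪ W := by
      intro a ha
      obtain ⟨p', hp', hap⟩ := mem_iUnion₂.1 (hV ▸ hAV ha)
      by_cases hpp : p' = p
      · left
        rw [← hpp]
        exact hap
      · right
        rw [hW]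
        exact mem_iUnion₂.2 ⟨p', Finset.mem_erase.2 ⟨hpp, hp'⟩, hap⟩
    exact hA.subset_left_of_subset_union (ch_ball p r) hWo
      (Set.disjoint_left.2 fun a ha1 ha2 => by
        rw [hW] at ha2
        obtain ⟨p', hp', hap⟩ := mem_iUnion₂.1 ha2
        have hp'' := Finset.mem_erase.1 hp'
        have h1 := hsep p hp p' hp''.2 (Ne.symm hp''.1)
        have h2 : chord p a < r := ha1
        have h3 : chord p' a < r := hap
        have h4 := ch_tri p a p'
        rw [ch_comm a p'] at h4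
        linarith) hcov ⟨x, hx, hxp'⟩
  have h1 : chord p y < r := hsub hy
  have h2 := ch_tri x p y
  rw [ch_comm x p] at h2
  linarith

theorem pre_small {f : OnePoint ℂ → OnePoint ℂ} (hf : Continuous f)
    (hfin : ∀ w, (f ⁻¹' {w}).Finite) {ε : ℝ} (hε : 0 < ε) :
    ∃ ε' : ℝ, 0 < ε' ∧ ∀ A : Set (OnePoint ℂ), IsPreconnected A → Sm ε' (f '' A) → Sm ε A := by
  choose U hU hUA using fun q => pre_aux hf hfin hε q
  obtain ⟨δ, hδ, hcov⟩ := ch_leb hU
  refine ⟨δ / 2, by positivity, fun A hA hS x hx => ?_⟩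
  obtain ⟨q, hq⟩ := hcov (f x)
  refine hUA q A hA (fun z hz => hq ?_) x hx
  have := hS (f x) (mem_image_of_mem f hx) z hz
  show chord (f x) z < δ
  linarith

end Pool.Agent.H44.RC
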