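import Mathlib

/-!
# Module LOGC: continuous logarithms on a compact plane set

`HasLog K a`: `w - a` has a continuous logarithm on `K`. PROOFS. `log_near`: `w - b = (w - a) (1 + (a - b) / (w - a))`, `‖(a - b) / (w - a)‖ < 1`, so `1 + ..` has positive real part, is in `Complex.slitPlane`: `λ w + Complex.log (1 + (a - b) / (w - a))`. `log_far`: `w - a = (v - a) (1 + (w - v) / (v - a))`, `‖w - v‖ ≤ r < ‖a - v‖`:
`Complex.log (v - a) + Complex.log (1 + (w - v) / (v - a))`. `log_root`: if `g : X → ℂ` is continuous on the preconnected set `X` and `g x ^ k` is a function of `u x` of the form `exp (L (u x))`, `L` continuous: `h x = g x / exp (L (u x) / k)` is continuous on `X` and `h x ^ k = 1`, so `h` has values in the finite (discrete) set of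
the `k`-th roots of unity and is constant on `X` (`IsPreconnected.image`, a preconnected subset of a finite subset of `ℂ` is a subsingleton). So `u x = u y` implies `g x = g y`.
-/

set_option autoImplicit false

open Filter Topology Metric Set

namespace Pool.Agent.H44.RC

/-- `w - a` has a continuous logarithm on `K` -/
def HasLog (K : Set ℂ) (a : ℂ) : Prop :=
  ∃ L : ℂ → ℂ, ContinuousOn L K ∧ ∀ w ∈ K, Complex.exp (L w) = w - a

private theorem slit {z : ℂ} (h : ‖z‖ < 1) : 1 + z ∈ Complex.slitPlane := by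
  left
  have h1 := Complex.abs_re_le_norm z
  have h2 := neg_abs_le z.re
  rw [Complex.add_re, Complex.one_re]
  linarith

theorem log_near {K : Set ℂ} {a b : ℂ} (h : ∀ w ∈ K, ‖a - b‖ < ‖w - a‖) (hl : HasLog K a) :
    HasLog K b := by
  obtain ⟨L, hL, hE⟩ := hl
  have h0 : ∀ w ∈ K, w - a ≠ 0 := fun w hw h1 => by
    have h2 := h w hw
    rw [h1, norm_zero] at h2
    exact absurd h2 (not_lt.2 (norm_nonneg _))
  have h1 : ∀ w ∈ K, ‖(a - b) / (w - a)‖ < 1 := fun w hw => by
    rw [norm_div, div_lt_one (norm_pos_iff.2 (h0 w hw))]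
    exact h w hw
  refine ⟨fun w => L w + Complex.log (1 + (a - b) / (w - a)), hL.add ?_, fun w hw => ?_⟩
  · refine ContinuousOn.clog ?_ fun w hw => slit (h1 w hw)
    exact continuousOn_const.add (continuousOn_const.div (continuousOn_id.sub continuousOn_const) h0)
  · have h2 : 1 + (a - b) / (w - a) ≠ 0 := Complex.slitPlane_ne_zero (slit (h1 w hw))
    rw [Complex.exp_add, hE w hw, Complex.exp_log h2]
    have := h0 w hw
    field_simp
    ring

theorem log_far {K : Set ℂ} {a v : ℂ} {r : ℝ} (hK : ∀ w ∈ K, ‖w - v‖ ≤ r) (ha : r < ‖a - v‖) :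
    HasLog K a := by
  have h0 : ∀ w ∈ K, v - a ≠ 0 := fun w hw h1 => by
    have h2 := (norm_nonneg _).trans (hK w hw)
    rw [← neg_sub v a, h1, neg_zero, norm_zero] at ha
    exact absurd ha (not_lt.2 h2)
  have h1 : ∀ w ∈ K, ‖(w - v) / (v - a)‖ < 1 := fun w hw => by
    rw [norm_div, div_lt_one (norm_pos_iff.2 (h0 w hw)), norm_sub_rev v a]
    exact (hK w hw).trans_lt ha
  refine ⟨fun w => Complex.log (v - a) + Complex.log (1 + (w - v) / (v - a)),
    continuousOn_const.add ?_, fun w hw => ?_⟩
  · refine ContinuousOn.clog ?_ fun w hw => slit (h1 w hw)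
    exact continuousOn_const.add ((continuousOn_id.sub continuousOn_const).div_const _)
  · have h2 : 1 + (w - v) / (v - a) ≠ 0 := Complex.slitPlane_ne_zero (slit (h1 w hw))
    rw [Complex.exp_add, Complex.exp_log (h0 w hw), Complex.exp_log h2]
    have := h0 w hw
    field_simp
    ring

theorem log_root {X : Type*} [TopologicalSpace X] {A : Set X} (hA : IsPreconnected A) {k : ℕ}
    (hk : 0 < k) {g u : X → ℂ} (hg : ContinuousOn g A) (hu : ContinuousOn u A) {a : ℂ}
    (hgu : ∀ x ∈ A, u x - a = g x ^ k) (hl : HasLog (u '' A) a) :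
    ∀ x ∈ A, ∀ y ∈ A, u x = u y → g x = g y := by
  obtain ⟨L, hL, hE⟩ := hl
  set h : X → ℂ := fun x => g x / Complex.exp (L (u x) / k) with hh
  have hk0 : (k : ℂ) ≠ 0 := by exact_mod_cast hk.ne'
  have hLc : ContinuousOn (fun x => L (u x)) A :=
    hL.comp hu fun x hx => mem_image_of_mem u hx
  have hc : ContinuousOn h A := by
    refine hg.div ((hLc.div_const _).cexp) fun x _ => Complex.exp_ne_zero _
  have h1 : ∀ x ∈ A, h x ^ k = 1 := fun x hx => by
    rw [hh]
    show (g x / Complex.exp (L (u x) / k)) ^ k = 1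
    rw [div_pow, ← Complex.exp_nat_mul, mul_div_cancel₀ _ hk0, hE _ (mem_image_of_mem u hx),
      ← hgu x hx, div_self]
    rw [← hE _ (mem_image_of_mem u hx)]
    exact Complex.exp_ne_zero _
  have hfin : (h '' A).Finite := by
    have h2 : {z : ℂ | z ^ k = 1}.Finite := by
      have h3 := (Polynomial.nthRoots k (1 : ℂ)).toFinset.finite_toSet
      refine h3.subset fun z hz => ?_
      rw [Finset.mem_coe, Multiset.mem_toFinset, Polynomial.mem_nthRoots hk]
      exact hz
    exact h2.subset (by rintro _ ⟨x, hx, rfl⟩; exact h1 x hx)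
  have hsub : (h '' A).Subsingleton := by
    by_contra hn
    rw [not_subsingleton_iff] at hn
    exact ((hA.image h hc).infinite_of_nontrivial hn) hfin
  intro x hx y hy hxy
  have h4 : h x = h y := hsub (mem_image_of_mem h hx) (mem_image_of_mem h hy)
  rw [hh] at h4
  simp only [hxy] at h4
  exact (div_left_inj' (Complex.exp_ne_zero _)).1 h4

end Pool.Agent.H44.RC
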