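import Mathlib

/-!
# Module BDL: a set with small univalent branches and few preimages is covered by few small balls

A plane statement which replaces the distortion theorem for maps of bounded degree. PROOF. `Ng = {a ∈ N | ∀ σ ∈ S, ρ ≤ ‖a - σ‖}`, `P = {y ∈ V | F y ∈ Ng}`, finite with at most `k * N.card` points (`hk`).
(A) If `y ∈ V`, `‖F y - w‖ ≤ 3 / 2 * R` and `5 / 4 * ρ ≤ ‖F y - σ‖` for all `σ ∈ S`: a net point `a` with `‖F y - a‖ ≤ ρ / 4` is in `Ng`, `‖a - w‖ + ρ ≤ 2 * R`, so `hbr` gives `y' ∈ P` with `‖y - y'‖ ≤ ε2`. Then also `ε2 ≤ ε3` (`k * N.card ≥ 1`).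
(B) There is `R'` with `R ≤ R' ≤ 3 / 2 * R` and `5 / 4 * ρ ≤ |‖σ - w‖ - R'|` for all `σ ∈ S`: the `s + 1` numbers `R_j = R + (j + 1 / 2) * 4 * ρ`, `j = 0..s`, are in `[R, 3 / 2 * R]` (`4 ρ (s + 1) = R / 2`) and have distances at least `4 ρ`; a `σ` can be bad for at most one of them.
(C) `O = {ζ | ‖ζ - w‖ < R' ∧ ∃ σ ∈ S, ‖ζ - σ‖ < 5 / 4 * ρ}` is open; `U = V ∩ F ⁻¹' O` is open and bounded. A point `y` of `frontier U`: `U ⊆ V ∩ F ⁻¹' closedBall w R'`, which is compact (`hprop`), so `y` is in it; `y ∉ U`, so `F y ∉ O`: either `‖F y - w‖ = R'`, and then `‖F y - σ‖ ≥ |‖σ - w‖ - R'| ≥ 5 / 4 * ρ`, or `‖F y - σ‖ ≥ 5 / 4 * ρ` for all `σ` anyway: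
by (A) there is `p0 ∈ P` with `‖y - p0‖ ≤ ε2`. Let `G Y = ∏ p ∈ P, (Y - p)`: `‖G y‖ ≤ ε2` on `frontier U` (the other factors are at most `1` by `hdm`, because `y ∈ V`). `Complex.norm_le_of_forall_mem_frontier_norm_le`: `‖G y‖ ≤ ε2` for `y ∈ U`. If all `‖y - p‖ > ε3`: `‖G y‖ ≥ ε3 ^ P.card ≥ ε3 ^ (k * N.card) > ε2`: contradiction.
(D) Let `y ∈ V`, `‖F y - w‖ ≤ R`. If `5 / 4 * ρ ≤ ‖F y - σ‖` for all `σ ∈ S`: (A). If not: then `‖F y - w‖ < R'` (`R < R'` because `R_j > R`), `y ∈ U`: (C).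
-/

set_option autoImplicit false

open Filter Topology Metric Set

namespace Pool.Agent.H44.RC

theorem bdl {V : Set ℂ} (hV : IsOpen V) (hdm : ∀ x ∈ V, ∀ y ∈ V, ‖x - y‖ ≤ 1) {F : ℂ → ℂ}
    (hF : ContinuousOn F V) {w : ℂ} {R : ℝ} (hR : 0 < R)
    (hprop : ∀ r < 2 * R, IsCompact (V ∩ F ⁻¹' closedBall w r)) {s k : ℕ} {S : Finset ℂ}
    (hS : S.card ≤ s) (hk : ∀ a, (V ∩ F ⁻¹' {a}).encard ≤ k) {N : Finset ℂ} {ρ : ℝ}
    (hρ : ρ = R / (8 * (s + 1))) (hN : ∀ a ∈ N, ‖a - w‖ ≤ 3 / 2 * R)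
    (hN' : ∀ z ∈ closedBall w (3 / 2 * R), ∃ a ∈ N, ‖z - a‖ ≤ ρ / 4) {ε2 ε3 : ℝ} (h3 : 0 < ε3)
    (h31 : ε3 ≤ 1) (h2 : ε2 < ε3 ^ (k * N.card))
    (hbr : ∀ y ∈ V, ∀ a : ℂ, ‖F y - a‖ < ρ / 2 → ‖a - w‖ + ρ ≤ 2 * R → (∀ σ ∈ S, ρ ≤ ‖a - σ‖) →
      ∃ y' ∈ V, F y' = a ∧ ‖y - y'‖ ≤ ε2) :
    ∃ P : Finset ℂ, P.card ≤ k * N.card ∧ (∀ p ∈ P, p ∈ V) ∧
      ∀ y ∈ V, ‖F y - w‖ ≤ R → ∃ p ∈ P, ‖y - p‖ ≤ ε3 := by
  classical
  have hs0 : (0 : ℝ) ≤ s := Nat.cast_nonneg s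
  have hs1 : (0 : ℝ) < s + 1 := by positivity
  have hρ0 : 0 < ρ := by rw [hρ]; positivity
  have hρs : 8 * ((s : ℝ) + 1) * ρ = R := by
    rw [hρ]
    field_simp
  have hρR : 8 * ρ ≤ R := by nlinarith
  have hfin : ∀ a, (V ∩ F ⁻¹' {a}).Finite := fun a => Set.finite_of_encard_le_coe (hk a)
  obtain ⟨Ng, hNg⟩ : ∃ Ng : Finset ℂ, Ng = N.filter (fun a => ∀ σ ∈ S, ρ ≤ ‖a - σ‖) := ⟨_, rfl⟩
  obtain ⟨P, hP⟩ : ∃ P : Finset ℂ, P = Ng.biUnion (fun a => (hfin a).toFinset) := ⟨_, rfl⟩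
  have hPc : P.card ≤ k * N.card := by
    rw [hP]
    have h4 : ∀ a ∈ Ng, ((hfin a).toFinset).card ≤ k := by
      intro a _
      have h5 := hk a
      rw [(hfin a).encard_eq_coe_toFinset_card] at h5
      exact_mod_cast h5
    refine (Finset.card_biUnion_le_card_mul _ _ k h4).trans ?_
    rw [mul_comm]
    refine Nat.mul_le_mul_left k ?_
    rw [hNg]
    exact Finset.card_filter_le _ _
  have hPV : ∀ p ∈ P, p ∈ V := by
    intro p hp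
    rw [hP, Finset.mem_biUnion] at hp
    obtain ⟨a, -, ha⟩ := hp
    exact ((hfin a).mem_toFinset.1 ha).1
  -- (A)
  have hA : ∀ y ∈ V, ‖F y - w‖ ≤ 3 / 2 * R → (∀ σ ∈ S, 5 / 4 * ρ ≤ ‖F y - σ‖) →
      ∃ p ∈ P, ‖y - p‖ ≤ ε2 := by
    intro y hy hyw hyS
    obtain ⟨a, haN, ha⟩ := hN' (F y) (by rw [mem_closedBall, dist_eq_norm]; exact hyw)
    have h5 : ∀ σ ∈ S, ρ ≤ ‖a - σ‖ := by
      intro σ hσ
      have h6 := hyS σ hσ
      have h7 : ‖F y - σ‖ ≤ ‖F y - a‖ + ‖a - σ‖ := norm_sub_le_norm_sub_add_norm_sub _ _ _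
      linarith
    have h8 := hN a haN
    obtain ⟨y', hy', hFy', hyy'⟩ := hbr y hy a (by linarith) (by linarith) h5
    refine ⟨y', ?_, hyy'⟩
    rw [hP, Finset.mem_biUnion]
    refine ⟨a, ?_, (hfin a).mem_toFinset.2 ⟨hy', hFy'⟩⟩
    rw [hNg, Finset.mem_filter]
    exact ⟨haN, h5⟩
  have hkN : ∀ p ∈ P, ε2 ≤ ε3 := by
    intro p hp
    have h4 : 0 < P.card := Finset.card_pos.2 ⟨p, hp⟩
    have h5 : 1 ≤ k * N.card := h4.trans_le hPc
    have h6 : ε3 ^ (k * N.card) ≤ ε3 ^ 1 := pow_le_pow_of_le_one h3.le h31 h5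
    rw [pow_one] at h6
    linarith
  -- (B)
  obtain ⟨R', hR1, hR2, hR'⟩ : ∃ R', R < R' ∧ R' ≤ 3 / 2 * R ∧
      ∀ σ ∈ S, 5 / 4 * ρ ≤ |‖σ - w‖ - R'| := by
    by_contra hcon
    push Not at hcon
    have h4 : ∀ j : Fin (s + 1), ∃ σ ∈ S, |‖σ - w‖ - (R + ((j : ℕ) + 1 / 2) * (4 * ρ))| < 5 / 4 * ρ := by
      intro j
      have hj0 : (0 : ℝ) ≤ ((j : ℕ) : ℝ) := Nat.cast_nonneg _
      have hj1 : ((j : ℕ) : ℝ) ≤ s := by
        have := Nat.lt_succ_iff.1 j.2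
        exact_mod_cast this
      refine hcon _ ?_ ?_
      · have : 0 < (((j : ℕ) : ℝ) + 1 / 2) * (4 * ρ) := by positivity
        linarith
      · nlinarith
    choose σ hσS hσ using h4
    have h5 : S.card < (Finset.univ : Finset (Fin (s + 1))).card := by
      rw [Finset.card_univ, Fintype.card_fin]
      omega
    obtain ⟨i, -, j, -, hij, he⟩ := Finset.exists_ne_map_eq_of_card_lt_of_maps_to h5
      (fun j _ => hσS j)
    have h6 := hσ i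
    have h7 := hσ j
    rw [← he] at h7
    rw [abs_lt] at h6 h7
    have h8 : ((i : ℕ) : ℝ) - ((j : ℕ) : ℝ) < 1 := by
      by_contra h
      push Not at h
      nlinarith [h6.1, h6.2, h7.1, h7.2]
    have h9 : ((j : ℕ) : ℝ) - ((i : ℕ) : ℝ) < 1 := by
      by_contra h
      push Not at h
      nlinarith [h6.1, h6.2, h7.1, h7.2]
    have h10 : (i : ℕ) < (j : ℕ) + 1 := by
      have : ((i : ℕ) : ℝ) < (((j : ℕ) + 1 : ℕ) : ℝ) := by push_cast; linarith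
      exact_mod_cast this
    have h11 : (j : ℕ) < (i : ℕ) + 1 := by
      have : ((j : ℕ) : ℝ) < (((i : ℕ) + 1 : ℕ) : ℝ) := by push_cast; linarith
      exact_mod_cast this
    exact hij (Fin.ext (by omega))
  -- (C)
  obtain ⟨O, hO⟩ : ∃ O : Set ℂ, O = {ζ | ‖ζ - w‖ < R' ∧ ∃ σ ∈ S, ‖ζ - σ‖ < 5 / 4 * ρ} := ⟨_, rfl⟩
  have hOo : IsOpen O := by
    have h4 : O = ball w R' ∩ ⋃ σ ∈ S, ball σ (5 / 4 * ρ) := by
      rw [hO]
      ext ζ
      simp only [mem_ofPred_eq, mem_inter_iff, mem_ball, dist_eq_norm, mem_iUnion, exists_prop]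
    rw [h4]
    exact isOpen_ball.inter (isOpen_biUnion fun σ _ => isOpen_ball)
  obtain ⟨U, hU⟩ : ∃ U : Set ℂ, U = V ∩ F ⁻¹' O := ⟨_, rfl⟩
  have hUo : IsOpen U := by
    rw [hU]
    exact hF.isOpen_inter_preimage hV hOo
  have hKc := hprop R' (by linarith)
  have hUK : closure U ⊆ V ∩ F ⁻¹' closedBall w R' := by
    refine closure_minimal ?_ hKc.isClosed
    intro y hy
    rw [hU] at hy
    refine ⟨hy.1, ?_⟩
    have h5 : F y ∈ O := hy.2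
    rw [hO] at h5
    rw [mem_preimage, mem_closedBall, dist_eq_norm]
    exact h5.1.le
  have hUb : Bornology.IsBounded U := hKc.isBounded.subset (subset_closure.trans hUK)
  have hfr : ∀ y ∈ frontier U, y ∈ V ∧ ∃ p ∈ P, ‖y - p‖ ≤ ε2 := by
    intro y hy
    have hyK := hUK (frontier_subset_closure hy)
    have hyU : y ∉ U := by
      intro h
      rw [hUo.frontier_eq] at hy
      exact hy.2 h
    have hyR : ‖F y - w‖ ≤ R' := by
      have := hyK.2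
      rwa [mem_preimage, mem_closedBall, dist_eq_norm] at this
    refine ⟨hyK.1, hA y hyK.1 (hyR.trans hR2) ?_⟩
    have hyO : F y ∉ O := by
      intro h
      apply hyU
      rw [hU]
      exact ⟨hyK.1, h⟩
    rw [hO] at hyO
    rcases lt_or_eq_of_le hyR with h4 | h4
    · intro σ hσ
      by_contra h5
      push Not at h5
      exact hyO ⟨h4, σ, hσ, h5⟩
    · intro σ hσ
      have h5 := hR' σ hσ
      rw [← h4] at h5
      refine h5.trans ?_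
      have h6 := abs_norm_sub_norm_le (σ - w) (F y - w)
      refine h6.trans (le_of_eq ?_)
      rw [sub_sub_sub_cancel_right, norm_sub_rev]
  have hG : ∀ y ∈ closure U, ‖∏ p ∈ P, (y - p)‖ ≤ ε2 := by
    intro y hy
    have hd : Differentiable ℂ (fun Y : ℂ => ∏ p ∈ P, (Y - p)) := by
      apply Differentiable.fun_finsetProd
      intro p _
      exact differentiable_id.sub_const p
    refine Complex.norm_le_of_forall_mem_frontier_norm_le hUb hd.diffContOnCl ?_ hy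
    intro x hx
    obtain ⟨hxV, p0, hp0, hxp⟩ := hfr x hx
    rw [norm_prod, ← Finset.mul_prod_erase _ _ hp0]
    have h4 : ∏ p ∈ P.erase p0, ‖x - p‖ ≤ 1 := by
      apply Finset.prod_le_one (fun p _ => norm_nonneg _)
      intro p hp
      exact hdm x hxV p (hPV p (Finset.mem_of_mem_erase hp))
    have h5 : 0 ≤ ∏ p ∈ P.erase p0, ‖x - p‖ := Finset.prod_nonneg fun p _ => norm_nonneg _
    calc ‖x - p0‖ * ∏ p ∈ P.erase p0, ‖x - p‖ ≤ ‖x - p0‖ * 1 :=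
          mul_le_mul_of_nonneg_left h4 (norm_nonneg _)
      _ ≤ ε2 := by rw [mul_one]; exact hxp
  refine ⟨P, hPc, hPV, fun y hy hyw => ?_⟩
  by_cases h4 : ∀ σ ∈ S, 5 / 4 * ρ ≤ ‖F y - σ‖
  · obtain ⟨p, hp, hyp⟩ := hA y hy (by linarith) h4
    exact ⟨p, hp, hyp.trans (hkN p hp)⟩
  · push Not at h4
    obtain ⟨σ, hσ, hσ'⟩ := h4
    have hyU : y ∈ U := by
      rw [hU]
      refine ⟨hy, ?_⟩
      rw [mem_preimage, hO]
      exact ⟨hyw.trans_lt hR1, σ, hσ, hσ'⟩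
    by_contra hcon
    push Not at hcon
    have h5 := hG y (subset_closure hyU)
    rw [norm_prod] at h5
    have h6 : ε3 ^ P.card ≤ ∏ p ∈ P, ‖y - p‖ := by
      rw [← Finset.prod_const]
      exact Finset.prod_le_prod (fun _ _ => h3.le) fun p hp => (hcon p hp).le
    have h7 : ε3 ^ (k * N.card) ≤ ε3 ^ P.card := pow_le_pow_of_le_one h3.le h31 hPc
    linarith

end Pool.Agent.H44.RC
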