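import Pool.Agent.H44.RC.IOC
import Pool.Agent.H44.DN.KOE

/-!
# Module SMB: univalent inverse branches near `L` are small

`J6 f`: the iterates of a ball about a point of the Julia set are never in a small ball. `SmB f m τ D ε`: univalent branches of the inverse of `f^[m]` on discs in `D` are small on the half discs.
PROOF. `koe` (H44/DN/KOE): on `ball z t`, `‖ζ - z‖ ≤ t / 2`: `‖g ζ - g z‖ ≤ C1 t ‖deriv g z‖` with an absolute `C1`. `univ_cover` (H80/AJ/Cover): `ball (g z) (t * ‖deriv g z‖ / 16) ⊆ g '' ball z t`. So if `ε2 < ‖g ζ - g z‖` for some `ζ`, `ball (g z) η1 ⊆ g '' ball z t`, `η1 = min (ε2 / (16 C1)) 1`. Let `y = io τ' (g z)`, `η = η1 / 30`: if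
`chord y x < η` then `x = io τ' u` with `‖u - g z‖ < η1` (as in `io_near`, with `‖g z‖ ≤ 3` instead of `2`; `io_near3` below), so `f^[m] x ∈ cb τ z t` and `chord (io τ z) (f^[m] x) < t ≤ H`. (a) If there is `y1 ∈ JS f` with `chord y y1 < η / 2`: `J6 f` with `η / 2` gives `δ`, and for `H ≤ δ` a contradiction
(`p = io τ z`, `n = m`, triangle inequality). (b) If not: `y ∈ Y = {y | ∀ x ∈ JS f, η / 2 ≤ chord y x}`, closed (compact) and contained in `FS f`; `hF Y` gives `η' ≤ chord (f^[m] y) x` for `x ∈ JS f`; `f^[m] y = io τ z` and `chord (io τ z) x ≤ H` for an `x ∈ L ⊆ JS f`: contradiction for `H < η'`.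
`io_near3`: the omitted point is at distance `1 / √(1 + ‖w‖ ^ 2) ≥ 1 / √10 ≥ 0.316` from `io τ' w`; for `t = chord < 1 / 30` the distance of `io τ' u` to it is at least `0.28`, `√(1 + ‖u‖ ^ 2) ≤ 3.6`, so `‖u - w‖ ≤ t * 3.6 * 3.17 ≤ 12 t`.
-/

set_option autoImplicit false

open Filter Topology Polynomial Metric Set

namespace Pool.Agent.H44.RC

open Pool.Agent.H44.Fatou Pool.Agent.H32.BT Pool.Agent.H35.EX Pool.Agent.H44.RR
open Pool.Agent.H56.HR

/-- the iterates of a ball about a point of the Julia set are never in a small ball -/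
def J6 (f : OnePoint ℂ → OnePoint ℂ) : Prop :=
  ∀ η : ℝ, 0 < η → ∃ δ : ℝ, 0 < δ ∧ ∀ y ∈ JS f, ∀ (n : ℕ) (p : OnePoint ℂ),
    ¬ ∀ z, chord y z < η → chord p (f^[n] z) < δ

/-- univalent branches of the inverse of `f^[m]` on discs in `ball w r` are small on the half discs -/
def SmB (f : OnePoint ℂ → OnePoint ℂ) (m : ℕ) (τ : Bool) (w : ℂ) (r ε : ℝ) : Prop :=
  ∀ (τ' : Bool) (z : ℂ) (t : ℝ) (g : ℂ → ℂ), 0 < t → ball z t ⊆ ball w r →
    DifferentiableOn ℂ g (ball z t) → InjOn g (ball z t) →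
    (∀ ζ ∈ ball z t, ‖g ζ‖ ≤ 3 ∧ f^[m] (io τ' (g ζ)) = io τ ζ) →
    ∀ ζ, ‖ζ - z‖ < t / 2 → ‖g ζ - g z‖ ≤ ε

private theorem sq_lt {w : ℂ} (hw : ‖w‖ ≤ 3) : 1 / 30 < 1 / √(1 + ‖w‖ ^ 2) := by
  have h1 : √(1 + ‖w‖ ^ 2) < 30 := by
    rw [Real.sqrt_lt' (by norm_num)]
    nlinarith [norm_nonneg w]
  have h2 : 0 < √(1 + ‖w‖ ^ 2) := Real.sqrt_pos.2 (by positivity)
  exact one_div_lt_one_div_of_lt h2 h1

private theorem io_rng {τ : Bool} {w : ℂ} (hw : ‖w‖ ≤ 3) {x : OnePoint ℂ}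
    (hx : chord (io τ w) x < 1 / 30) : ∃ z : ℂ, io τ z = x := by
  induction x using OnePoint.rec with
  | infty =>
    cases τ with
    | true =>
      exfalso
      have h1 : chord (io true w) OnePoint.infty = 1 / √(1 + ‖w‖ ^ 2) := rfl
      rw [h1] at hx
      exact absurd hx (not_lt.2 (sq_lt hw).le)
    | false =>
      refine ⟨0, ?_⟩
      unfold io recip
      simp
  | coe u =>
    cases τ with
    | true => exact ⟨u, rfl⟩
    | false =>
      by_cases hu : u = 0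
      · exfalso
        subst hu
        by_cases hw0 : w = 0
        · subst hw0
          have h1 : chord (io false 0) ((0 : ℂ) : OnePoint ℂ) = 1 := by
            unfold io recip
            simp only [Bool.false_eq_true, if_false, if_true]
            show 1 / √(1 + ‖(0 : ℂ)‖ ^ 2) = 1
            norm_num
          rw [h1] at hx
          norm_num at hx
        · have h1 : chord (io false w) ((0 : ℂ) : OnePoint ℂ) = 1 / √(1 + ‖w‖ ^ 2) := by
            unfold io recip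
            simp only [Bool.false_eq_true, if_false, if_neg hw0]
            show ‖w⁻¹ - 0‖ / (√(1 + ‖w⁻¹‖ ^ 2) * √(1 + ‖(0 : ℂ)‖ ^ 2)) = 1 / √(1 + ‖w‖ ^ 2)
            have hn : 0 < ‖w‖ := norm_pos_iff.2 hw0
            rw [sub_zero, norm_zero, norm_inv]
            have h2 : 1 + ‖w‖⁻¹ ^ 2 = (1 + ‖w‖ ^ 2) / ‖w‖ ^ 2 := by
              field_simp
              ring
            rw [h2, Real.sqrt_div (by positivity), Real.sqrt_sq hn.le]
            norm_num
            field_simp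
          rw [h1] at hx
          exact absurd hx (not_lt.2 (sq_lt hw).le)
      · refine ⟨u⁻¹, ?_⟩
        unfold io recip
        simp [hu]

theorem io_near3 {τ : Bool} {w : ℂ} (hw : ‖w‖ ≤ 3) {x : OnePoint ℂ}
    (hx : chord (io τ w) x < 1 / 30) : ∃ z : ℂ, io τ z = x ∧ ‖z - w‖ ≤ 12 * chord (io τ w) x := by
  obtain ⟨z, rfl⟩ := io_rng hw hx
  refine ⟨z, rfl, ?_⟩
  rw [chord_io] at hx ⊢
  rw [norm_sub_rev w z] at hx ⊢
  obtain ⟨A, hA⟩ : ∃ A, A = √(1 + ‖w‖ ^ 2) := ⟨_, rfl⟩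
  obtain ⟨B, hB⟩ : ∃ B, B = √(1 + ‖z‖ ^ 2) := ⟨_, rfl⟩
  have hA2 : A ^ 2 = 1 + ‖w‖ ^ 2 := by rw [hA]; exact Real.sq_sqrt (by positivity)
  have hB2 : B ^ 2 = 1 + ‖z‖ ^ 2 := by rw [hB]; exact Real.sq_sqrt (by positivity)
  have hA0 : 0 < A := by rw [hA]; exact Real.sqrt_pos.2 (by positivity)
  have hB0 : 0 < B := by rw [hB]; exact Real.sqrt_pos.2 (by positivity)
  rw [← hA, ← hB] at hx ⊢
  obtain ⟨D, hD⟩ : ∃ D, D = ‖z - w‖ := ⟨_, rfl⟩
  have hD0 : 0 ≤ D := by rw [hD]; exact norm_nonneg _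
  have hzD : ‖z‖ ≤ 3 + D := by
    have := norm_sub_norm_le z w
    rw [hD]
    linarith
  rw [← hD] at hx ⊢
  have hx' : D < 1 / 30 * (A * B) := by
    rwa [div_lt_iff₀ (by positivity)] at hx
  have hA3 : A ≤ 3.17 := by
    by_contra hcon
    push Not at hcon
    nlinarith [norm_nonneg w]
  have hAB : A * B ≤ 3.17 * B := mul_le_mul_of_nonneg_right hA3 hB0.le
  have hB3 : B ≤ 3.6 := by
    by_contra hcon
    push Not at hcon
    have h1 : ‖z‖ ≤ 3 + 3.17 / 30 * B := by linarith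
    have h2 : ‖z‖ ^ 2 ≤ (3 + 3.17 / 30 * B) ^ 2 := pow_le_pow_left₀ (norm_nonneg z) h1 2
    nlinarith
  have h12 : A * B ≤ 12 := by nlinarith
  rw [mul_div_assoc', le_div_iff₀ (by positivity)]
  nlinarith

theorem small_br {f : OnePoint ℂ → OnePoint ℂ} (hJ6 : J6 f) (hF : FJ f) {L : Set (OnePoint ℂ)}
    (hL : L ⊆ JS f) {ε : ℝ} (hε : 0 < ε) :
    ∃ H : ℝ, 0 < H ∧ ∀ (m : ℕ) (τ τ' : Bool) (z : ℂ) (t : ℝ) (g : ℂ → ℂ), 0 < t → t ≤ H →
      (∃ x ∈ L, chord (io τ z) x ≤ H) → DifferentiableOn ℂ g (ball z t) → InjOn g (ball z t) →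
      (∀ ζ ∈ ball z t, ‖g ζ‖ ≤ 3 ∧ f^[m] (io τ' (g ζ)) = io τ ζ) →
      ∀ ζ, ‖ζ - z‖ < t / 2 → ‖g ζ - g z‖ ≤ ε := by
  obtain ⟨C, N, hC, hkoe⟩ := Pool.Agent.H44.DN.koe
  obtain ⟨C1, hC1⟩ : ∃ C1 : ℝ, C1 = 2 ^ N * C := ⟨_, rfl⟩
  have hC10 : 0 < C1 := by rw [hC1]; positivity
  obtain ⟨η1, hη1⟩ : ∃ η1 : ℝ, η1 = min (ε / (16 * C1)) 1 := ⟨_, rfl⟩
  have hη10 : 0 < η1 := by rw [hη1]; positivity
  have hη11 : η1 ≤ 1 := by rw [hη1]; exact min_le_right _ _
  have hη1e : η1 ≤ ε / (16 * C1) := by rw [hη1]; exact min_le_left _ _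
  obtain ⟨η, hη⟩ : ∃ η : ℝ, η = η1 / 30 := ⟨_, rfl⟩
  have hη0 : 0 < η := by rw [hη]; positivity
  obtain ⟨δ, hδ, hJ⟩ := hJ6 (η / 2) (by positivity)
  obtain ⟨Y, hY⟩ : ∃ Y : Set (OnePoint ℂ), Y = {y | ∀ x ∈ JS f, η / 2 ≤ chord y x} := ⟨_, rfl⟩
  have hYF : Y ⊆ FS f := by
    intro y hy
    by_contra hcon
    rw [hY] at hy
    have h1 := hy y hcon
    rw [chord_zero] at h1
    linarith
  have hYc : IsCompact Y := by
    have h1 : IsClosed Y := by
      have h2 : Y = ⋂ x ∈ JS f, {y | η / 2 ≤ chord y x} := by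
        rw [hY]
        ext y
        simp
      rw [h2]
      refine isClosed_biInter fun x _ => ?_
      exact isClosed_le continuous_const
        (chord_cont.comp (continuous_id.prodMk continuous_const))
    exact h1.isCompact
  obtain ⟨η', hη', hFY⟩ := hF Y hYF hYc
  refine ⟨min δ (η' / 2), by positivity, ?_⟩
  rintro m τ τ' z t g ht htH ⟨x0, hx0, hx0H⟩ hg hi hm ζ hζ
  by_contra hcon
  push Not at hcon
  have hζ1 : ζ ∈ closedBall z (t / 2) := by
    rw [mem_closedBall, dist_eq_norm]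
    exact hζ.le
  have h1 := (hkoe g z t ht hg hi (t / 2) (by positivity) (by linarith) ζ hζ1).2.2.1
  have h2 : (1 - t / 2 / t : ℝ) = 1 / 2 := by
    field_simp
    ring
  rw [h2] at h1
  have h3 : ‖g ζ - g z‖ ≤ C1 * (t * ‖deriv g z‖) := by
    have h4 : (0 : ℝ) < 2 ^ N := by positivity
    have h5 : ‖g ζ - g z‖ = 2 ^ N * (‖g ζ - g z‖ * (1 / 2) ^ N) := by
      rw [mul_comm (‖g ζ - g z‖), ← mul_assoc, ← mul_pow]
      norm_num
    rw [h5, hC1, mul_assoc]
    refine mul_le_mul_of_nonneg_left (h1.trans ?_) h4.le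
    refine mul_le_mul_of_nonneg_left ?_ (by linarith)
    rw [mul_comm]
    exact mul_le_mul_of_nonneg_right (by linarith) (norm_nonneg _)
  have h6 : ε / C1 < t * ‖deriv g z‖ := by
    rw [div_lt_iff₀ hC10, mul_comm]
    exact hcon.trans_le h3
  have h7 : η1 ≤ t * ‖deriv g z‖ / 16 := by
    refine hη1e.trans ?_
    have h8 : ε / (16 * C1) = ε / C1 / 16 := by
      field_simp
    rw [h8]
    linarith
  have hcov : ball (g z) η1 ⊆ g '' ball z t :=
    (ball_subset_ball h7).trans (Pool.Agent.H80.AJ.univ_cover ht hg hi)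
  have hzt : z ∈ ball z t := mem_ball_self ht
  have hgz := hm z hzt
  have hkey : ∀ x, chord (io τ' (g z)) x < η → chord (io τ z) (f^[m] x) < t := by
    intro x hx
    obtain ⟨u, rfl, hu⟩ := io_near3 hgz.1 (hx.trans_le (by rw [hη]; linarith))
    have h9 : u ∈ ball (g z) η1 := by
      rw [mem_ball, dist_eq_norm]
      rw [hη] at hx
      linarith
    obtain ⟨ζ', hζ', rfl⟩ := hcov h9
    rw [(hm ζ' hζ').2]
    refine (chord_io_le τ z ζ').trans_lt ?_
    rw [mem_ball, dist_eq_norm, norm_sub_rev] at hζ'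
    exact hζ'
  by_cases hcase : ∃ y1 ∈ JS f, chord (io τ' (g z)) y1 < η / 2
  · obtain ⟨y1, hy1, hy1'⟩ := hcase
    refine hJ y1 hy1 m (io τ z) fun z' hz' => ?_
    have h10 := hkey z' ((ch_tri _ y1 _).trans_lt (by linarith))
    exact h10.trans_le (htH.trans (min_le_left _ _))
  · push Not at hcase
    have h11 : io τ' (g z) ∈ Y := by
      rw [hY]
      exact hcase
    have h12 := hFY _ h11 m x0 (hL hx0)
    rw [hgz.2] at h12
    have h13 := hx0H.trans (min_le_right _ _)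
    linarith

end Pool.Agent.H44.RC
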