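import Pool.Agent.H44.RC.HOLB
import Pool.Agent.H44.RC.SMB
import Pool.Agent.H44.RC.BDL
import Pool.Agent.H44.RC.NET
import Pool.Agent.H44.RC.CCO

/-!
# Module BDC: the plane statement `bdl` on the sphere

PROOF. `η = 1 / (32 (s + 1))`, `n0 = k * n1`, `n1` from `net_cl`. `ε2 = ε3 ^ (k * n1) / 2`. Let `D = cb τ w (2 R)`, `V = CC f m D y`. If `V = ∅`: `P = ∅`. `y ∈ V` (otherwise `V = ∅`); `y = io τ' u0`, `‖u0‖ ≤ 1` (`io_ex`). For `x ∈ V`: `chord y x ≤ 1 / 16 < 1 / 8`, so `x = io τ' u`, `‖u - u0‖ ≤ 1 / 2` (`io_near`). `V' = io τ' ⁻¹' V` is open (`cc_open`), of diameter at most `1`,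
`‖u‖ ≤ 3 / 2` on `V'`. `F u` = the number with `io τ (F u) = f^[m] (io τ' u)` for `u ∈ V'` (`cc_sub`); continuous on `V'` (`io_emb` is inducing). `hprop`: `V' ∩ F ⁻¹' closedBall w r = io τ' ⁻¹' (V ∩ f^[m] ⁻¹' (io τ '' closedBall w r))` (`cc_cpt`; the preimage of a compact subset of the range of an embedding is compact). `hk`: injectivity of `io τ'`.
`S' = ` the `σ` with `io τ σ ∈ S` (`Finset.preimage`), at most `s` points. `N` from `net_cl` (`η * R = ρ / 4`, `ρ = R / (8 (s + 1))`). `hbr`: let `u ∈ V'`, `a` with `‖F u - a‖ < ρ / 2`, `‖a - w‖ + ρ ≤ 2 R`, `ρ ≤ ‖a - σ‖` for `σ ∈ S'`: `ball a ρ ⊆ ball w (2 R)`, no `io τ ζ ∈ S` for `ζ ∈ ball a ρ`, `f^[m] (io τ' u) = io τ (F u) ∈ cb τ a ρ`: `hbij` gives `BijOn f^[m] W (cb τ a ρ)`,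
`W = CC f m (cb τ a ρ) (io τ' u) ⊆ V` (`cc_mono`). `hol_branch`: `g`; `g (F u) = u` (injectivity on `W`, `io τ' u ∈ W`); `u' = g a`: `io τ' u' ∈ W ⊆ V`, `F u' = a`; `‖u - u'‖ = ‖g (F u) - g a‖ ≤ ε2` by `SmB`. `bdl` gives a finite set; `P` = its image under `io τ'`; `chord_io_le`. (`ε3 ^ (k * n1) ≤ ε3 ^ (k * N.card)`, `ε3 ≤ 1`.)
-/

set_option autoImplicit false

open Filter Topology Polynomial Metric Set

namespace Pool.Agent.H44.RC

open Pool.Agent.H44.Fatou Pool.Agent.H32.BT Pool.Agent.H35.EX Pool.Agent.H44.RR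
open Pool.Agent.H56.HR

theorem bdc (s k : ℕ) : ∃ n0 : ℕ, ∀ ε3 : ℝ, 0 < ε3 → ε3 ≤ 1 → ∃ ε2 : ℝ, 0 < ε2 ∧
    ∀ {P Q : Polynomial ℂ}, IsCoprime P Q → 1 ≤ max P.natDegree Q.natDegree →
    ∀ (τ : Bool) (w : ℂ) (R : ℝ), 0 < R → 2 * R ≤ 1 / 4 → ∀ (m : ℕ) (y : OnePoint ℂ),
      Sm (1 / 16) (CC (rat P Q) m (cb τ w (2 * R)) y) →
      (∀ u, (CC (rat P Q) m (cb τ w (2 * R)) y ∩ (rat P Q)^[m] ⁻¹' {u}).encard ≤ k) →
      ∀ S : Finset (OnePoint ℂ), S.card ≤ s →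
      (∀ (z : ℂ) (t : ℝ), 0 < t → t ≤ 1 / 4 → ball z t ⊆ ball w (2 * R) →
        (∀ ζ ∈ ball z t, io τ ζ ∉ S) → ∀ y' ∈ CC (rat P Q) m (cb τ w (2 * R)) y,
        (rat P Q)^[m] y' ∈ cb τ z t →
        BijOn (rat P Q)^[m] (CC (rat P Q) m (cb τ z t) y') (cb τ z t)) →
      SmB (rat P Q) m τ w (2 * R) ε2 →
      ∃ T : Finset (OnePoint ℂ), T.card ≤ n0 ∧ ∀ x ∈ CC (rat P Q) m (cb τ w (2 * R)) y,
        (rat P Q)^[m] x ∈ io τ '' closedBall w R → ∃ p ∈ T, chord p x ≤ ε3 := by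
  classical
  have hs1 : (0 : ℝ) < (s : ℝ) + 1 := by positivity
  obtain ⟨n1, hn1⟩ := net_cl (show (0 : ℝ) < 1 / (32 * ((s : ℝ) + 1)) by positivity)
  refine ⟨k * n1, fun ε3 h3 h31 => ⟨ε3 ^ (k * n1) / 2, by positivity, ?_⟩⟩
  intro P Q hcop hd τ w R hR hR4 m y hsm hk S hS hbij hsmb
  have hf : Continuous (rat P Q) := rat_continuous hcop
  by_cases hy : (rat P Q)^[m] y ∈ cb τ w (2 * R)
  swap
  · refine ⟨∅, Nat.zero_le _, fun x hx => ?_⟩
    have h1 : CC (rat P Q) m (cb τ w (2 * R)) y = ∅ :=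
      connectedComponentIn_eq_empty (F := (rat P Q)^[m] ⁻¹' cb τ w (2 * R)) hy
    rw [h1] at hx
    exact absurd hx (notMem_empty _)
  have hyV := cc_mem hy
  obtain ⟨V, hV⟩ : ∃ V, V = CC (rat P Q) m (cb τ w (2 * R)) y := ⟨_, rfl⟩
  rw [← hV] at hsm hyV hk hbij ⊢
  have hVo : IsOpen V := by rw [hV]; exact cc_open hf m (cb_open τ w (2 * R)) y
  obtain ⟨τ', u0, hu0, hyu⟩ := io_ex y
  -- the chart at `y`
  have hch : ∀ x ∈ V, ∃ u : ℂ, io τ' u = x ∧ ‖u - u0‖ ≤ 1 / 2 := by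
    intro x hx
    have h1 := hsm y hyV x hx
    rw [← hyu] at h1
    obtain ⟨u, hu1, hu2⟩ := io_near (τ := τ') (w := u0) (by linarith) (x := x) (by linarith)
    exact ⟨u, hu1, by linarith⟩
  have hch2 : ∀ u : ℂ, io τ' u ∈ V → ‖u - u0‖ ≤ 1 / 2 := by
    intro u hu
    obtain ⟨u', h1, h2⟩ := hch _ hu
    rw [io_inj τ' h1] at h2
    exact h2
  have hFe : ∀ u : ℂ, ∃ z : ℂ, io τ' u ∈ V →
      io τ z = (rat P Q)^[m] (io τ' u) ∧ z ∈ ball w (2 * R) := by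
    intro u
    by_cases hu : io τ' u ∈ V
    · have h1 := hu
      rw [hV] at h1
      obtain ⟨z, hz, hz'⟩ := cc_sub h1
      exact ⟨z, fun _ => ⟨hz', hz⟩⟩
    · exact ⟨0, fun h => absurd h hu⟩
  choose F hF using hFe
  have hFc : ContinuousOn F (io τ' ⁻¹' V) := by
    rw [(io_emb τ).isInducing.continuousOn_iff]
    have h1 : ContinuousOn (fun u : ℂ => (rat P Q)^[m] (io τ' u)) (io τ' ⁻¹' V) :=
      ((hf.iterate m).comp (io_cont τ')).continuousOn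
    exact h1.congr fun u hu => (hF u hu).1
  have hprop : ∀ r < 2 * R, IsCompact ((io τ' ⁻¹' V) ∩ F ⁻¹' closedBall w r) := by
    intro r hr
    have h1 : (io τ' ⁻¹' V) ∩ F ⁻¹' closedBall w r =
        io τ' ⁻¹' (V ∩ (rat P Q)^[m] ⁻¹' (io τ '' closedBall w r)) := by
      ext u
      constructor
      · rintro ⟨hu1, hu2⟩
        exact ⟨hu1, F u, hu2, (hF u hu1).1⟩
      · rintro ⟨hu1, z, hz, hzu⟩
        refine ⟨hu1, ?_⟩
        have h2 : z = F u := io_inj τ (hzu.trans (hF u hu1).1.symm)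
        rw [mem_preimage, ← h2]
        exact hz
    rw [h1]
    have h2 : IsCompact (V ∩ (rat P Q)^[m] ⁻¹' (io τ '' closedBall w r)) := by
      rw [hV]
      refine cc_cpt hf (cbar_cpt τ w r) ?_ y
      exact image_mono (closedBall_subset_ball hr)
    refine ((io_emb τ').isInducing.isCompact_preimage_iff ?_).2 h2
    rintro x ⟨hx, -⟩
    obtain ⟨u, hu, -⟩ := hch x hx
    exact ⟨u, hu⟩
  have hkF : ∀ a : ℂ, ((io τ' ⁻¹' V) ∩ F ⁻¹' {a}).encard ≤ k := by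
    intro a
    refine le_trans ?_ (hk (io τ a))
    refine Set.encard_le_encard_of_injOn (f := io τ') ?_ (io_inj τ').injOn
    rintro u ⟨hu1, hu2⟩
    refine ⟨hu1, ?_⟩
    have h1 : F u = a := hu2
    have h2 := (hF u hu1).1
    rw [h1] at h2
    exact h2.symm
  obtain ⟨S', hS'⟩ : ∃ S' : Finset ℂ, S' = S.preimage (io τ) (io_inj τ).injOn := ⟨_, rfl⟩
  have hS'c : S'.card ≤ s := by
    refine le_trans ?_ hS
    refine Finset.card_le_card_of_injOn (io τ) ?_ (io_inj τ).injOn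
    intro σ hσ
    have h1 := Finset.mem_coe.1 hσ
    rw [hS', Finset.mem_preimage] at h1
    exact h1
  obtain ⟨N, hNc, hN, hN'⟩ := hn1 w R hR
  obtain ⟨ρ, hρ⟩ : ∃ ρ : ℝ, ρ = R / (8 * ((s : ℝ) + 1)) := ⟨_, rfl⟩
  have hρ0 : 0 < ρ := by rw [hρ]; positivity
  have hρ1 : ρ ≤ 1 / 4 := by
    rw [hρ, div_le_iff₀ (by positivity)]
    have : (0 : ℝ) ≤ s := Nat.cast_nonneg s
    nlinarith
  have hρη : 1 / (32 * ((s : ℝ) + 1)) * R = ρ / 4 := by
    rw [hρ]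
    field_simp
    norm_num
  rw [hρη] at hN'
  have h2 : ε3 ^ (k * n1) / 2 < ε3 ^ (k * N.card) := by
    have h4 : ε3 ^ (k * n1) ≤ ε3 ^ (k * N.card) :=
      pow_le_pow_of_le_one h3.le h31 (Nat.mul_le_mul_left k hNc)
    have h5 : 0 < ε3 ^ (k * n1) := by positivity
    linarith
  have hbr : ∀ u ∈ io τ' ⁻¹' V, ∀ a : ℂ, ‖F u - a‖ < ρ / 2 → ‖a - w‖ + ρ ≤ 2 * R →
      (∀ σ ∈ S', ρ ≤ ‖a - σ‖) → ∃ u' ∈ io τ' ⁻¹' V, F u' = a ∧ ‖u - u'‖ ≤ ε3 ^ (k * n1) / 2 := by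
    intro u hu a hua haw haS
    have hsub : ball a ρ ⊆ ball w (2 * R) := by
      apply ball_subset_ball'
      rw [dist_eq_norm]
      linarith
    have hnS : ∀ ζ ∈ ball a ρ, io τ ζ ∉ S := by
      intro ζ hζ hζS
      have h4 := haS ζ (by rw [hS', Finset.mem_preimage]; exact hζS)
      rw [mem_ball, dist_comm, dist_eq_norm] at hζ
      linarith
    have hFu : F u ∈ ball a ρ := by
      rw [mem_ball, dist_eq_norm]
      linarith
    have hmem : (rat P Q)^[m] (io τ' u) ∈ cb τ a ρ := ⟨F u, hFu, (hF u hu).1⟩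
    have hb := hbij a ρ hρ0 hρ1 hsub hnS (io τ' u) hu hmem
    obtain ⟨W, hW⟩ : ∃ W, W = CC (rat P Q) m (cb τ a ρ) (io τ' u) := ⟨_, rfl⟩
    rw [← hW] at hb
    have hWV : W ⊆ V := by
      have h4 : io τ' u ∈ CC (rat P Q) m (cb τ w (2 * R)) y := by
        rw [← hV]
        exact hu
      rw [hW, hV]
      exact cc_mono (image_mono hsub) h4
    have huW : io τ' u ∈ W := by
      rw [hW]
      exact cc_mem hmem
    have hWo : IsOpen W := by rw [hW]; exact cc_open hf m (cb_open τ a ρ) _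
    obtain ⟨g, hgd, hgi, hg⟩ := hol_branch hcop hd (τ' := τ') hWo (by
      intro x hx
      obtain ⟨u', h4, h5⟩ := hch x (hWV hx)
      refine ⟨u', ?_, h4⟩
      have h6 : ‖u'‖ ≤ ‖u' - u0‖ + ‖u0‖ := by
        have := norm_add_le (u' - u0) u0
        rwa [sub_add_cancel] at this
      linarith) hb
    have hgF : g (F u) = u := by
      obtain ⟨-, h4, h5⟩ := hg (F u) hFu
      apply io_inj τ'
      apply hb.injOn h4 huW
      rw [h5]
      exact (hF u hu).1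
    obtain ⟨-, h4, h5⟩ := hg a (mem_ball_self hρ0)
    have hga : io τ' (g a) ∈ V := hWV h4
    refine ⟨g a, hga, ?_, ?_⟩
    · apply io_inj τ
      rw [(hF (g a) hga).1, h5]
    · have h6 := hsmb τ' a ρ g hρ0 hsub hgd hgi (fun ζ hζ => ⟨(hg ζ hζ).1, (hg ζ hζ).2.2⟩) (F u) hua
      rw [hgF] at h6
      exact h6
  obtain ⟨T, hTc, hTV, hT⟩ := bdl (V := io τ' ⁻¹' V) (hVo.preimage (io_cont τ')) (by
    intro x hx z hz
    have h4 := hch2 x hx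
    have h5 := hch2 z hz
    have h6 : ‖x - z‖ ≤ ‖x - u0‖ + ‖u0 - z‖ := norm_sub_le_norm_sub_add_norm_sub _ _ _
    rw [norm_sub_rev u0 z] at h6
    linarith) hFc hR hprop hS'c hkF hρ hN hN' h3 h31 h2 hbr
  refine ⟨T.image (io τ'), ?_, ?_⟩
  · exact Finset.card_image_le.trans (hTc.trans (Nat.mul_le_mul_left k hNc))
  · intro x hx hxm
    obtain ⟨u, hu, -⟩ := hch x hx
    obtain ⟨z, hz, hzx⟩ := hxm
    have huV : io τ' u ∈ V := by rw [hu]; exact hx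
    have h4 : F u = z := by
      apply io_inj τ
      rw [(hF u huV).1, hu, hzx]
    obtain ⟨p, hp, hpu⟩ := hT u huV (by
      rw [h4, ← dist_eq_norm]
      exact mem_closedBall.1 hz)
    refine ⟨io τ' p, Finset.mem_image_of_mem _ hp, ?_⟩
    rw [← hu]
    refine (chord_io_le τ' p u).trans ?_
    rw [norm_sub_rev]
    exact hpu

end Pool.Agent.H44.RC
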