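import Pool.Agent.H44.RC.RCD
import Pool.Agent.H26.SF.BrB
import Pool.Agent.H84.UC.Sphere

/-!
# Module CHB: the chordal distance (H35/EX) as a metric

PROOFS. `chord_eq'` (H26/SF/BrB): `H35.EX.chord = H91.Fatou.chord`; so `ch_tri`, `ch_comm`, `ch_le_one` are `chord_triangle`, `chord_comm`, `dist_le_one` of H84/UC/Sphere. `ch_ball`: continuity of `chord` (`chord_cont`, `chord_nn`, `chord_zero` in H44/RR/CHC, `chord_pos` in H35/EX/Chord). `ch_nhds`: `exists_cball` (H91/Fatou),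
or compactness. `ch_unif`: with the metric instance `sphMetric` of H84/UC/Sphere (its topology is definitionally the one of `OnePoint ℂ`, its `dist` is `H91.Fatou.chord`) and `CompactSpace.uniformContinuous_of_continuous`; or by sequences. `ch_seq`: compactness of the sphere (it is first countable and compact: `IsCompact.tendsto_subseq`).
`ch_anti`: the antipode: `-1 / conj z`, `0 ↔ ∞` (or with unit vectors, `exists_unit`, `chord_unit`).
-/

set_option autoImplicit false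

open Filter Topology Polynomial Metric Set

namespace Pool.Agent.H44.RC

open Pool.Agent.H44.Fatou Pool.Agent.H32.BT Pool.Agent.H35.EX Pool.Agent.H44.RR
open Pool.Agent.H56.HR

open Pool.Agent.H84.UC (sphMetric dist_eq_chord)

private theorem dch (x y : OnePoint ℂ) : @dist _ sphMetric.toDist x y = chord x y := by
  rw [Pool.H26.SF.chord_eq']
  rfl

theorem ch_comm (x y : OnePoint ℂ) : chord x y = chord y x := by
  rw [← dch, ← dch]
  exact dist_comm x y

theorem ch_tri (x y z : OnePoint ℂ) : chord x z ≤ chord x y + chord y z := by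
  rw [← dch, ← dch, ← dch]
  exact dist_triangle x y z

theorem ch_le_one (x y : OnePoint ℂ) : chord x y ≤ 1 := by
  rw [← dch]
  exact Pool.Agent.H84.UC.dist_le_one x y

theorem ch_anti (x : OnePoint ℂ) : ∃ e, chord x e = 1 := by
  induction x using OnePoint.rec with
  | infty =>
    refine ⟨((0 : ℂ) : OnePoint ℂ), ?_⟩
    show 1 / √(1 + ‖(0 : ℂ)‖ ^ 2) = 1
    norm_num
  | coe z =>
    by_cases hz : z = 0
    · subst hz
      refine ⟨OnePoint.infty, ?_⟩
      show 1 / √(1 + ‖(0 : ℂ)‖ ^ 2) = 1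
      norm_num
    · have hn : 0 < ‖z‖ := norm_pos_iff.2 hz
      obtain ⟨w, hw⟩ : ∃ w : ℂ, w = -(1 / (starRingEnd ℂ z)) := ⟨_, rfl⟩
      refine ⟨(w : OnePoint ℂ), ?_⟩
      have hcz : starRingEnd ℂ z ≠ 0 := by
        rw [Ne, map_eq_zero]
        exact hz
      have hwn : ‖w‖ = 1 / ‖z‖ := by
        rw [hw, norm_neg, norm_div, norm_one, RCLike.norm_conj]
      have h1 : z - w = ((‖z‖ ^ 2 + 1 : ℝ) : ℂ) / starRingEnd ℂ z := by
        rw [hw, eq_div_iff hcz]
        have h2 : z * starRingEnd ℂ z = ((‖z‖ ^ 2 : ℝ) : ℂ) := by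
          rw [Complex.mul_conj, Complex.normSq_eq_norm_sq]
        push_cast at h2 ⊢
        rw [sub_mul, h2]
        field_simp
        ring
      have h3 : ‖z - w‖ = (‖z‖ ^ 2 + 1) / ‖z‖ := by
        rw [h1, norm_div, Complex.norm_real, RCLike.norm_conj, Real.norm_of_nonneg (by positivity)]
      show ‖z - w‖ / (√(1 + ‖z‖ ^ 2) * √(1 + ‖w‖ ^ 2)) = 1
      have h4 : √(1 + ‖w‖ ^ 2) = √(1 + ‖z‖ ^ 2) / ‖z‖ := by
        rw [hwn, show 1 + (1 / ‖z‖) ^ 2 = (1 + ‖z‖ ^ 2) / ‖z‖ ^ 2 by field_simp; ring,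
          Real.sqrt_div (by positivity), Real.sqrt_sq hn.le]
      have h5 : √(1 + ‖z‖ ^ 2) * √(1 + ‖z‖ ^ 2) = 1 + ‖z‖ ^ 2 := Real.mul_self_sqrt (by positivity)
      rw [h3, h4, mul_div_assoc', h5, div_div_div_cancel_right₀ hn.ne', add_comm,
        div_self (by positivity)]

theorem ch_contl (x : OnePoint ℂ) : Continuous fun y => chord x y :=
  chord_cont.comp (continuous_const.prodMk continuous_id)

theorem ch_ball (x : OnePoint ℂ) (r : ℝ) : IsOpen {y | chord x y < r} :=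
  isOpen_lt (chord_cont.comp (continuous_const.prodMk continuous_id)) continuous_const

theorem ch_cball (x : OnePoint ℂ) (r : ℝ) : IsClosed {y | chord x y ≤ r} :=
  isClosed_le (chord_cont.comp (continuous_const.prodMk continuous_id)) continuous_const

theorem ch_nhds {x : OnePoint ℂ} {U : Set (OnePoint ℂ)} (hU : U ∈ 𝓝 x) :
    ∃ r : ℝ, 0 < r ∧ {y | chord x y < r} ⊆ U := by
  obtain ⟨r, hr, h⟩ := (@Metric.mem_nhds_iff _ sphMetric.toPseudoMetricSpace x U).1 hU
  refine ⟨r, hr, fun y hy => h ?_⟩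
  show @dist _ sphMetric.toDist y x < r
  rw [dch, ch_comm]
  exact hy

theorem ch_tend {x : OnePoint ℂ} {u : ℕ → OnePoint ℂ} :
    Tendsto u atTop (𝓝 x) ↔ Tendsto (fun n => chord x (u n)) atTop (𝓝 0) := by
  constructor
  · intro h
    have h1 := ((ch_contl x).tendsto x).comp h
    rw [chord_zero] at h1
    exact h1
  · intro h
    rw [@Metric.tendsto_atTop _ _ sphMetric.toPseudoMetricSpace]
    intro ε hε
    obtain ⟨N, hN⟩ := eventually_atTop.1 (h.eventually (gt_mem_nhds hε))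
    refine ⟨N, fun n hn => ?_⟩
    rw [dch, ch_comm]
    exact hN n hn

theorem ch_seq (u : ℕ → OnePoint ℂ) : ∃ (x : OnePoint ℂ) (φ : ℕ → ℕ), StrictMono φ ∧
    Tendsto (u ∘ φ) atTop (𝓝 x) := by
  have : FirstCountableTopology (OnePoint ℂ) :=
    @UniformSpace.firstCountableTopology _ sphMetric.toUniformSpace _
  obtain ⟨x, -, φ, hφ, h⟩ := isCompact_univ.tendsto_subseq (x := u) (fun n => mem_univ (u n))
  exact ⟨x, φ, hφ, h⟩

theorem ch_unif {f : OnePoint ℂ → OnePoint ℂ} (hf : Continuous f) {ε : ℝ} (hε : 0 < ε) :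
    ∃ δ : ℝ, 0 < δ ∧ ∀ x y, chord x y < δ → chord (f x) (f y) < ε := by
  by_contra hcon
  push Not at hcon
  have h1 : ∀ n : ℕ, ∃ x y, chord x y < 1 / ((n : ℝ) + 1) ∧ ε ≤ chord (f x) (f y) := fun n =>
    hcon _ (by positivity)
  choose a b hab h2 using h1
  obtain ⟨x, φ, hφ, h3⟩ := ch_seq a
  have h4 : Tendsto (fun n => chord x (b (φ n))) atTop (𝓝 0) := by
    have h5 : Tendsto (fun n => chord x (a (φ n)) + 1 / (((φ n : ℕ) : ℝ) + 1)) atTop (𝓝 (0 + 0)) :=
      (ch_tend.1 h3).add ((tendsto_one_div_add_atTop_nhds_zero_nat (𝕜 := ℝ)).comp hφ.tendsto_atTop)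
    rw [add_zero] at h5
    refine squeeze_zero (fun n => chord_nn _ _) (fun n => ?_) h5
    exact (ch_tri _ (a (φ n)) _).trans (add_le_add_right (hab (φ n)).le _)
  have h6 : Tendsto (fun n => chord (f (a (φ n))) (f (b (φ n)))) atTop (𝓝 (chord (f x) (f x))) := by
    have h7 := (chord_cont.tendsto (f x, f x)).comp
      (((hf.tendsto x).comp h3).prodMk_nhds ((hf.tendsto x).comp (ch_tend.2 h4)))
    exact h7
  rw [chord_zero] at h6
  have h8 := ge_of_tendsto' h6 fun n => h2 (φ n)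
  linarith

/-- a number for a cover of the sphere by open sets -/
theorem ch_leb {U : OnePoint ℂ → Set (OnePoint ℂ)} (hU : ∀ x, U x ∈ 𝓝 x) :
    ∃ δ : ℝ, 0 < δ ∧ ∀ y, ∃ x, {z | chord y z < δ} ⊆ U x := by
  by_contra hcon
  push Not at hcon
  have h1 : ∀ n : ℕ, ∃ y, ∀ x, ¬ {z | chord y z < 1 / ((n : ℝ) + 1)} ⊆ U x := fun n =>
    hcon _ (by positivity)
  choose a ha using h1
  obtain ⟨x, φ, hφ, h3⟩ := ch_seq a
  obtain ⟨r, hr, hrU⟩ := ch_nhds (hU x)
  have h4 := ((ch_tend.1 h3).eventually (gt_mem_nhds (half_pos hr))).and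
    (((tendsto_one_div_add_atTop_nhds_zero_nat (𝕜 := ℝ)).comp hφ.tendsto_atTop).eventually
      (gt_mem_nhds (half_pos hr)))
  obtain ⟨n, h5, h6⟩ := h4.exists
  refine ha (φ n) x fun z hz => hrU ?_
  have h7 : chord (a (φ n)) z < 1 / (((φ n : ℕ) : ℝ) + 1) := hz
  have h8 : (1 : ℝ) / (((φ n : ℕ) : ℝ) + 1) < r / 2 := h6
  have h9 : chord x (a (φ n)) < r / 2 := h5
  show chord x z < r
  linarith [ch_tri x (a (φ n)) z]

end Pool.Agent.H44.RC
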