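import Pool.Agent.H44.RC.MANE
import Pool.Agent.H47.RJ.R2M
import Pool.Agent.H47.RJ.JT6

/-!
# Module FIN: Mañé's theorem in the form `ManeC`
-/

set_option autoImplicit false

open Filter Topology Polynomial Metric Set

namespace Pool.Agent.H44.RC

open Pool.Agent.H44.Fatou Pool.Agent.H32.BT Pool.Agent.H79.Eul Pool.Agent.H79.Par
open Pool.Agent.H35.EX Pool.Agent.H44.RR Pool.Agent.H56.HR

variable {d : ℕ} {v : E d}

theorem j6_of (hd : 2 ≤ d) (hcop : IsCoprime (pol v.1) (pol v.2))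
    (hdeg : max (pol v.1).natDegree (pol v.2).natDegree = d) : J6 (Rf v) := fun η hη =>
  Pool.Agent.H47.RJ.jt6 hd hcop hdeg η hη

theorem maneC_of (hd : 2 ≤ d) (hcop : IsCoprime (pol v.1) (pol v.2))
    (hdeg : max (pol v.1).natDegree (pol v.2).natDegree = d) (hF : FJ (Rf v)) :
    Pool.Agent.H47.RJ.ManeC (Rf v) := fun _ _ hLJ _ hR =>
  mane hcop (by omega) hR hLJ (j6_of hd hcop hdeg) hF

end Pool.Agent.H44.RC
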