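import Pool.Agent.H44.RC.LOCA
import Pool.Agent.H32.BT.Crit
import Pool.Agent.H80.AJ.Distort

/-!
# Module HOLB: univalent inverse branches are holomorphic in the charts

PROOF. `f^[m]` is continuous (`rat_continuous`) and open (`rat_open`, `open_iterate` in H91/Fatou/Branch). For `ζ ∈ ball z t` let `g ζ` be the number with `io τ' (g ζ) ∈ W`, `f^[m] (io τ' (g ζ)) = io τ ζ` (`hb.surjOn`, `hWr`; unique). `g` is continuous on the ball: for an open `O`, `{ζ | g ζ ∈ O}` is, in the ball, the preimage under `io τ` of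
the open set `f^[m] '' (W ∩ io τ' '' O)` (`hb.injOn`). It is injective (`io_inj`). Fix `ζ0`, `u0 = g ζ0`. `iter_chart`: `G` analytic at `u0`, `G u0 = ζ0`, `f^[m] (io τ' u) = io τ (G u)` near `u0`; so `G (g ζ) = ζ` near `ζ0`. `G` is injective near `u0` (`io τ' u ∈ W` near `u0`), so `deriv G u0 ≠ 0` (`deriv_ne`, H80/AJ/Distort, on a small ball
about `u0`), and `HasDerivAt.of_local_left_inverse` gives that `g` is differentiable at `ζ0` (see the proof of `br_hol` in H44/RG/PLH).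
-/

set_option autoImplicit false

open Filter Topology Polynomial Metric Set

namespace Pool.Agent.H44.RC

open Pool.Agent.H44.Fatou Pool.Agent.H32.BT Pool.Agent.H35.EX Pool.Agent.H44.RR
open Pool.Agent.H56.HR

theorem hol_branch {P Q : Polynomial ℂ} (hcop : IsCoprime P Q)
    (hd : 1 ≤ max P.natDegree Q.natDegree) {m : ℕ} {τ τ' : Bool} {z : ℂ} {t : ℝ}
    {W : Set (OnePoint ℂ)} (hW : IsOpen W) (hWr : ∀ x ∈ W, ∃ u : ℂ, ‖u‖ ≤ 3 ∧ io τ' u = x)
    (hb : BijOn (rat P Q)^[m] W (cb τ z t)) :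
    ∃ g : ℂ → ℂ, DifferentiableOn ℂ g (ball z t) ∧ InjOn g (ball z t) ∧
      ∀ ζ ∈ ball z t, ‖g ζ‖ ≤ 3 ∧ io τ' (g ζ) ∈ W ∧ (rat P Q)^[m] (io τ' (g ζ)) = io τ ζ := by
  classical
  have hopen : IsOpenMap (rat P Q)^[m] := Pool.Agent.H91.Fatou.open_iterate (rat_open hcop hd) m
  have hex : ∀ ζ : ℂ, ∃ u : ℂ, ζ ∈ ball z t →
      ‖u‖ ≤ 3 ∧ io τ' u ∈ W ∧ (rat P Q)^[m] (io τ' u) = io τ ζ := by
    intro ζ
    by_cases hζ : ζ ∈ ball z t
    · obtain ⟨x, hx, hxe⟩ := hb.surjOn (mem_image_of_mem (io τ) hζ : io τ ζ ∈ cb τ z t)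
      obtain ⟨u, hu, hux⟩ := hWr x hx
      exact ⟨u, fun _ => ⟨hu, by rw [hux]; exact hx, by rw [hux]; exact hxe⟩⟩
    · exact ⟨0, fun h => absurd h hζ⟩
  choose g hg using hex
  have hgi : InjOn g (ball z t) := by
    intro a ha b hb' h
    apply io_inj τ
    rw [← (hg a ha).2.2, ← (hg b hb').2.2, h]
  have hgc : ∀ ζ ∈ ball z t, ContinuousAt g ζ := by
    intro ζ hζ
    rw [ContinuousAt, (nhds_basis_opens (g ζ)).tendsto_right_iff]
    rintro O ⟨hO1, hO2⟩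
    have h1 : IsOpen (W ∩ io τ' '' O) := hW.inter ((io_emb τ').isOpenMap O hO2)
    have h2 : IsOpen ((rat P Q)^[m] '' (W ∩ io τ' '' O)) := hopen _ h1
    have h3 : io τ ζ ∈ (rat P Q)^[m] '' (W ∩ io τ' '' O) :=
      ⟨io τ' (g ζ), ⟨(hg ζ hζ).2.1, mem_image_of_mem _ hO1⟩, (hg ζ hζ).2.2⟩
    have h4 : ∀ᶠ a in 𝓝 ζ, io τ a ∈ (rat P Q)^[m] '' (W ∩ io τ' '' O) :=
      (io_cont τ).continuousAt.eventually (h2.mem_nhds h3)
    filter_upwards [h4, isOpen_ball.mem_nhds hζ] with a ha hab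
    obtain ⟨x, ⟨hxW, u, huO, hux⟩, hxa⟩ := ha
    have h5 : io τ' (g a) = x := hb.injOn (hg a hab).2.1 hxW (by rw [(hg a hab).2.2, hxa])
    have h6 : g a = u := io_inj τ' (by rw [h5, hux])
    rw [h6]
    exact huO
  refine ⟨g, ?_, hgi, hg⟩
  intro ζ0 hζ0
  obtain ⟨G, hGa, hG0, hGe⟩ := iter_chart hcop hd (hg ζ0 hζ0).2.2
  have hc0 : ContinuousAt g ζ0 := hgc ζ0 hζ0
  have hbn : ball z t ∈ 𝓝 ζ0 := isOpen_ball.mem_nhds hζ0
  have hGg : ∀ᶠ ζ in 𝓝 ζ0, G (g ζ) = ζ := by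
    filter_upwards [hbn, hc0.eventually hGe] with ζ hζ h1
    apply io_inj τ
    rw [← h1, (hg ζ hζ).2.2]
  have hWn : ∀ᶠ u in 𝓝 (g ζ0), io τ' u ∈ W :=
    (io_cont τ').continuousAt.eventually (hW.mem_nhds (hg ζ0 hζ0).2.1)
  obtain ⟨r, hr, hball⟩ := Metric.eventually_nhds_iff_ball.1
    ((hGe.and hWn).and hGa.eventually_analyticAt)
  have hGd : DifferentiableOn ℂ G (ball (g ζ0) r) := fun u hu =>
    (hball u hu).2.differentiableAt.differentiableWithinAt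
  have hGi : InjOn G (ball (g ζ0) r) := by
    intro u hu u' hu' h
    have h1 := (hball u hu).1.1
    have h2 := (hball u' hu').1.1
    apply io_inj τ'
    apply hb.injOn (hball u hu).1.2 (hball u' hu').1.2
    rw [h1, h2, h]
  have hd1 : 0 < ‖deriv G (g ζ0)‖ := Pool.Agent.H80.AJ.deriv_ne hr hGd hGi
    (mem_closedBall_self (by positivity))
  have hGder : HasDerivAt G (deriv G (g ζ0)) (g ζ0) :=
    (hGd.differentiableAt (isOpen_ball.mem_nhds (mem_ball_self hr))).hasDerivAt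
  exact (HasDerivAt.of_local_left_inverse hc0 hGder (norm_pos_iff.1 hd1)
    hGg).differentiableAt.differentiableWithinAt

end Pool.Agent.H44.RC
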