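import Pool.Agent.H44.RC.HUL

/-!
# Module HUC: the hull of a connected set is connected

PROOF. `Hull K` is the union of `K` and of the sets `K ∪ W`, `W = connectedComponentIn Kᶜ x`, `x ∈ Hull K \ K` (`hull_comp`, `hull_sub`), all of them contain a fixed point of `K` (`isPreconnected_sUnion` or `isPreconnected_of_forall`). `K ∪ W` is preconnected: `W` is open (`lcs`), nonempty, and `closure W` meets `K`: otherwise `closure W ⊆ Kᶜ` is
preconnected and contains `x`, so `closure W ⊆ W`, `W` is clopen, `W` is everything (the sphere is connected: `PreconnectedSpace (OnePoint ℂ)`), but `K` is nonempty. For `p ∈ closure W ∩ K`: `insert p W` is preconnected (`IsPreconnected.subset_closure`) and `K ∪ insert p W` is preconnected (`IsPreconnected.union p`).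
-/

set_option autoImplicit false

open Filter Topology Polynomial Metric Set

namespace Pool.Agent.H44.RC

open Pool.Agent.H44.Fatou Pool.Agent.H32.BT Pool.Agent.H35.EX Pool.Agent.H44.RR
open Pool.Agent.H56.HR

theorem hull_conn {K : Set (OnePoint ℂ)} (hK : IsClosed K) (hKc : IsPreconnected K)
    (hne : K.Nonempty) : IsPreconnected (Hull K) := by
  obtain ⟨p0, hp0⟩ := hne
  refine isPreconnected_of_forall p0 fun y hy => ?_
  by_cases hyK : y ∈ K
  · exact ⟨K, hull_sub K, hp0, hyK, hKc⟩
  · have := lcs
    have hWo : IsOpen (connectedComponentIn Kᶜ y) := hK.isOpen_compl.connectedComponentIn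
    have hyW : y ∈ connectedComponentIn Kᶜ y := mem_connectedComponentIn hyK
    have hWp : IsPreconnected (connectedComponentIn Kᶜ y) := isPreconnected_connectedComponentIn
    obtain ⟨p, hp1, hp2⟩ : ∃ p, p ∈ closure (connectedComponentIn Kᶜ y) ∧ p ∈ K := by
      by_contra hcon
      push Not at hcon
      have h1 : closure (connectedComponentIn Kᶜ y) ⊆ connectedComponentIn Kᶜ y :=
        hWp.closure.subset_connectedComponentIn (subset_closure hyW) fun z hz => hcon z hz
      have h2 : IsClopen (connectedComponentIn Kᶜ y) :=
        ⟨closure_subset_iff_isClosed.1 h1, hWo⟩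
      rcases isClopen_iff.1 h2 with h3 | h3
      · rw [h3] at hyW
        exact hyW
      · have h4 : p0 ∈ connectedComponentIn Kᶜ y := by
          rw [h3]
          exact mem_univ _
        exact connectedComponentIn_subset _ _ h4 hp0
    have h1 : IsPreconnected (insert p (connectedComponentIn Kᶜ y)) :=
      hWp.subset_closure (subset_insert _ _) (insert_subset hp1 subset_closure)
    refine ⟨K ∪ insert p (connectedComponentIn Kᶜ y), ?_, Or.inl hp0,
      Or.inr (mem_insert_of_mem _ hyW), hKc.union p hp2 (mem_insert _ _) h1⟩
    refine union_subset (hull_sub K) (insert_subset (hull_sub K hp2) (hull_comp hy))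

end Pool.Agent.H44.RC
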