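import Pool.Agent.H44.RC.IOC

/-!
# Module HUD: the complement of a disc is connected

PROOFS. `ext_conn`: for `τ = true` the complement of `io true '' closedBall w r` is the image of `ball 0 (1 / r)` (if `r = 0`: of the whole plane) under the continuous map `u ↦ φ.symm u`, `φ` the homeomorphism `x ↦ 1 / (x - w)` of the sphere (`exists_mob w`, H32/BT/Mob): `x ∉ closedBall w r` iff `φ x` is finite and of norm `< 1 / r`. For `τ = false`:
`io false z = φ0 (io true z)` with the homeomorphism `φ0 x = 1 / x` (`exists_mob 0`), so the complement of `io false '' closedBall w r` is the image of the complement of `io true '' closedBall w r` under `φ0`.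
`ball_ext`: `a = io τ w`, `‖w‖ ≤ 1` (`io_ex`); `κ = r ^ 2 (1 + ‖w‖ ^ 2) ≤ 1 / 8 < 1`. If `0 ≤ r`: by `chord_io`, `chord a (io τ z) ≤ r` iff `‖z - w‖ ^ 2 ≤ κ (1 + ‖z‖ ^ 2)` iff `‖z - w / (1 - κ)‖ ^ 2 ≤ κ (1 + ‖w‖ ^ 2 - κ) / (1 - κ) ^ 2`; the point which is not in the range of `io τ` is at distance `1 / √(1 + ‖w‖ ^ 2) ≥ 1 / √2 > r` from `a`.
So the set is the complement of `io τ '' closedBall w' r'`: `ext_conn`. (Another way: `{z | r < chord a z}` is an open chordal ball, the image of a disc about `0` under a rotation of the sphere.) If `r < 0` the set is everything: connected (the closure of the range of `io true`, or `ext_conn` twice; `PreconnectedSpace (OnePoint ℂ)` may be found by instance search).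
-/

set_option autoImplicit false

open Filter Topology Polynomial Metric Set

namespace Pool.Agent.H44.RC

open Pool.Agent.H44.Fatou Pool.Agent.H32.BT Pool.Agent.H35.EX Pool.Agent.H44.RR
open Pool.Agent.H56.HR

private theorem hud_true (z : ℂ) : io true z = (z : OnePoint ℂ) := by
  unfold io
  rw [if_pos rfl]

private theorem hud_false {z : ℂ} (hz : z ≠ 0) : io false z = ((z⁻¹ : ℂ) : OnePoint ℂ) := by
  unfold io recip
  rw [if_neg (by simp), if_neg hz]

private theorem hud_zero : io false 0 = OnePoint.infty := by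
  unfold io recip
  rw [if_neg (by simp), if_pos rfl]

private theorem hud_ext (w : ℂ) {r : ℝ} (hr : 0 ≤ r) :
    IsPreconnected (io true '' closedBall w r)ᶜ := by
  obtain ⟨φ, hφ, hφs, hφi, -⟩ := exists_mob w
  have hS : IsPreconnected {u : ℂ | r * ‖u‖ < 1} := by
    rcases hr.eq_or_lt with h0 | h0
    · have h1 : {u : ℂ | r * ‖u‖ < 1} = univ := by
        ext u
        simp [← h0]
      rw [h1]
      exact isPreconnected_univ
    · have h1 : {u : ℂ | r * ‖u‖ < 1} = ball 0 (1 / r) := by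
        ext u
        rw [mem_ball_zero_iff, lt_div_iff₀ h0, mul_comm]
        rfl
      rw [h1]
      exact (convex_ball 0 (1 / r)).isPreconnected
  have h2 : (io true '' closedBall w r)ᶜ =
      φ.symm '' (((↑) : ℂ → OnePoint ℂ) '' {u : ℂ | r * ‖u‖ < 1}) := by
    ext x
    have h3 : x ∈ φ.symm '' (((↑) : ℂ → OnePoint ℂ) '' {u : ℂ | r * ‖u‖ < 1}) ↔
        φ x ∈ ((↑) : ℂ → OnePoint ℂ) '' {u : ℂ | r * ‖u‖ < 1} := by
      constructor
      · rintro ⟨y, hy, rfl⟩
        rw [φ.apply_symm_apply]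
        exact hy
      · intro h
        exact ⟨φ x, h, φ.symm_apply_apply x⟩
    rw [h3]
    induction x using OnePoint.rec with
    | infty =>
      rw [hφi]
      constructor
      · intro _
        exact ⟨0, by simp, rfl⟩
      · rintro - ⟨z, -, hz⟩
        rw [hud_true] at hz
        exact OnePoint.coe_ne_infty _ hz
    | coe z =>
      have h4 : (z : OnePoint ℂ) ∈ io true '' closedBall w r ↔ ‖z - w‖ ≤ r := by
        constructor
        · rintro ⟨y, hy, hyz⟩
          rw [hud_true] at hyz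
          rw [← OnePoint.coe_eq_coe.1 hyz]
          exact mem_closedBall_iff_norm.1 hy
        · intro h
          exact ⟨z, mem_closedBall_iff_norm.2 h, hud_true z⟩
      rw [mem_compl_iff, h4]
      by_cases hz : z = w
      · subst hz
        rw [hφs]
        constructor
        · intro h
          exact absurd (by rw [sub_self, norm_zero]; exact hr) h
        · rintro ⟨u, -, hu⟩
          exact absurd hu (OnePoint.coe_ne_infty u)
      · have h5 : 0 < ‖z - w‖ := norm_pos_iff.2 (sub_ne_zero.2 hz)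
        rw [hφ z hz]
        have h6 : ((((z - w)⁻¹ : ℂ) : OnePoint ℂ) ∈
            ((↑) : ℂ → OnePoint ℂ) '' {u : ℂ | r * ‖u‖ < 1}) ↔ r * ‖(z - w)⁻¹‖ < 1 := by
          constructor
          · rintro ⟨u, hu, hu2⟩
            rw [← OnePoint.coe_eq_coe.1 hu2]
            exact hu
          · intro h
            exact ⟨_, h, rfl⟩
        rw [h6, norm_inv, ← div_eq_mul_inv, div_lt_one h5, not_le]
  rw [h2]
  exact (hS.image _ OnePoint.continuous_coe.continuousOn).image _ φ.symm.continuous.continuousOn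

private theorem hud_range {τ : Bool} {w : ℂ} (hw : ‖w‖ ≤ 1) {x : OnePoint ℂ}
    (hx : chord (io τ w) x ≤ 1 / 4) : ∃ z : ℂ, io τ z = x := by
  have hw2 : ‖w‖ ^ 2 ≤ 1 := by nlinarith [norm_nonneg w]
  cases τ with
  | true =>
    induction x using OnePoint.rec with
    | infty =>
      exfalso
      rw [hud_true] at hx
      have h1 : 1 / √(1 + ‖w‖ ^ 2) ≤ 1 / 4 := hx
      have h2 : √(1 + ‖w‖ ^ 2) < 4 := by
        rw [Real.sqrt_lt' (by norm_num)]
        linarith
      have h3 : 1 / 4 < 1 / √(1 + ‖w‖ ^ 2) := one_div_lt_one_div_of_lt (by positivity) h2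
      linarith
    | coe z => exact ⟨z, hud_true z⟩
  | false =>
    induction x using OnePoint.rec with
    | infty => exact ⟨0, hud_zero⟩
    | coe z =>
      by_cases hz : z = 0
      · exfalso
        subst hz
        by_cases hw0 : w = 0
        · subst hw0
          rw [hud_zero] at hx
          have h1 : 1 / √(1 + ‖(0 : ℂ)‖ ^ 2) ≤ 1 / 4 := hx
          norm_num at h1
        · rw [hud_false hw0] at hx
          have h1 : ‖w⁻¹ - 0‖ / (√(1 + ‖w⁻¹‖ ^ 2) * √(1 + ‖(0 : ℂ)‖ ^ 2)) ≤ 1 / 4 := hx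
          have h0 : 0 < ‖w‖ := norm_pos_iff.2 hw0
          have h2 : 1 ≤ ‖w⁻¹‖ := by
            rw [norm_inv]
            exact (one_le_inv₀ h0).2 hw
          have h3 : √(1 + ‖(0 : ℂ)‖ ^ 2) = 1 := by norm_num
          rw [sub_zero, h3, mul_one, div_le_iff₀ (by positivity)] at h1
          have h4 : √(1 + ‖w⁻¹‖ ^ 2) < 4 * ‖w⁻¹‖ := by
            rw [Real.sqrt_lt' (by positivity)]
            nlinarith
          linarith
      · refine ⟨z⁻¹, ?_⟩
        rw [hud_false (inv_ne_zero hz), inv_inv]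

private theorem hud_alg {a b x y κ c q : ℝ} (hκ : κ < 1) (hc : c = 1 / (1 - κ))
    (hq : q = κ * (1 + (a ^ 2 + b ^ 2) - κ) / (1 - κ) ^ 2) :
    (a - x) ^ 2 + (b - y) ^ 2 ≤ κ * (1 + (x ^ 2 + y ^ 2)) ↔
      (x - c * a) ^ 2 + (y - c * b) ^ 2 ≤ q := by
  have h0 : 0 < 1 - κ := by linarith
  have h1 : (a - x) ^ 2 + (b - y) ^ 2 - κ * (1 + (x ^ 2 + y ^ 2)) =
      (1 - κ) * ((x - c * a) ^ 2 + (y - c * b) ^ 2 - q) := by
    rw [hc, hq]
    field_simp
    ring
  rw [← sub_nonpos, h1, ← sub_nonpos (b := q)]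
  constructor
  · intro h
    by_contra hcon
    push Not at hcon
    have := mul_pos h0 hcon
    linarith
  · intro h
    have := mul_nonneg h0.le (neg_nonneg.2 h)
    linarith

private theorem hud_disc (τ : Bool) {w : ℂ} (hw : ‖w‖ ≤ 1) {r : ℝ} (hr0 : 0 ≤ r)
    (hr : r ≤ 1 / 4) : ∃ (w' : ℂ) (r' : ℝ), 0 ≤ r' ∧
      {z | r < chord (io τ w) z} = (io τ '' closedBall w' r')ᶜ := by
  have hw2 : ‖w‖ ^ 2 ≤ 1 := by nlinarith [norm_nonneg w]
  obtain ⟨κ, hκ⟩ : ∃ κ : ℝ, κ = r ^ 2 * (1 + ‖w‖ ^ 2) := ⟨_, rfl⟩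
  have hκ0 : 0 ≤ κ := by rw [hκ]; positivity
  have hκ1 : κ < 1 := by
    rw [hκ]
    nlinarith [sq_nonneg r, sq_nonneg ‖w‖, mul_nonneg hr0 (sub_nonneg.2 hr)]
  obtain ⟨c, hc⟩ : ∃ c : ℝ, c = 1 / (1 - κ) := ⟨_, rfl⟩
  obtain ⟨q, hq⟩ : ∃ q : ℝ, q = κ * (1 + (w.re ^ 2 + w.im ^ 2) - κ) / (1 - κ) ^ 2 := ⟨_, rfl⟩
  have hnw : ∀ z : ℂ, ‖z‖ ^ 2 = z.re ^ 2 + z.im ^ 2 := by
    intro z
    rw [← Complex.normSq_eq_norm_sq, Complex.normSq_apply]
    ring
  have hq0 : 0 ≤ q := by
    rw [hq]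
    have h1 : 0 ≤ 1 + (w.re ^ 2 + w.im ^ 2) - κ := by nlinarith [sq_nonneg w.re, sq_nonneg w.im]
    positivity
  refine ⟨(c : ℂ) * w, √q, Real.sqrt_nonneg q, ?_⟩
  have key : ∀ z : ℂ, chord (io τ w) (io τ z) ≤ r ↔ ‖z - (c : ℂ) * w‖ ≤ √q := by
    intro z
    rw [chord_io, div_le_iff₀ (by positivity), Real.le_sqrt (norm_nonneg _) hq0, hnw (z - (c : ℂ) * w)]
    have h1 : (z - (c : ℂ) * w).re = z.re - c * w.re := by simp
    have h2 : (z - (c : ℂ) * w).im = z.im - c * w.im := by simp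
    rw [h1, h2, ← hud_alg hκ1 hc hq]
    have h3 : ‖w - z‖ ^ 2 = (w.re - z.re) ^ 2 + (w.im - z.im) ^ 2 := by
      rw [hnw, Complex.sub_re, Complex.sub_im]
    have h4 : (r * (√(1 + ‖w‖ ^ 2) * √(1 + ‖z‖ ^ 2))) ^ 2 = κ * (1 + (z.re ^ 2 + z.im ^ 2)) := by
      rw [mul_pow, mul_pow, Real.sq_sqrt (by positivity), Real.sq_sqrt (by positivity), hκ, hnw z]
      ring
    rw [← h3, ← h4]
    exact (pow_le_pow_iff_left₀ (norm_nonneg _) (by positivity) two_ne_zero).symm
  ext x
  rw [mem_compl_iff, mem_setOf_eq, ← not_le, not_iff_not]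
  constructor
  · intro hx
    obtain ⟨z, rfl⟩ := hud_range hw (hx.trans hr)
    exact ⟨z, mem_closedBall_iff_norm.2 ((key z).1 hx), rfl⟩
  · rintro ⟨z, hz, rfl⟩
    exact (key z).2 (mem_closedBall_iff_norm.1 hz)

theorem ext_conn (τ : Bool) (w : ℂ) {r : ℝ} (hr : 0 ≤ r) :
    IsPreconnected (io τ '' closedBall w r)ᶜ := by
  cases τ with
  | true => exact hud_ext w hr
  | false =>
    obtain ⟨φ, hφ, hφs, -, -⟩ := exists_mob 0
    have h1 : ∀ z : ℂ, io false z = φ (io true z) := by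
      intro z
      rw [hud_true]
      by_cases hz : z = 0
      · rw [hz, hφs, hud_zero]
      · rw [hφ z hz, hud_false hz, sub_zero]
    have h2 : io false '' closedBall w r = φ '' (io true '' closedBall w r) := by
      rw [image_image]
      exact image_congr fun z _ => h1 z
    rw [h2, ← image_compl_eq φ.bijective]
    exact (hud_ext w hr).image _ φ.continuous.continuousOn

theorem ball_ext (a : OnePoint ℂ) {r : ℝ} (hr : r ≤ 1 / 4) : IsPreconnected {z | r < chord a z} := by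
  rcases lt_or_ge r 0 with h0 | h0
  · have h1 : {z | r < chord a z} = univ := by
      ext z
      simp only [mem_setOf_eq, mem_univ, iff_true]
      exact lt_of_lt_of_le h0 (chord_nn a z)
    rw [h1]
    exact isPreconnected_univ
  · obtain ⟨τ, w, hw, rfl⟩ := io_ex a
    obtain ⟨w', r', hr', h1⟩ := hud_disc τ hw h0 hr
    rw [h1]
    exact ext_conn τ w' hr'

end Pool.Agent.H44.RC
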