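import Pool.Agent.H44.RC.HUD
import Pool.Agent.H44.RC.CCO

/-!
# Module HUL: hulls

`Hull K = {x | ∀ e, (∀ y ∈ K, 1 / 2 ≤ chord y e) → x ∉ connectedComponentIn Kᶜ e}`. PROOFS. `hull_sub`: `connectedComponentIn Kᶜ e ⊆ Kᶜ`. `hull_empty`: `connectedComponentIn univ e = univ` (`PreconnectedSpace (OnePoint ℂ)`; instance, or from `ball_ext` with `r = -1`). `hull_ball`: let `r < chord a x`. Let `e` be the antipode of `a` (`ch_anti`):
`chord y e ≥ 1 - 1 / 4` for `y ∈ K`, and `{z | r < chord a z}` is preconnected (`ball_ext`), contained in `Kᶜ` and contains `e` and `x`: `x ∈ connectedComponentIn Kᶜ e`, so `x ∉ Hull K`. `hull_disc`: `K` is compact in the open disc, so `K ⊆ io τ '' closedBall w r'` with `0 ≤ r' < r` (the function `‖z - w‖` has a maximum on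
`io τ ⁻¹' K`, which is compact: `io_emb`, `K ⊆ range`; for `K = ∅`: `hull_empty`). If `x ∉ cb τ w r`: `e` = antipode of `io τ w`: `chord (io τ w) y ≤ r ≤ 1 / 4` for `y ∈ K` (`chord_io_le`), `e ∉ io τ '' closedBall w r'`, and `x` is not in it either: `ext_conn`. `hull_closed`: every `connectedComponentIn Kᶜ e` is open (`lcs`,
`IsOpen.connectedComponentIn`). `hull_comp`: if `z ∈ connectedComponentIn Kᶜ x` were in `connectedComponentIn Kᶜ e` then the two components are equal (`connectedComponentIn_eq`) and contain `x` (`x ∈ Kᶜ` because the component is not empty).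
-/

set_option autoImplicit false

open Filter Topology Polynomial Metric Set

namespace Pool.Agent.H44.RC

open Pool.Agent.H44.Fatou Pool.Agent.H32.BT Pool.Agent.H35.EX Pool.Agent.H44.RR
open Pool.Agent.H56.HR

theorem hull_sub (K : Set (OnePoint ℂ)) : K ⊆ Hull K := by
  intro x hx e _ hxe
  exact connectedComponentIn_subset _ _ hxe hx

theorem hull_empty : Hull (∅ : Set (OnePoint ℂ)) = ∅ := by
  rw [eq_empty_iff_forall_notMem]
  intro x hx
  exact hx x (fun y hy => absurd hy (notMem_empty y)) (mem_connectedComponentIn (notMem_empty x))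

theorem hull_ball {K : Set (OnePoint ℂ)} {a : OnePoint ℂ} {r : ℝ} (hr : r ≤ 1 / 4)
    (hK : ∀ y ∈ K, chord a y ≤ r) : ∀ x ∈ Hull K, chord a x ≤ r := by
  intro x hx
  by_contra hcon
  push Not at hcon
  obtain ⟨e, he⟩ := ch_anti a
  refine hx e (fun y hy => ?_) ?_
  · have h1 := ch_tri a y e
    have h2 := hK y hy
    linarith
  · have h1 : {z | r < chord a z} ⊆ Kᶜ := fun z hz hzK => absurd (hK z hzK) (not_le.2 hz)
    have h2 : e ∈ {z | r < chord a z} := by
      show r < chord a e
      rw [he]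
      linarith
    exact (ball_ext a hr).subset_connectedComponentIn h2 h1 hcon

theorem hull_disc {K : Set (OnePoint ℂ)} {τ : Bool} {w : ℂ} {r : ℝ} (hr : 0 < r) (hr1 : r ≤ 1 / 4)
    (hK : IsCompact K) (hKs : K ⊆ cb τ w r) : Hull K ⊆ cb τ w r := by
  rcases K.eq_empty_or_nonempty with hne | hne
  · rw [hne, hull_empty]
    exact empty_subset _
  · have hKr : K ⊆ range (io τ) := hKs.trans (image_subset_range _ _)
    have h1 : IsCompact (io τ ⁻¹' K) := ((io_emb τ).isInducing.isCompact_preimage_iff hKr).2 hK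
    have h2 : (io τ ⁻¹' K).Nonempty := by
      obtain ⟨y, hy⟩ := hne
      obtain ⟨z, rfl⟩ := hKr hy
      exact ⟨z, hy⟩
    obtain ⟨z0, hz0, hmax⟩ := h1.exists_isMaxOn h2
      (f := fun z => ‖z - w‖) (by fun_prop)
    have h3 : ‖z0 - w‖ < r := by
      obtain ⟨z1, hz1, hz2⟩ := hKs hz0
      rw [← io_inj τ hz2]
      exact mem_ball_iff_norm.1 hz1
    have h4 : K ⊆ io τ '' closedBall w ‖z0 - w‖ := by
      intro y hy
      obtain ⟨z, rfl⟩ := hKr hy
      exact ⟨z, mem_closedBall_iff_norm.2 (hmax hy), rfl⟩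
    intro x hx
    by_contra hcon
    obtain ⟨e, he⟩ := ch_anti (io τ w)
    refine hx e (fun y hy => ?_) ?_
    · obtain ⟨z, hz, rfl⟩ := hKs hy
      have h5 := ch_tri (io τ w) (io τ z) e
      have h6 := chord_io_le τ w z
      have h7 := mem_ball_iff_norm.1 hz
      rw [norm_sub_rev] at h7
      linarith
    · have h5 : (io τ '' closedBall w ‖z0 - w‖)ᶜ ⊆ Kᶜ := compl_subset_compl.2 h4
      have h6 : e ∈ (io τ '' closedBall w ‖z0 - w‖)ᶜ := by
        rintro ⟨z, hz, rfl⟩
        have h7 := chord_io_le τ w z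
        have h8 := mem_closedBall_iff_norm.1 hz
        rw [norm_sub_rev] at h8
        linarith
      have h7 : x ∈ (io τ '' closedBall w ‖z0 - w‖)ᶜ := by
        rintro ⟨z, hz, rfl⟩
        apply hcon
        exact ⟨z, closedBall_subset_ball h3 hz, rfl⟩
      exact (ext_conn τ w (norm_nonneg _)).subset_connectedComponentIn h6 h5 h7

theorem hull_closed {K : Set (OnePoint ℂ)} (hK : IsClosed K) : IsClosed (Hull K) := by
  have h1 : Hull K = ⋂ e, ⋂ (_ : ∀ y ∈ K, 1 / 2 ≤ chord y e), (connectedComponentIn Kᶜ e)ᶜ := by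
    ext x
    rw [mem_iInter₂]
    exact Iff.rfl
  rw [h1]
  have := lcs
  exact isClosed_iInter fun e => isClosed_iInter fun _ =>
    (hK.isOpen_compl.connectedComponentIn).isClosed_compl

/-- the other components of the complement are in the hull -/
theorem hull_comp {K : Set (OnePoint ℂ)} {x : OnePoint ℂ} (hx : x ∈ Hull K) :
    connectedComponentIn Kᶜ x ⊆ Hull K := by
  intro z hz e he hze
  have h1 : x ∈ Kᶜ := connectedComponentIn_nonempty_iff.1 ⟨z, hz⟩
  have h2 : connectedComponentIn Kᶜ x = connectedComponentIn Kᶜ z := connectedComponentIn_eq hz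
  have h3 : connectedComponentIn Kᶜ e = connectedComponentIn Kᶜ z := connectedComponentIn_eq hze
  refine hx e he ?_
  rw [h3, ← h2]
  exact mem_connectedComponentIn h1

end Pool.Agent.H44.RC
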