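import Pool.Agent.H44.RC.CHB
import Pool.Agent.H32.BT.Mob

/-!
# Module IOC: the two charts `io true z = z`, `io false z = 1 / z`

PROOFS. `io false z = φ z` for the homeomorphism `x ↦ 1 / x` of the sphere (`exists_mob 0`, H32/BT/Mob), so `io τ` is an open embedding (`OnePoint.isOpenEmbedding_coe`). `chord_io`: cases (`τ = false`, `z = 0` or `w = 0`: `1 / √(1 + ‖w⁻¹‖ ^ 2) = ‖w‖ / √(1 + ‖w‖ ^ 2)`). `io_ex`: `x = ∞`: `io false 0`; `‖z‖ ≤ 1`: `io true z`; otherwise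
`io false z⁻¹`. `io_range`: the point which is not in the range of `io τ` is at distance `1 / √(1 + ‖w‖ ^ 2) ≥ 1 / √5` from `io τ w`. `io_near`: so `x = io τ z`; with `t = chord` `< 1 / 8`: the distance of `io τ z` to the omitted point is at least `1 / √5 - 1 / 8 ≥ 0.32`, so `√(1 + ‖z‖ ^ 2) ≤ 3.2` and `‖z - w‖ ≤ t * 3.2 * √5 ≤ 8 t`.
`cb_open`, `cb_conn`, `cbar_cpt`: images of open, convex (preconnected), compact sets. `cb_ball`: `io_near`.
-/

set_option autoImplicit false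

open Filter Topology Polynomial Metric Set

namespace Pool.Agent.H44.RC

open Pool.Agent.H44.Fatou Pool.Agent.H32.BT Pool.Agent.H35.EX Pool.Agent.H44.RR
open Pool.Agent.H56.HR

private theorem io_tr (z : ℂ) : io true z = (z : OnePoint ℂ) := rfl

private theorem io_f0 : io false 0 = OnePoint.infty := by
  show recip 0 = _
  unfold recip
  rw [if_pos rfl]

private theorem io_fz {z : ℂ} (hz : z ≠ 0) : io false z = ((z⁻¹ : ℂ) : OnePoint ℂ) := by
  show recip z = _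
  unfold recip
  rw [if_neg hz]

theorem io_emb (τ : Bool) : IsOpenEmbedding (io τ) := by
  cases τ with
  | true => exact OnePoint.isOpenEmbedding_coe
  | false =>
    obtain ⟨φ, h1, h2, -, -⟩ := exists_mob 0
    have h : io false = φ ∘ (fun z : ℂ => (z : OnePoint ℂ)) := by
      funext z
      show io false z = φ (z : OnePoint ℂ)
      by_cases hz : z = 0
      · rw [hz, io_f0, h2]
      · rw [io_fz hz, h1 z hz, sub_zero]
    rw [h]
    exact φ.isOpenEmbedding.comp OnePoint.isOpenEmbedding_coe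

private theorem sq_inv {z : ℂ} (hz : z ≠ 0) : √(1 + ‖z⁻¹‖ ^ 2) = √(1 + ‖z‖ ^ 2) / ‖z‖ := by
  have hn : 0 < ‖z‖ := norm_pos_iff.2 hz
  rw [norm_inv, show 1 + (‖z‖⁻¹) ^ 2 = (1 + ‖z‖ ^ 2) / ‖z‖ ^ 2 by field_simp; ring,
    Real.sqrt_div (by positivity), Real.sqrt_sq hn.le]

theorem io_cont (τ : Bool) : Continuous (io τ) := (io_emb τ).continuous

theorem io_inj (τ : Bool) : Function.Injective (io τ) := (io_emb τ).injective

theorem chord_io (τ : Bool) (z w : ℂ) :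
    chord (io τ z) (io τ w) = ‖z - w‖ / (√(1 + ‖z‖ ^ 2) * √(1 + ‖w‖ ^ 2)) := by
  cases τ with
  | true => rfl
  | false =>
    have hs0 : √(1 + ‖(0 : ℂ)‖ ^ 2) = 1 := by norm_num
    by_cases hz : z = 0
    · by_cases hw : w = 0
      · rw [hz, hw, sub_zero, norm_zero, zero_div]
        exact chord_zero _
      · have hn : 0 < ‖w‖ := norm_pos_iff.2 hw
        rw [hz, io_f0, io_fz hw]
        show 1 / √(1 + ‖w⁻¹‖ ^ 2) = _
        rw [sq_inv hw, hs0, one_mul, zero_sub, norm_neg, one_div_div]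
    · have hn : 0 < ‖z‖ := norm_pos_iff.2 hz
      by_cases hw : w = 0
      · rw [hw, io_f0, io_fz hz]
        show 1 / √(1 + ‖z⁻¹‖ ^ 2) = _
        rw [sq_inv hz, hs0, mul_one, sub_zero, one_div_div]
      · have hn' : 0 < ‖w‖ := norm_pos_iff.2 hw
        rw [io_fz hz, io_fz hw]
        show ‖z⁻¹ - w⁻¹‖ / (√(1 + ‖z⁻¹‖ ^ 2) * √(1 + ‖w⁻¹‖ ^ 2)) = _
        rw [sq_inv hz, sq_inv hw, inv_sub_inv hz hw, norm_div, norm_mul, norm_sub_rev w z]
        have h1 : √(1 + ‖z‖ ^ 2) ≠ 0 := by positivity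
        have h2 : √(1 + ‖w‖ ^ 2) ≠ 0 := by positivity
        field_simp

private theorem sq_ge (z : ℂ) : 1 ≤ √(1 + ‖z‖ ^ 2) := by
  rw [Real.one_le_sqrt]
  nlinarith [sq_nonneg ‖z‖]

/-- the omitted point of the chart -/
private noncomputable def om (τ : Bool) : OnePoint ℂ :=
  if τ then OnePoint.infty else ((0 : ℂ) : OnePoint ℂ)

private theorem io_or (τ : Bool) (x : OnePoint ℂ) : (∃ z, io τ z = x) ∨ x = om τ := by
  cases τ with
  | true =>
    induction x using OnePoint.rec with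
    | infty => exact Or.inr rfl
    | coe z => exact Or.inl ⟨z, rfl⟩
  | false =>
    induction x using OnePoint.rec with
    | infty => exact Or.inl ⟨0, io_f0⟩
    | coe z =>
      by_cases hz : z = 0
      · exact Or.inr (by rw [hz]; rfl)
      · exact Or.inl ⟨z⁻¹, by rw [io_fz (inv_ne_zero hz), inv_inv]⟩

private theorem ch_om (τ : Bool) (z : ℂ) : chord (io τ z) (om τ) = 1 / √(1 + ‖z‖ ^ 2) := by
  cases τ with
  | true => rfl
  | false =>
    by_cases hz : z = 0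
    · rw [hz, io_f0]
      show 1 / √(1 + ‖(0 : ℂ)‖ ^ 2) = _
      rfl
    · rw [io_fz hz]
      show ‖z⁻¹ - 0‖ / (√(1 + ‖z⁻¹‖ ^ 2) * √(1 + ‖(0 : ℂ)‖ ^ 2)) = _
      have hn : 0 < ‖z‖ := norm_pos_iff.2 hz
      rw [sq_inv hz, sub_zero, norm_inv, show √(1 + ‖(0 : ℂ)‖ ^ 2) = 1 by norm_num, mul_one]
      have h1 : √(1 + ‖z‖ ^ 2) ≠ 0 := by positivity
      field_simp

theorem chord_io_le (τ : Bool) (z w : ℂ) : chord (io τ z) (io τ w) ≤ ‖z - w‖ := by
  rw [chord_io]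
  exact div_le_self (norm_nonneg _) (one_le_mul_of_one_le_of_one_le (sq_ge z) (sq_ge w))

theorem io_ex (x : OnePoint ℂ) : ∃ (τ : Bool) (w : ℂ), ‖w‖ ≤ 1 ∧ io τ w = x := by
  induction x using OnePoint.rec with
  | infty => exact ⟨false, 0, by rw [norm_zero]; exact zero_le_one, io_f0⟩
  | coe z =>
    rcases le_or_gt ‖z‖ 1 with h | h
    · exact ⟨true, z, h, rfl⟩
    · have hz : z ≠ 0 := by
        rintro rfl
        rw [norm_zero] at h
        exact absurd h (by norm_num)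
      refine ⟨false, z⁻¹, ?_, by rw [io_fz (inv_ne_zero hz), inv_inv]⟩
      rw [norm_inv]
      exact inv_le_one_of_one_le₀ h.le

theorem io_near {τ : Bool} {w : ℂ} (hw : ‖w‖ ≤ 2) {x : OnePoint ℂ} (hx : chord (io τ w) x < 1 / 8) :
    ∃ z : ℂ, io τ z = x ∧ ‖z - w‖ ≤ 8 * chord (io τ w) x := by
  obtain ⟨B, hB⟩ : ∃ B, B = √(1 + ‖w‖ ^ 2) := ⟨_, rfl⟩
  have hB1 : 1 ≤ B := by rw [hB]; exact sq_ge w
  have hB2 : B ^ 2 ≤ 5 := by
    rw [hB, Real.sq_sqrt (by positivity)]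
    nlinarith [norm_nonneg w]
  have hB3 : B ≤ 9 / 4 := by nlinarith
  have hom := ch_om τ w
  rw [← hB] at hom
  have h49 : 4 / 9 ≤ 1 / B := by
    rw [le_div_iff₀ (by linarith)]
    nlinarith
  rcases io_or τ x with ⟨z, rfl⟩ | hx'
  · refine ⟨z, rfl, ?_⟩
    obtain ⟨A, hA⟩ : ∃ A, A = √(1 + ‖z‖ ^ 2) := ⟨_, rfl⟩
    have hA1 : 1 ≤ A := by rw [hA]; exact sq_ge z
    have hz := ch_om τ z
    rw [← hA] at hz
    have htri := ch_tri (io τ w) (io τ z) (om τ)
    rw [hom, hz] at htri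
    have hAB : A * B ≤ 8 := by
      have h1 : 1 / B - 1 / 8 ≤ 1 / A := by linarith
      have h2 : A * (1 / B - 1 / 8) ≤ 1 := by
        calc A * (1 / B - 1 / 8) ≤ A * (1 / A) := by
              exact mul_le_mul_of_nonneg_left h1 (by linarith)
          _ = 1 := by rw [mul_one_div, div_self (by linarith)]
      have h3 : A * (1 - B / 8) ≤ B := by
        have := mul_le_mul_of_nonneg_right h2 (show (0 : ℝ) ≤ B by linarith)
        have h4 : A * (1 / B - 1 / 8) * B = A * (1 - B / 8) := by field_simp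
        rw [h4, one_mul] at this
        exact this
      have h5 : 1 - B / 8 ≥ 23 / 32 := by linarith
      have h6 : A * (23 / 32) ≤ B := le_trans (mul_le_mul_of_nonneg_left h5 (by linarith)) h3
      nlinarith
    rw [chord_io, ← hA, ← hB, norm_sub_rev w z, mul_comm B A, mul_div_assoc', le_div_iff₀ (by positivity)]
    nlinarith [norm_nonneg (z - w)]
  · exfalso
    rw [hx', hom] at hx
    linarith

theorem io_big (τ : Bool) (z w : ℂ) (hw : ‖w‖ ≤ 2) : ‖z - w‖ ≤ 1 → ‖z - w‖ ≤ 8 * chord (io τ w) (io τ z) := by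
  intro h
  have hz : ‖z‖ ≤ 3 := by
    have : z = (z - w) + w := by ring
    calc ‖z‖ = ‖(z - w) + w‖ := by rw [← this]
      _ ≤ ‖z - w‖ + ‖w‖ := norm_add_le _ _
      _ ≤ 3 := by linarith
  obtain ⟨B, hB⟩ : ∃ B, B = √(1 + ‖w‖ ^ 2) := ⟨_, rfl⟩
  obtain ⟨A, hA⟩ : ∃ A, A = √(1 + ‖z‖ ^ 2) := ⟨_, rfl⟩
  have hB1 : 1 ≤ B := by rw [hB]; exact sq_ge w
  have hA1 : 1 ≤ A := by rw [hA]; exact sq_ge z
  have hB2 : B ^ 2 ≤ 5 := by
    rw [hB, Real.sq_sqrt (by positivity)]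
    nlinarith [norm_nonneg w]
  have hA2 : A ^ 2 ≤ 10 := by
    rw [hA, Real.sq_sqrt (by positivity)]
    nlinarith [norm_nonneg z]
  have hAB : A * B ≤ 8 := by nlinarith [sq_nonneg (A - B)]
  rw [chord_io, ← hA, ← hB, norm_sub_rev w z, mul_comm B A, mul_div_assoc', le_div_iff₀ (by positivity)]
  nlinarith [norm_nonneg (z - w)]

theorem cb_open (τ : Bool) (w : ℂ) (r : ℝ) : IsOpen (cb τ w r) :=
  (io_emb τ).isOpenMap _ isOpen_ball

theorem cb_conn (τ : Bool) (w : ℂ) (r : ℝ) : IsPreconnected (cb τ w r) :=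
  (convex_ball w r).isPreconnected.image _ (io_cont τ).continuousOn

theorem cbar_cpt (τ : Bool) (w : ℂ) (r : ℝ) : IsCompact (io τ '' closedBall w r) :=
  (isCompact_closedBall w r).image (io_cont τ)

theorem cb_sm (τ : Bool) (w : ℂ) (r : ℝ) : Sm (2 * r) (cb τ w r) := by
  rintro _ ⟨a, ha, rfl⟩ _ ⟨b, hb, rfl⟩
  refine (chord_io_le τ a b).trans ?_
  rw [← dist_eq_norm]
  have h1 := mem_ball.1 ha
  have h2 := mem_ball'.1 hb
  linarith [dist_triangle a w b]

/-- a small chordal ball is in a disc of the chart -/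
theorem cb_ball {τ : Bool} {w : ℂ} (hw : ‖w‖ ≤ 2) {r : ℝ} (hr : 0 < r) (hr1 : r ≤ 1) {y : OnePoint ℂ}
    (hy : chord (io τ w) y < r / 8) : y ∈ cb τ w r := by
  obtain ⟨z, hz, h⟩ := io_near hw (lt_of_lt_of_le hy (by linarith))
  refine ⟨z, ?_, hz⟩
  rw [mem_ball, dist_eq_norm]
  linarith

end Pool.Agent.H44.RC
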