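import Pool.Agent.H44.RC.IOC
import Pool.Agent.H79.PJ.RIter

/-!
# Module LOCA: a rational map in the charts is analytic

PROOF of `rat_chart`. Let `e = max P.natDegree Q.natDegree`. For `τ = true`: `rat P Q (io true z) = pt (P.eval z) (Q.eval z)` (`rat_coe`). For `τ = false`: `rat P Q (io false z) = pt ((reflect e P).eval z) ((reflect e Q).eval z)` (`z = 0`: `rat_infty`; `z ≠ 0`: `rat_coe_eq`, H44/Fatou/Basic; `eval_reflect`). In both cases
`rat P Q (io τ z) = pt (A z) (B z)` with polynomials `A`, `B`, not both zero at a point (`coprime_eval`, `coeff_dg`). `σ = true`: `pt (A z0) (B z0) = v1` finite, so `B z0 ≠ 0`, `h = A / B`, `rat P Q (io τ z) = h z` where `B z ≠ 0`. `σ = false`: `pt (A z0) (B z0) = recip v1`, so `A z0 ≠ 0`, `h = B / A` and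
`pt a b = recip (b / a)` for `a ≠ 0`. `h z0 = v1` by injectivity of `io σ`. `iter_chart`: `rat_iter` (H79/PJ/RIter).
-/

set_option autoImplicit false

open Filter Topology Polynomial Metric Set

namespace Pool.Agent.H44.RC

open Pool.Agent.H44.Fatou Pool.Agent.H32.BT Pool.Agent.H35.EX Pool.Agent.H44.RR
open Pool.Agent.H56.HR

private theorem pt_recip {x y : ℂ} (hx : x ≠ 0) : pt x y = recip (y / x) := by
  unfold pt recip
  by_cases hy : y = 0
  · rw [if_pos hy, hy, zero_div, if_pos rfl]
  · rw [if_neg hy, if_neg (div_ne_zero hy hx), inv_div]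

private theorem rep {P Q : Polynomial ℂ} (hcop : IsCoprime P Q) (τ : Bool) :
    ∃ A B : Polynomial ℂ, (∀ z, A.eval z ≠ 0 ∨ B.eval z ≠ 0) ∧
      ∀ z, rat P Q (io τ z) = pt (A.eval z) (B.eval z) := by
  cases τ with
  | true =>
    refine ⟨P, Q, coprime_eval hcop, fun z => ?_⟩
    unfold io
    rw [if_pos rfl, rat_coe]
  | false =>
    have hio : ∀ z, io false z = recip z := fun z => by
      unfold io
      simp
    refine ⟨reflect (dg P Q) P, reflect (dg P Q) Q, fun z => ?_, fun z => ?_⟩
    · by_cases hz : z = 0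
      · rw [hz, eval_reflect_zero, eval_reflect_zero]
        exact coeff_dg hcop
      · have h1 := eval_reflect (P := P) (N := dg P Q) (le_max_left _ _) (inv_ne_zero hz)
        have h2 := eval_reflect (P := Q) (N := dg P Q) (le_max_right _ _) (inv_ne_zero hz)
        rw [inv_inv] at h1 h2
        rcases coprime_eval hcop z⁻¹ with h3 | h3
        · left
          intro h4
          rw [h4, zero_mul] at h1
          exact h3 h1
        · right
          intro h4
          rw [h4, zero_mul] at h2
          exact h3 h2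
    · rw [hio]
      unfold recip
      by_cases hz : z = 0
      · rw [if_pos hz, hz, eval_reflect_zero, eval_reflect_zero]
        exact rat_infty P Q
      · rw [if_neg hz]
        have := rat_coe_eq (P := P) (Q := Q) (inv_ne_zero hz)
        rw [inv_inv] at this
        exact this

theorem rat_chart {P Q : Polynomial ℂ} (hcop : IsCoprime P Q) {τ σ : Bool} {z0 v1 : ℂ}
    (h : rat P Q (io τ z0) = io σ v1) :
    ∃ g : ℂ → ℂ, AnalyticAt ℂ g z0 ∧ g z0 = v1 ∧ ∀ᶠ z in 𝓝 z0, rat P Q (io τ z) = io σ (g z) := by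
  obtain ⟨A, B, hne, hrep⟩ := rep hcop τ
  have hA : AnalyticAt ℂ (fun z => A.eval z) z0 := A.differentiable.analyticAt z0
  have hB : AnalyticAt ℂ (fun z => B.eval z) z0 := B.differentiable.analyticAt z0
  rw [hrep] at h
  cases σ with
  | true =>
    have hio : ∀ z, io true z = (z : OnePoint ℂ) := fun z => by
      unfold io
      simp
    rw [hio] at h
    have hB0 : B.eval z0 ≠ 0 := by
      intro h1
      unfold pt at h
      rw [if_pos h1] at h
      exact OnePoint.infty_ne_coe _ h
    refine ⟨fun z => A.eval z / B.eval z, hA.div hB hB0, ?_, ?_⟩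
    · unfold pt at h
      rw [if_neg hB0, OnePoint.coe_eq_coe] at h
      exact h
    · filter_upwards [hB.continuousAt.eventually_ne hB0] with z hz
      rw [hrep, hio]
      unfold pt
      rw [if_neg hz]
  | false =>
    have hio : ∀ z, io false z = recip z := fun z => by
      unfold io
      simp
    rw [hio] at h
    have hA0 : A.eval z0 ≠ 0 := by
      intro h1
      have hB0 : B.eval z0 ≠ 0 := by
        rcases hne z0 with h2 | h2
        · exact absurd h1 h2
        · exact h2
      unfold pt recip at h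
      rw [if_neg hB0, h1, zero_div] at h
      split_ifs at h with h3
      · exact OnePoint.coe_ne_infty _ h
      · rw [OnePoint.coe_eq_coe] at h
        exact h3 (inv_eq_zero.1 h.symm)
    refine ⟨fun z => B.eval z / A.eval z, hB.div hA hA0, ?_, ?_⟩
    · rw [pt_recip hA0, ← hio, ← hio] at h
      exact io_inj false h
    · filter_upwards [hA.continuousAt.eventually_ne hA0] with z hz
      rw [hrep, hio, pt_recip hz]

theorem iter_chart {P Q : Polynomial ℂ} (hcop : IsCoprime P Q)
    (hd : 1 ≤ max P.natDegree Q.natDegree) {τ σ : Bool} {z0 v1 : ℂ} {n : ℕ}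
    (h : (rat P Q)^[n] (io τ z0) = io σ v1) :
    ∃ g : ℂ → ℂ, AnalyticAt ℂ g z0 ∧ g z0 = v1 ∧
      ∀ᶠ z in 𝓝 z0, (rat P Q)^[n] (io τ z) = io σ (g z) := by
  obtain ⟨A, B, h1, -, h3⟩ := Pool.Agent.H79.PJ.rat_iter hcop hd n
  rw [← h3] at h
  obtain ⟨g, hg1, hg2, hg3⟩ := rat_chart h1 h
  refine ⟨g, hg1, hg2, ?_⟩
  filter_upwards [hg3] with z hz
  rw [← h3, hz]

end Pool.Agent.H44.RC
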