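import Pool.Agent.H44.RC.LOCA

/-!
# Module LOCF: the local form of a rational map

PROOF. `rat_chart`: `g` analytic at `z0`, `g z0 = v1`, `rat P Q (io τ z) = io σ (g z)` near `z0`. `g` is not constant near `z0`: the fibres of `rat P Q` are finite (`rat_fiber_finite`, H32/BT/Crit). So `g z - v1 = (z - z0) ^ k * u z` near `z0` with `0 < k`, `u` analytic at `z0`, `u z0 ≠ 0` (`AnalyticAt.analyticOrderAt..`,
`AnalyticAt.exists_eventuallyEq_pow_smul_nonzero_iff`). Let `a` be a `k`-th root of `u z0`, `ψ z = (z - z0) * a * exp (log (u z / u z0) / k)`: analytic at `z0` (`u z / u z0` is near `1`, in the slit plane), `ψ z ^ k = (z - z0) ^ k * u z` near `z0`, `deriv ψ z0 = a ≠ 0`.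
-/

set_option autoImplicit false

open Filter Topology Polynomial Metric Set

namespace Pool.Agent.H44.RC

open Pool.Agent.H44.Fatou Pool.Agent.H32.BT Pool.Agent.H35.EX Pool.Agent.H44.RR
open Pool.Agent.H56.HR

private theorem loc_root {u : ℂ → ℂ} {z0 : ℂ} (hu : AnalyticAt ℂ u z0) (hu0 : u z0 ≠ 0) {n : ℕ}
    (hn : 0 < n) : ∃ ψ : ℂ → ℂ, AnalyticAt ℂ ψ z0 ∧ ψ z0 = 0 ∧ deriv ψ z0 ≠ 0 ∧
      ∀ᶠ z in 𝓝 z0, ψ z ^ n = (z - z0) ^ n * u z := by
  obtain ⟨a, ha⟩ := IsAlgClosed.exists_pow_nat_eq (u z0) hn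
  have ha0 : a ≠ 0 := by
    intro h
    rw [h, zero_pow hn.ne'] at ha
    exact hu0 ha.symm
  have hn0 : (n : ℂ) ≠ 0 := by exact_mod_cast hn.ne'
  set w : ℂ → ℂ := fun z => a * Complex.exp (Complex.log (u z / u z0) / n) with hw
  have hwa : AnalyticAt ℂ w z0 := by
    have h1 : AnalyticAt ℂ (fun z => u z / u z0) z0 := hu.div analyticAt_const hu0
    have h2 : AnalyticAt ℂ (fun z => Complex.log (u z / u z0)) z0 := by
      refine h1.clog ?_
      rw [div_self hu0]
      exact Complex.one_mem_slitPlane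
    have h3 : AnalyticAt ℂ (fun z => Complex.log (u z / u z0) / n) z0 :=
      h2.div analyticAt_const hn0
    exact analyticAt_const.mul h3.cexp'
  have hw0 : w z0 = a := by
    simp only [hw]
    rw [div_self hu0, Complex.log_one, zero_div, Complex.exp_zero, mul_one]
  refine ⟨fun z => (z - z0) * w z, (analyticAt_id.sub analyticAt_const).mul hwa, ?_, ?_, ?_⟩
  · simp
  · have h1 : HasDerivAt (fun z : ℂ => z - z0) 1 z0 := (hasDerivAt_id z0).sub_const z0
    have h2 := h1.mul hwa.differentiableAt.hasDerivAt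
    have h3 : deriv (fun z => (z - z0) * w z) z0 = a := by
      have h4 : HasDerivAt (fun z => (z - z0) * w z) (1 * w z0 + (z0 - z0) * deriv w z0) z0 := h2
      rw [h4.deriv, hw0]
      ring
    rw [h3]
    exact ha0
  · filter_upwards [hu.continuousAt.eventually_ne hu0] with z hz
    have h1 : Complex.exp (Complex.log (u z / u z0) / n) ^ n = u z / u z0 := by
      rw [← Complex.exp_nat_mul, mul_div_cancel₀ _ hn0, Complex.exp_log (div_ne_zero hz hu0)]
    simp only [hw]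
    rw [mul_pow, mul_pow, h1, ha]
    field_simp

theorem loc_form {P Q : Polynomial ℂ} (hcop : IsCoprime P Q)
    (hd : 1 ≤ max P.natDegree Q.natDegree) {τ σ : Bool} {z0 v1 : ℂ}
    (h : rat P Q (io τ z0) = io σ v1) :
    ∃ (k : ℕ) (ψ : ℂ → ℂ), 0 < k ∧ AnalyticAt ℂ ψ z0 ∧ ψ z0 = 0 ∧ deriv ψ z0 ≠ 0 ∧
      ∀ᶠ z in 𝓝 z0, rat P Q (io τ z) = io σ (v1 + ψ z ^ k) := by
  obtain ⟨g, hg, hgz, hgr⟩ := rat_chart hcop h
  have hf : AnalyticAt ℂ (fun z => g z - v1) z0 := hg.sub analyticAt_const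
  have hne : ¬ ∀ᶠ z in 𝓝 z0, g z - v1 = 0 := by
    intro h0
    have h1 : ∀ᶠ z in 𝓝 z0, rat P Q (io τ z) = io σ v1 := by
      filter_upwards [h0, hgr] with z h2 h3
      rw [h3, sub_eq_zero.1 h2]
    have h2 : {z | rat P Q (io τ z) = io σ v1}.Finite := by
      have h3 := (rat_fiber_finite hcop hd (io σ v1)).preimage (io_inj τ).injOn
      exact h3
    exact infinite_of_mem_nhds z0 h1 h2
  obtain ⟨n, u, hu, hu0, he⟩ := hf.exists_eventuallyEq_pow_smul_nonzero_iff.2 hne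
  have hn : 0 < n := by
    rcases Nat.eq_zero_or_pos n with h0 | h0
    · exfalso
      subst h0
      have h1 := he.self_of_nhds
      rw [hgz, sub_self, pow_zero, one_smul] at h1
      exact hu0 h1.symm
    · exact h0
  obtain ⟨ψ, h1, h2, h3, h4⟩ := loc_root hu hu0 hn
  refine ⟨n, ψ, hn, h1, h2, h3, ?_⟩
  filter_upwards [hgr, he, h4] with z e1 e2 e3
  rw [e1, e3]
  congr 1
  rw [smul_eq_mul] at e2
  rw [← e2]
  ring

end Pool.Agent.H44.RC
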