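import Pool.Agent.H44.RC.LOCF
import Pool.Agent.H44.RC.LOGC
import Pool.Agent.H44.RC.HUL

/-!
# Module ROOT: the root lemma

PROOF. `c = io τ z0`, `f c = io σ v1` with `‖z0‖ ≤ 1`, `‖v1‖ ≤ 1` (`io_ex`); `loc_form`: `k`, `ψ`, and `r > 0` such that on `ball z0 r`: `ψ` is continuous and injective (`deriv ψ z0 ≠ 0`: inverse function theorem, `HasStrictDerivAt` ..), `f (io τ z) = io σ (v1 + ψ z ^ k)` and `‖ψ z ^ k‖ ≤ 1 / 16`. `ρ = min r 1 / 8`: `chord c y < ρ`
implies `y ∈ cb τ z0 r` (`cb_ball`). Let `K` be as in the theorem (if `K` is empty there is nothing to prove), `A = io τ ⁻¹' K ⊆ ball z0 r`, preconnected (`K` is in the range of the embedding `io τ`: `Topology.IsInducing.isPreconnected_image`), `u z = v1 + ψ z ^ k`, `K'' = u '' A` compact, `io σ '' K'' = f '' K`.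
`f c ∉ Hull (f '' K)`: there is `e` with `1 / 2 ≤ chord y e` for `y ∈ f '' K` and `f c ∈ W = connectedComponentIn (f '' K)ᶜ e`. Let `G = {x | x ∉ f '' K ∧ ∀ b, io σ b = x → HasLog K'' b}`. It is enough that `W ⊆ G`: then `HasLog K'' v1` (`f c = io σ v1`) and `log_root` (`g = ψ`) gives: `f y = f y'` in `K` implies `ψ z = ψ z'`, so `z = z'`.
`W ⊆ G`: `IsPreconnected.subset_of..` (`W` preconnected, `W ∩ G` nonempty, `G` open, and `(f '' K)ᶜ \ G` open). `e ∈ G`: if `e = io σ b`: `‖b - y''‖ ≥ chord ≥ 1 / 2` for a `y'' ∈ K''` (`chord_io_le`), `‖y'' - v1‖ ≤ 1 / 16`: `1 / 16 < ‖b - v1‖`, `log_far`. `G` is open at `io σ b ∈ G`: `log_near` (`K''` compact, `b ∉ K''`, so `‖w - b‖ ≥ t > 0` on `K''`; for `‖b - b'‖ < t`);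
at the point which is not in the range of `io σ`: all `io σ b` with `‖b - v1‖ > 1 / 16` are in `G` (if not in `f '' K`) by `log_far`; the set `(io σ '' closedBall v1 (1 / 16))ᶜ` is an open set which contains this point. The complement: if `b ∉ K''`, `¬ HasLog K'' b`, then `¬ HasLog K'' b'` for `‖b - b'‖ < t / 2` (`log_near` from `b'` to `b`: `‖w - b'‖ ≥ t / 2`).
-/

set_option autoImplicit false

open Filter Topology Polynomial Metric Set

namespace Pool.Agent.H44.RC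

open Pool.Agent.H44.Fatou Pool.Agent.H32.BT Pool.Agent.H35.EX Pool.Agent.H44.RR
open Pool.Agent.H56.HR

private theorem psi_inj {ψ : ℂ → ℂ} {z0 : ℂ} (h : AnalyticAt ℂ ψ z0) (hd : deriv ψ z0 ≠ 0) :
    ∃ r : ℝ, 0 < r ∧ ∀ z ∈ ball z0 r, ∀ w ∈ ball z0 r, ψ z = ψ w → z = w := by
  have h1 : HasStrictDerivAt ψ (deriv ψ z0) z0 := h.hasStrictDerivAt
  have hpos : 0 < ‖deriv ψ z0‖ / 2 := by
    have := norm_pos_iff.2 hd
    positivity
  have h2 := (hasStrictDerivAt_iff_hasStrictFDerivAt.1 h1).isLittleO.def hpos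
  rw [nhds_prod_eq] at h2
  obtain ⟨p, hp, q, hq, hpq⟩ := eventually_prod_iff.1 h2
  obtain ⟨r1, hr1, h3⟩ := Metric.eventually_nhds_iff_ball.1 hp
  obtain ⟨r2, hr2, h4⟩ := Metric.eventually_nhds_iff_ball.1 hq
  refine ⟨min r1 r2, lt_min hr1 hr2, fun z hz w hw hzw => ?_⟩
  have h5 := hpq (h3 z (ball_subset_ball (min_le_left _ _) hz))
    (h4 w (ball_subset_ball (min_le_right _ _) hw))
  simp only [hzw, sub_self, zero_sub, norm_neg] at h5
  by_contra hne
  have h6 : 0 < ‖z - w‖ := norm_pos_iff.2 (sub_ne_zero.2 hne)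
  have h7 : ‖(ContinuousLinearMap.toSpanSingleton ℂ (deriv ψ z0)) (z - w)‖ =
      ‖z - w‖ * ‖deriv ψ z0‖ := by
    rw [ContinuousLinearMap.toSpanSingleton_apply, norm_smul]
  rw [h7] at h5
  nlinarith [norm_pos_iff.2 hd]

theorem root {P Q : Polynomial ℂ} (hcop : IsCoprime P Q)
    (hd : 1 ≤ max P.natDegree Q.natDegree) (c : OnePoint ℂ) :
    ∃ ρ : ℝ, 0 < ρ ∧ ∀ K : Set (OnePoint ℂ), IsCompact K → IsPreconnected K →
      (∀ y ∈ K, chord c y < ρ) → rat P Q c ∉ Hull (rat P Q '' K) → InjOn (rat P Q) K := by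
  obtain ⟨τ, z0, hz0, hc⟩ := io_ex c
  obtain ⟨σ, v1, hv1, hfc⟩ := io_ex (rat P Q c)
  have h0 : rat P Q (io τ z0) = io σ v1 := by rw [hc, hfc]
  obtain ⟨k, ψ, hk, hψ, hψ0, hψd, hloc⟩ := loc_form hcop hd h0
  obtain ⟨r1, hr1, hinj⟩ := psi_inj hψ hψd
  have hcont : ∀ᶠ z in 𝓝 z0, ContinuousAt ψ z := hψ.eventually_continuousAt
  have hsmall : ∀ᶠ z in 𝓝 z0, ‖ψ z ^ k‖ < 1 / 16 := by
    have h1 : ContinuousAt (fun z => ‖ψ z ^ k‖) z0 := (hψ.continuousAt.pow k).norm
    have h2 : ‖ψ z0 ^ k‖ < 1 / 16 := by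
      rw [hψ0, zero_pow hk.ne', norm_zero]
      norm_num
    exact h1.eventually (gt_mem_nhds h2)
  obtain ⟨r2, hr2, hall⟩ := Metric.eventually_nhds_iff_ball.1 (hloc.and (hcont.and hsmall))
  obtain ⟨r, hr⟩ : ∃ r, r = min (min r1 r2) 1 := ⟨_, rfl⟩
  have hr0 : 0 < r := by rw [hr]; positivity
  have hr1' : r ≤ r1 := by rw [hr]; exact (min_le_left _ _).trans (min_le_left _ _)
  have hr2' : r ≤ r2 := by rw [hr]; exact (min_le_left _ _).trans (min_le_right _ _)
  have hr3' : r ≤ 1 := by rw [hr]; exact min_le_right _ _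
  refine ⟨r / 8, by positivity, fun K hK hKc hKr hH => ?_⟩
  -- the set in the chart
  obtain ⟨A, hA⟩ : ∃ A, A = io τ ⁻¹' K := ⟨_, rfl⟩
  have hKcb : K ⊆ cb τ z0 r := fun y hy =>
    cb_ball (by linarith) hr0 hr3' (by rw [hc]; exact hKr y hy)
  have hAb : A ⊆ ball z0 r := by
    intro z hz
    rw [hA] at hz
    obtain ⟨z', hz', h1⟩ := hKcb hz
    rwa [io_inj τ h1] at hz'
  have hAim : io τ '' A = K := by
    rw [hA]
    refine image_preimage_eq_of_subset fun y hy => ?_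
    obtain ⟨z', -, h1⟩ := hKcb hy
    exact ⟨z', h1⟩
  have hApre : IsPreconnected A := by
    rw [← (io_emb τ).isInducing.isPreconnected_image, hAim]
    exact hKc
  have hAcpt : IsCompact A := by
    rw [(io_emb τ).isInducing.isCompact_iff, hAim]
    exact hK
  obtain ⟨u, hu⟩ : ∃ u : ℂ → ℂ, u = fun z => v1 + ψ z ^ k := ⟨_, rfl⟩
  have hψc : ContinuousOn ψ A := fun z hz =>
    ((hall z (ball_subset_ball hr2' (hAb hz))).2.1).continuousWithinAt
  have huc : ContinuousOn u A := by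
    rw [hu]
    exact continuousOn_const.add (hψc.pow k)
  have hfu : ∀ z ∈ A, rat P Q (io τ z) = io σ (u z) := by
    intro z hz
    rw [hu]
    exact (hall z (ball_subset_ball hr2' (hAb hz))).1
  have hfK : rat P Q '' K = io σ '' (u '' A) := by
    rw [← hAim, image_image, image_image]
    exact image_congr hfu
  have hK2 : IsCompact (u '' A) := hAcpt.image_of_continuousOn huc
  have hun : ∀ w ∈ u '' A, ‖w - v1‖ ≤ 1 / 16 := by
    rintro _ ⟨z, hz, rfl⟩
    rw [hu]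
    show ‖v1 + ψ z ^ k - v1‖ ≤ 1 / 16
    rw [add_sub_cancel_left]
    exact (hall z (ball_subset_ball hr2' (hAb hz))).2.2.le
  rcases K.eq_empty_or_nonempty with hKe | hKne
  · rw [hKe]
    exact injOn_empty _
  have hAne : A.Nonempty := by
    rw [← hAim] at hKne
    exact image_nonempty.1 hKne
  -- the component
  have hH2 : ∃ e, (∀ y ∈ rat P Q '' K, 1 / 2 ≤ chord y e) ∧
      rat P Q c ∈ connectedComponentIn (rat P Q '' K)ᶜ e := by
    by_contra hcon
    push Not at hcon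
    exact hH hcon
  obtain ⟨e, he1, he2⟩ := hH2
  obtain ⟨G, hG⟩ : ∃ G : Set (OnePoint ℂ),
      G = {x | x ∉ rat P Q '' K ∧ ∀ b, io σ b = x → HasLog (u '' A) b} := ⟨_, rfl⟩
  have hnot : ∀ b, io σ b ∉ rat P Q '' K → b ∉ u '' A := fun b h1 h2 => by
    rw [hfK] at h1
    exact h1 (mem_image_of_mem _ h2)
  have hnot2 : ∀ b, b ∉ u '' A → io σ b ∉ rat P Q '' K := fun b h1 h2 => by
    rw [hfK] at h2
    obtain ⟨b', h3, h4⟩ := h2
    rw [io_inj σ h4] at h3
    exact h1 h3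
  have hdist : ∀ b, b ∉ u '' A → ∃ t : ℝ, 0 < t ∧ ∀ w ∈ u '' A, t ≤ ‖w - b‖ := by
    intro b hb
    have h1 : (u '' A)ᶜ ∈ 𝓝 b := hK2.isClosed.isOpen_compl.mem_nhds hb
    obtain ⟨t, ht, h2⟩ := Metric.mem_nhds_iff.1 h1
    refine ⟨t, ht, fun w hw => ?_⟩
    by_contra hcon
    rw [not_le] at hcon
    refine h2 ?_ hw
    rwa [mem_ball, dist_eq_norm]
  have hnb : ∀ b (t : ℝ), 0 < t → io σ '' ball b t ∈ 𝓝 (io σ b) := fun b t ht =>
    ((io_emb σ).isOpenMap _ isOpen_ball).mem_nhds (mem_image_of_mem _ (mem_ball_self ht))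
  have hGo : IsOpen G := by
    rw [isOpen_iff_mem_nhds]
    intro x hx
    rw [hG] at hx
    obtain ⟨hx1, hx2⟩ := hx
    by_cases hxr : ∃ b, io σ b = x
    · obtain ⟨b, rfl⟩ := hxr
      obtain ⟨t, ht, h2⟩ := hdist b (hnot b hx1)
      refine mem_of_superset (hnb b t ht) ?_
      rintro _ ⟨b', hb', rfl⟩
      rw [mem_ball, dist_eq_norm] at hb'
      rw [hG]
      refine ⟨hnot2 b' fun h3 => ?_, fun b'' h3 => ?_⟩
      · have := h2 b' h3
        linarith
      · rw [io_inj σ h3]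
        refine log_near (fun w hw => ?_) (hx2 b rfl)
        rw [norm_sub_rev]
        exact hb'.trans_le (h2 w hw)
    · have h1 : (io σ '' closedBall v1 (1 / 16))ᶜ ∈ 𝓝 x := by
        refine (cbar_cpt σ v1 _).isClosed.isOpen_compl.mem_nhds ?_
        rintro ⟨b, -, hb⟩
        exact hxr ⟨b, hb⟩
      refine mem_of_superset h1 fun y hy => ?_
      rw [hG]
      refine ⟨fun h3 => hy ?_, fun b h3 => ?_⟩
      · rw [hfK] at h3
        obtain ⟨w, hw, rfl⟩ := h3
        refine mem_image_of_mem _ ?_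
        rw [mem_closedBall, dist_eq_norm]
        exact hun w hw
      · refine log_far hun ?_
        by_contra hcon
        rw [not_lt] at hcon
        refine hy ⟨b, ?_, h3⟩
        rw [mem_closedBall, dist_eq_norm]
        exact hcon
  have hVo : IsOpen ((rat P Q '' K)ᶜ \ G) := by
    rw [isOpen_iff_mem_nhds]
    rintro x ⟨hx1, hx2⟩
    rw [hG] at hx2
    have h1 : ∃ b, io σ b = x ∧ ¬ HasLog (u '' A) b := by
      by_contra hcon
      push Not at hcon
      exact hx2 ⟨hx1, hcon⟩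
    obtain ⟨b, rfl, hb⟩ := h1
    obtain ⟨t, ht, h2⟩ := hdist b (hnot b hx1)
    refine mem_of_superset (hnb b (t / 2) (by positivity)) ?_
    rintro _ ⟨b', hb', rfl⟩
    rw [mem_ball, dist_eq_norm] at hb'
    have h4 : ∀ w ∈ u '' A, t / 2 < ‖w - b'‖ := by
      intro w hw
      have h5 := h2 w hw
      have h6 := norm_sub_le_norm_sub_add_norm_sub w b' b
      linarith
    refine ⟨hnot2 b' fun h3 => ?_, fun h3 => ?_⟩
    · have := h4 b' h3
      rw [sub_self, norm_zero] at this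
      linarith
    · rw [hG] at h3
      exact hb (log_near (fun w hw => hb'.trans (h4 w hw)) (h3.2 b' rfl))
  have heF : e ∈ (rat P Q '' K)ᶜ :=
    connectedComponentIn_nonempty_iff.1 ⟨_, he2⟩
  have heG : e ∈ G := by
    rw [hG]
    refine ⟨heF, fun b hb => ?_⟩
    obtain ⟨z, hz⟩ := hAne
    have h1 := he1 (io σ (u z)) (by rw [hfK]; exact mem_image_of_mem _ (mem_image_of_mem _ hz))
    rw [← hb] at h1
    have h2 := h1.trans (chord_io_le σ (u z) b)
    have h3 := hun (u z) (mem_image_of_mem _ hz)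
    refine log_far hun ?_
    have h4 := norm_sub_le_norm_sub_add_norm_sub (u z) v1 b
    rw [norm_sub_rev v1 b] at h4
    linarith
  have hW : connectedComponentIn (rat P Q '' K)ᶜ e ⊆ G := by
    refine isPreconnected_connectedComponentIn.subset_left_of_subset_union hGo hVo ?_ ?_ ?_
    · exact disjoint_sdiff_right
    · intro x hx
      by_cases hxG : x ∈ G
      · exact Or.inl hxG
      · exact Or.inr ⟨connectedComponentIn_subset _ _ hx, hxG⟩
    · exact ⟨e, mem_connectedComponentIn heF, heG⟩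
  have hlog : HasLog (u '' A) v1 := by
    have h1 := hW he2
    rw [hG] at h1
    exact h1.2 v1 hfc
  intro y hy y' hy' hyy
  rw [← hAim] at hy hy'
  obtain ⟨z, hz, rfl⟩ := hy
  obtain ⟨z', hz', rfl⟩ := hy'
  rw [hfu z hz, hfu z' hz'] at hyy
  have h1 : u z = u z' := io_inj σ hyy
  have h2 := log_root hApre hk hψc huc (fun x _ => by rw [hu]; exact add_sub_cancel_left _ _) hlog
    z hz z' hz' h1
  rw [hinj z (ball_subset_ball hr1' (hAb hz)) z' (ball_subset_ball hr1' (hAb hz')) h2]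

end Pool.Agent.H44.RC
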