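import Pool.Agent.H44.RC.CCO

/-!
# Module TWR: the tower of components (combinatorics)

Let `V i = CC f (m - i) D (f^[i] y)`. `Tw f m D y ρ`: if `f` is not injective on `V i`, `i < m`, then there is a critical point `c` within `ρ` of all points of `V i` with `f c ∈ V (i + 1)`. PROOFS. `once`: if `f c ∈ V (i + 1)`, `i < l ≤ m`, then `f^[l - i] c = f^[l - i - 1] (f c) ∈ V l` (`cc_map`); with `l = m`: `f^[m - i] c ∈ D`. So the
first alternative of `hc` fails for `c`, and if also `chord c z < ρ` for `z ∈ V l`: the second alternative fails. So for every critical point `c` there is at most one `i` with `f c ∈ V (i + 1)` and `c` near `V i`.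
`tw_fib`: choose a critical point for every `i < m` for which `f` is not injective on `V i`; by `once` this is an injective map, so the number of these `i` is at most `s`. By induction on `j = m - i`: `(V i ∩ f^[m - i] ⁻¹' {u}).encard ≤ d ^ (number of bad l with i ≤ l < m)`: `f` maps `V i ∩ f^[m - i] ⁻¹' {u}` into `V (i + 1) ∩ f^[m - (i + 1)] ⁻¹' {u}`, injectively
or with fibres of at most `d` points (cover the set by the fibres over the finite image). `tw_set`: `S` = the set of the `f^[m - i] c`; the map `c ↦ i` is well defined, so `S` is the image of a subset of the set of the critical points.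
`tw_bij`: `f^[m]` is injective on `W 0`, `W i = CC f (m - i) B (f^[i] y')`: otherwise take the first `i` with `f^[i + 1]` not injective on `W 0`: `f` is not injective on `f^[i] '' W 0 ⊆ W i` (`cc_map`), so there is a critical `c` with `f c ∈ W (i + 1)`, `chord c z < ρ / 2` on `W i`. `W l ⊆ V l` (`cc_mono`; `f^[l] y' ∈ V l` by `cc_map`), so `f c ∈ V (i + 1)` and
`chord c z ≤ chord c z0 + ρ / 2 < ρ` for `z ∈ V i` (`z0 = f^[i] y' ∈ W i`, `Sm (ρ / 2) (V i)`). So `f^[m - i] c ∈ S`, but it is in `B` (`f c ∈ W (i + 1)`, `cc_sub`). Onto: `cc_onto`.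
-/

set_option autoImplicit false

open Filter Topology Polynomial Metric Set

namespace Pool.Agent.H44.RC

open Pool.Agent.H44.Fatou Pool.Agent.H32.BT Pool.Agent.H35.EX Pool.Agent.H44.RR
open Pool.Agent.H56.HR

/-- critical points explain non-injectivity -/
def Tw (f : OnePoint ℂ → OnePoint ℂ) (m : ℕ) (D : Set (OnePoint ℂ)) (y : OnePoint ℂ) (ρ : ℝ) : Prop :=
  ∀ i < m, ¬ InjOn f (CC f (m - i) D (f^[i] y)) → ∃ c, IsCrit f c ∧
    (∀ z ∈ CC f (m - i) D (f^[i] y), chord c z < ρ) ∧ f c ∈ CC f (m - (i + 1)) D (f^[i + 1] y)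

variable {f : OnePoint ℂ → OnePoint ℂ} {m : ℕ} {D : Set (OnePoint ℂ)} {y : OnePoint ℂ} {ρ : ℝ}

theorem once (hf : Continuous f)
    (hc : ∀ c, IsCrit f c → (∀ n : ℕ, f^[n + 1] c ∉ D) ∨ ∀ n : ℕ, ρ ≤ chord c (f^[n + 1] c))
    {c : OnePoint ℂ} (hcr : IsCrit f c) {i l : ℕ} (hi : i < m) (hl : l < m)
    (h1 : f c ∈ CC f (m - (i + 1)) D (f^[i + 1] y)) (h2 : f c ∈ CC f (m - (l + 1)) D (f^[l + 1] y))
    (h3 : ∀ z ∈ CC f (m - i) D (f^[i] y), chord c z < ρ)
    (h4 : ∀ z ∈ CC f (m - l) D (f^[l] y), chord c z < ρ) : i = l := by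
  have key : ∀ {i l : ℕ}, i < l → l < m → f c ∈ CC f (m - (i + 1)) D (f^[i + 1] y) →
      (∀ z ∈ CC f (m - l) D (f^[l] y), chord c z < ρ) → False := by
    intro i l hil hl h1 h4
    rcases hc c hcr with h5 | h5
    · have h6 := cc_sub h1
      rw [← Function.iterate_succ_apply] at h6
      exact h5 _ h6
    · have h6 := cc_map hf (i := l - (i + 1)) (by omega) h1
      have e1 : m - (i + 1) - (l - (i + 1)) = m - l := by omega
      have e2 : l - (i + 1) + (i + 1) = l := by omega
      rw [e1, ← Function.iterate_add_apply, e2, ← Function.iterate_succ_apply] at h6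
      have h7 := h4 _ h6
      exact absurd h7 (not_lt.2 (h5 _))
  rcases lt_trichotomy i l with h | h | h
  · exact (key h hl h1 h4).elim
  · exact h
  · exact (key h hi h2 h3).elim

/-- fibres over finite sets -/
private theorem fib_enc {d : ℕ} (hfib : ∀ w, (f ⁻¹' {w}).encard ≤ d) {B : Set (OnePoint ℂ)}
    (hB : B.Finite) : (f ⁻¹' B).encard ≤ d * B.encard := by
  induction B, hB using Set.Finite.induction_on with
  | empty => simp
  | @insert a s ha _ ih =>
    have e1 : f ⁻¹' (insert a s) = f ⁻¹' {a} ∪ f ⁻¹' s := by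
      rw [← preimage_union, singleton_union]
    rw [e1, Set.encard_insert_of_notMem ha, mul_add, mul_one, add_comm]
    exact (Set.encard_union_le _ _).trans (add_le_add (hfib a) ih)

theorem tw_fib (hf : Continuous f)
    (hc : ∀ c, IsCrit f c → (∀ n : ℕ, f^[n + 1] c ∉ D) ∨ ∀ n : ℕ, ρ ≤ chord c (f^[n + 1] c))
    (hfin : {c | IsCrit f c}.Finite) {d : ℕ} (hd : 1 ≤ d) (hfib : ∀ w, (f ⁻¹' {w}).encard ≤ d)
    (hTw : Tw f m D y ρ) (u : OnePoint ℂ) :
    (CC f m D y ∩ f^[m] ⁻¹' {u}).encard ≤ d ^ {c | IsCrit f c}.ncard := by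
  classical
  obtain ⟨bad, hbad⟩ : ∃ bad : ℕ → Finset ℕ, ∀ i, bad i = (Finset.Ico i m).filter
      (fun l => ¬ InjOn f (CC f (m - l) D (f^[l] y))) := ⟨_, fun i => rfl⟩
  -- number of bad levels
  have hcard : (bad 0).card ≤ {c | IsCrit f c}.ncard := by
    have hch : ∀ i ∈ bad 0, ∃ c, IsCrit f c ∧
        (∀ z ∈ CC f (m - i) D (f^[i] y), chord c z < ρ) ∧
        f c ∈ CC f (m - (i + 1)) D (f^[i + 1] y) := by
      intro i hi
      rw [hbad, Finset.mem_filter, Finset.mem_Ico] at hi
      exact hTw i hi.1.2 hi.2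
    choose! g hg using hch
    rw [← Set.ncard_coe_finset]
    refine Set.ncard_le_ncard_of_injOn g ?_ ?_ hfin
    · intro i hi
      exact (hg i (Finset.mem_coe.1 hi)).1
    · intro i hi l hl hil
      have h1 := hg i (Finset.mem_coe.1 hi)
      have h2 := hg l (Finset.mem_coe.1 hl)
      have hi' := Finset.mem_coe.1 hi
      have hl' := Finset.mem_coe.1 hl
      rw [hbad, Finset.mem_filter, Finset.mem_Ico] at hi' hl'
      rw [← hil] at h2
      exact once hf hc h1.1 hi'.1.2 hl'.1.2 h1.2.2 h2.2.2 h1.2.1 h2.2.1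
  have key : ∀ j ≤ m, (CC f (m - (m - j)) D (f^[m - j] y) ∩
      f^[m - (m - j)] ⁻¹' {u}).encard ≤ (d : ENat) ^ (bad (m - j)).card := by
    intro j
    induction j with
    | zero =>
      intro _
      have e1 : m - (m - 0) = 0 := by omega
      rw [e1]
      have h1 : (CC f 0 D (f^[m - 0] y) ∩ f^[0] ⁻¹' {u}) ⊆ {u} := by
        rintro x ⟨-, hx⟩
        exact hx
      refine (Set.encard_le_encard h1).trans ?_
      rw [Set.encard_singleton]
      have h2 : (1 : ENat) ≤ d := by exact_mod_cast hd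
      exact one_le_pow_of_one_le' h2 _
    | succ j ih =>
      intro hj
      have ih' := ih (by omega)
      obtain ⟨i, hi⟩ : ∃ i, i = m - (j + 1) := ⟨_, rfl⟩
      have hi1 : m - j = i + 1 := by omega
      rw [← hi]
      rw [hi1] at ih'
      have him : i < m := by omega
      have hmaps : ∀ x ∈ CC f (m - i) D (f^[i] y) ∩ f^[m - i] ⁻¹' {u},
          f x ∈ CC f (m - (i + 1)) D (f^[i + 1] y) ∩ f^[m - (i + 1)] ⁻¹' {u} := by
        rintro x ⟨hx1, hx2⟩
        have h1 := cc_map hf (i := 1) (by omega) hx1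
        have e1 : m - i - 1 = m - (i + 1) := by omega
        rw [e1, ← Function.iterate_add_apply, Nat.add_comm 1 i] at h1
        refine ⟨h1, ?_⟩
        have h2 : f^[m - i] x = u := hx2
        have e2 : m - i = (m - (i + 1)) + 1 := by omega
        rw [e2, Function.iterate_succ_apply] at h2
        exact h2
      by_cases hinj : InjOn f (CC f (m - i) D (f^[i] y))
      · have e1 : bad i = bad (i + 1) := by
          rw [hbad, hbad]
          ext l
          simp only [Finset.mem_filter, Finset.mem_Ico]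
          constructor
          · rintro ⟨⟨h1, h2⟩, h3⟩
            refine ⟨⟨?_, h2⟩, h3⟩
            rcases Nat.lt_or_ge i l with h4 | h4
            · exact h4
            · have h5 : l = i := by omega
              rw [h5] at h3
              exact absurd hinj h3
          · rintro ⟨⟨h1, h2⟩, h3⟩
            exact ⟨⟨by omega, h2⟩, h3⟩
        rw [e1]
        refine le_trans ?_ ih'
        exact Set.encard_le_encard_of_injOn hmaps (hinj.mono inter_subset_left)
      · have e1 : bad i = insert i (bad (i + 1)) := by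
          rw [hbad, hbad]
          ext l
          simp only [Finset.mem_filter, Finset.mem_Ico, Finset.mem_insert]
          constructor
          · rintro ⟨⟨h1, h2⟩, h3⟩
            rcases Nat.lt_or_ge i l with h4 | h4
            · exact Or.inr ⟨⟨h4, h2⟩, h3⟩
            · exact Or.inl (by omega)
          · rintro (h1 | ⟨⟨h1, h2⟩, h3⟩)
            · rw [h1]
              exact ⟨⟨le_rfl, him⟩, hinj⟩
            · exact ⟨⟨by omega, h2⟩, h3⟩
        have hni : i ∉ bad (i + 1) := by
          rw [hbad, Finset.mem_filter, Finset.mem_Ico]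
          rintro ⟨⟨h1, -⟩, -⟩
          omega
        rw [e1, Finset.card_insert_of_notMem hni, pow_succ]
        have hBfin : (CC f (m - (i + 1)) D (f^[i + 1] y) ∩
            f^[m - (i + 1)] ⁻¹' {u}).Finite := by
          refine Set.finite_of_encard_le_coe (k := d ^ (bad (i + 1)).card) ?_
          push_cast
          exact ih'
        have h1 : (CC f (m - i) D (f^[i] y) ∩ f^[m - i] ⁻¹' {u}) ⊆
            f ⁻¹' (CC f (m - (i + 1)) D (f^[i + 1] y) ∩ f^[m - (i + 1)] ⁻¹' {u}) := hmaps
        refine (Set.encard_le_encard h1).trans ((fib_enc hfib hBfin).trans ?_)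
        rw [mul_comm]
        exact mul_le_mul_left ih' _
  have h1 := key m le_rfl
  have e1 : m - m = 0 := by omega
  rw [e1] at h1
  refine h1.trans ?_
  have h2 : (1 : ENat) ≤ d := by exact_mod_cast hd
  exact pow_le_pow_right' h2 hcard

theorem tw_set (hf : Continuous f)
    (hc : ∀ c, IsCrit f c → (∀ n : ℕ, f^[n + 1] c ∉ D) ∨ ∀ n : ℕ, ρ ≤ chord c (f^[n + 1] c))
    (hfin : {c | IsCrit f c}.Finite) :
    ∃ S : Finset (OnePoint ℂ), S.card ≤ {c | IsCrit f c}.ncard ∧ ∀ i < m, ∀ c, IsCrit f c →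
      f c ∈ CC f (m - (i + 1)) D (f^[i + 1] y) → (∀ z ∈ CC f (m - i) D (f^[i] y), chord c z < ρ) →
      f^[m - i] c ∈ S := by
  classical
  have hch : ∀ c, ∃ x : OnePoint ℂ, IsCrit f c → ∀ i < m, f c ∈ CC f (m - (i + 1)) D (f^[i + 1] y) →
      (∀ z ∈ CC f (m - i) D (f^[i] y), chord c z < ρ) → f^[m - i] c = x := by
    intro c
    by_cases h : IsCrit f c ∧ ∃ i < m, f c ∈ CC f (m - (i + 1)) D (f^[i + 1] y) ∧
        ∀ z ∈ CC f (m - i) D (f^[i] y), chord c z < ρ
    · obtain ⟨hcr, i, hi, h1, h2⟩ := h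
      refine ⟨f^[m - i] c, fun _ l hl h3 h4 => ?_⟩
      rw [once hf hc hcr hi hl h1 h3 h2 h4]
    · refine ⟨c, fun hcr i hi h1 h2 => ?_⟩
      exact absurd ⟨hcr, i, hi, h1, h2⟩ h
  choose g hg using hch
  refine ⟨hfin.toFinset.image g, ?_, ?_⟩
  · refine Finset.card_image_le.trans (le_of_eq ?_)
    rw [Set.ncard_eq_toFinset_card _ hfin]
  · intro i hi c hcr h1 h2
    rw [hg c hcr i hi h1 h2]
    refine Finset.mem_image_of_mem g ?_
    rw [Set.Finite.mem_toFinset]
    exact hcr

theorem tw_bij (hf : Continuous f) (ho : IsOpenMap f) {S : Finset (OnePoint ℂ)}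
    (hS : ∀ i < m, ∀ c, IsCrit f c → f c ∈ CC f (m - (i + 1)) D (f^[i + 1] y) →
      (∀ z ∈ CC f (m - i) D (f^[i] y), chord c z < ρ) → f^[m - i] c ∈ S)
    (hsm : ∀ i ≤ m, Sm (ρ / 2) (CC f (m - i) D (f^[i] y))) {B : Set (OnePoint ℂ)} (hB : IsOpen B)
    (hBc : IsPreconnected B) (hBD : B ⊆ D) (hBS : ∀ x ∈ B, x ∉ S) {y' : OnePoint ℂ}
    (hy' : y' ∈ CC f m D y) (hyB : f^[m] y' ∈ B) (hTw : Tw f m B y' (ρ / 2)) :
    BijOn f^[m] (CC f m B y') B := by
  have hlev : ∀ i < m, InjOn f (CC f (m - i) B (f^[i] y')) := by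
    intro i hi
    by_contra hni
    obtain ⟨c, hcr, h1, h2⟩ := hTw i hi hni
    have hV : ∀ l ≤ m, f^[l] y' ∈ CC f (m - l) D (f^[l] y) := fun l hl => cc_map hf hl hy'
    have h3 : f c ∈ CC f (m - (i + 1)) D (f^[i + 1] y) := cc_mono hBD (hV (i + 1) hi) h2
    have h0 : f^[i] y' ∈ CC f (m - i) B (f^[i] y') := by
      apply cc_mem
      rw [← Function.iterate_add_apply, Nat.sub_add_cancel hi.le]
      exact hyB
    have h4 : ∀ z ∈ CC f (m - i) D (f^[i] y), chord c z < ρ := by
      intro z hz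
      have h5 := ch_tri c (f^[i] y') z
      have h6 := h1 _ h0
      have h7 := hsm i hi.le _ (hV i hi.le) z hz
      linarith
    have h5 := hS i hi c hcr h3 h4
    have h6 := cc_sub h2
    rw [← Function.iterate_succ_apply] at h6
    have e1 : (m - (i + 1)).succ = m - i := by omega
    rw [e1] at h6
    exact hBS _ h6 h5
  have hinj : ∀ j ≤ m, InjOn f^[j] (CC f m B y') := by
    intro j
    induction j with
    | zero =>
      intro _ a _ b _ hab
      exact hab
    | succ j ih =>
      intro hj a ha b hb hab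
      rw [Function.iterate_succ_apply', Function.iterate_succ_apply'] at hab
      exact ih (by omega) ha hb
        (hlev j (by omega) (cc_map hf (by omega) ha) (cc_map hf (by omega) hb) hab)
  refine ⟨fun a ha => cc_sub ha, hinj m le_rfl, ?_⟩
  rw [SurjOn, cc_onto hf ho hB hBc hyB]

end Pool.Agent.H44.RC
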